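import Pool.Agent.FSQ.Targets

set_option autoImplicit false

/-!
# FSQ: the number of all quadruples (target ASY of MP_a81a37_nt)
-/

namespace Pool.Agent.FSQ

open Finset
open scoped BigOperators

namespace ASY_

/-! ### the analytic part -/

lemma dyadic (c : ℕ → ℕ) {C θ : ℝ} (hθ1 : θ < 1) (hC : 0 < C)
    (hS : ∀ N : ℕ, 1 ≤ N → ∑ n ∈ Ioc 0 N, (c n : ℝ) ≤ C * (N : ℝ) ^ θ) :
    ∃ K : ℝ, 0 < K ∧ ∀ N M : ℕ, 1 ≤ N →
      ∑ n ∈ Ioc N M, (c n : ℝ) / n ≤ K * (N : ℝ) ^ (θ - 1) := by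
  set q : ℝ := (2 : ℝ) ^ (θ - 1) with hq
  have hq0 : 0 < q := by positivity
  have hq1 : q < 1 := Real.rpow_lt_one_of_one_lt_of_neg (by norm_num) (by linarith)
  have h2 : (0 : ℝ) < (2 : ℝ) ^ θ := by positivity
  refine ⟨C * (2 : ℝ) ^ θ * (1 / (1 - q)), ?_, fun N M hN => ?_⟩
  · have : 0 < 1 - q := by linarith
    positivity
  have hN0 : (0 : ℝ) < N := by exact_mod_cast hN
  -- dyadic blocks
  have hblock : ∀ j : ℕ, ∑ n ∈ Ioc (2 ^ j * N) (2 ^ (j + 1) * N), (c n : ℝ) / n ≤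
      C * (2 : ℝ) ^ θ * (N : ℝ) ^ (θ - 1) * q ^ j := by
    intro j
    have hpos : 0 < 2 ^ j * N := by positivity
    have hpos' : (0 : ℝ) < 2 ^ j * N := by positivity
    calc ∑ n ∈ Ioc (2 ^ j * N) (2 ^ (j + 1) * N), (c n : ℝ) / n
        ≤ ∑ n ∈ Ioc (2 ^ j * N) (2 ^ (j + 1) * N), (c n : ℝ) / ((2 : ℝ) ^ j * N) := by
          apply sum_le_sum
          intro n hn
          rw [mem_Ioc] at hn
          have h3 : (2 : ℝ) ^ j * N ≤ n := by exact_mod_cast hn.1.le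
          exact div_le_div_of_nonneg_left (Nat.cast_nonneg _) hpos' h3
      _ = (∑ n ∈ Ioc (2 ^ j * N) (2 ^ (j + 1) * N), (c n : ℝ)) / ((2 : ℝ) ^ j * N) := by
          rw [sum_div]
      _ ≤ (∑ n ∈ Ioc 0 (2 ^ (j + 1) * N), (c n : ℝ)) / ((2 : ℝ) ^ j * N) := by
          apply div_le_div_of_nonneg_right _ hpos'.le
          apply sum_le_sum_of_subset_of_nonneg
          · exact Ioc_subset_Ioc_left (Nat.zero_le _)
          · intro _ _ _
            exact Nat.cast_nonneg _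
      _ ≤ (C * ((2 ^ (j + 1) * N : ℕ) : ℝ) ^ θ) / ((2 : ℝ) ^ j * N) := by
          gcongr
          apply hS
          exact Nat.one_le_iff_ne_zero.2 (by positivity)
      _ = C * (2 : ℝ) ^ θ * (N : ℝ) ^ (θ - 1) * q ^ j := by
          have e1 : ((2 ^ (j + 1) * N : ℕ) : ℝ) = (2 : ℝ) ^ j * (2 * N) := by
            push_cast
            ring
          have e2 : q ^ j = ((2 : ℝ) ^ j) ^ (θ - 1) := by
            rw [hq, ← Real.rpow_natCast, ← Real.rpow_natCast, ← Real.rpow_mul (by norm_num),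
              ← Real.rpow_mul (by norm_num), mul_comm]
          rw [e1, e2, Real.mul_rpow (by positivity) (by positivity),
            Real.mul_rpow (by norm_num) (by positivity),
            Real.rpow_sub (by positivity : (0 : ℝ) < (2 : ℝ) ^ j),
            Real.rpow_sub hN0, Real.rpow_one, Real.rpow_one]
          field_simp
  have hJ : ∀ J : ℕ, ∑ n ∈ Ioc N (2 ^ J * N), (c n : ℝ) / n ≤
      ∑ j ∈ range J, C * (2 : ℝ) ^ θ * (N : ℝ) ^ (θ - 1) * q ^ j := by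
    intro J
    induction J with
    | zero => simp
    | succ J ih =>
      rw [sum_range_succ]
      have h1 : N ≤ 2 ^ J * N := Nat.le_mul_of_pos_left N (by positivity)
      have h2 : 2 ^ J * N ≤ 2 ^ (J + 1) * N := by
        apply Nat.mul_le_mul_right
        exact Nat.pow_le_pow_right (by norm_num) (Nat.le_succ J)
      rw [← Finset.Ioc_union_Ioc_eq_Ioc h1 h2, sum_union]
      · exact add_le_add ih (hblock J)
      · rw [Finset.disjoint_left]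
        intro x hx hx'
        rw [mem_Ioc] at hx hx'
        omega
  have hgeo : ∀ J : ℕ, ∑ j ∈ range J, q ^ j ≤ 1 / (1 - q) := by
    intro J
    have h1 := (summable_geometric_of_lt_one hq0.le hq1).sum_le_tsum (range J)
      (fun _ _ => by positivity)
    rw [tsum_geometric_of_lt_one hq0.le hq1] at h1
    rw [one_div]
    exact h1
  have hM : M ≤ 2 ^ M * N := by
    have h1 : M < 2 ^ M := Nat.lt_two_pow_self
    calc M ≤ 2 ^ M := h1.le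
      _ ≤ 2 ^ M * N := Nat.le_mul_of_pos_right _ hN
  calc ∑ n ∈ Ioc N M, (c n : ℝ) / n ≤ ∑ n ∈ Ioc N (2 ^ M * N), (c n : ℝ) / n := by
        apply sum_le_sum_of_subset_of_nonneg
        · exact Ioc_subset_Ioc_right hM
        · intro _ _ _
          positivity
    _ ≤ ∑ j ∈ range M, C * (2 : ℝ) ^ θ * (N : ℝ) ^ (θ - 1) * q ^ j := hJ M
    _ = C * (2 : ℝ) ^ θ * (N : ℝ) ^ (θ - 1) * ∑ j ∈ range M, q ^ j := by rw [mul_sum]
    _ ≤ C * (2 : ℝ) ^ θ * (N : ℝ) ^ (θ - 1) * (1 / (1 - q)) := by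
        gcongr
        exact hgeo M
    _ = C * (2 : ℝ) ^ θ * (1 / (1 - q)) * (N : ℝ) ^ (θ - 1) := by ring

lemma analytic (c : ℕ → ℕ)
    (hS : ∀ ε : ℝ, 0 < ε → ∃ C : ℝ, 0 < C ∧ ∀ N : ℕ, 1 ≤ N →
      ∑ n ∈ Ioc 0 N, (c n : ℝ) ≤ C * (N : ℝ) ^ ((9 : ℝ) / 10 + ε)) :
    Summable (fun n : ℕ => (c n : ℝ) / n) ∧
    ∀ ε : ℝ, 0 < ε → ∃ C : ℝ, 0 < C ∧ ∀ N : ℕ, 1 ≤ N →
      |(∑ n ∈ Ioc 0 N, (c n : ℝ) * ((N / n : ℕ) : ℝ)) - (∑' n : ℕ, (c n : ℝ) / n) * N| ≤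
        C * (N : ℝ) ^ ((9 : ℝ) / 10 + ε) := by
  have hnn : ∀ n : ℕ, 0 ≤ (c n : ℝ) / n := fun n => by positivity
  -- finite sums
  have hrange : ∀ M : ℕ, ∑ n ∈ range M, (c n : ℝ) / n ≤ ∑ n ∈ Ioc 0 M, (c n : ℝ) / n := by
    intro M
    have h1 : ∑ n ∈ range M, (c n : ℝ) / n ≤ ∑ n ∈ insert 0 (Ioc 0 M), (c n : ℝ) / n := by
      apply sum_le_sum_of_subset_of_nonneg
      · intro n hn
        rw [mem_range] at hn
        rw [mem_insert, mem_Ioc]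
        omega
      · intro n _ _
        exact hnn n
    refine h1.trans ?_
    rw [sum_insert (by simp), Nat.cast_zero, div_zero, zero_add]
  have hsplit : ∀ N M : ℕ, ∑ n ∈ Ioc 0 M, (c n : ℝ) / n ≤
      ∑ n ∈ Ioc 0 N, (c n : ℝ) / n + ∑ n ∈ Ioc N M, (c n : ℝ) / n := by
    intro N M
    rw [← sum_union]
    · apply sum_le_sum_of_subset_of_nonneg
      · intro n hn
        rw [mem_Ioc] at hn
        rw [mem_union, mem_Ioc, mem_Ioc]
        omega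
      · intro n _ _
        exact hnn n
    · rw [Finset.disjoint_left]
      intro x hx hx'
      rw [mem_Ioc] at hx hx'
      omega
  have hsum : Summable (fun n : ℕ => (c n : ℝ) / n) := by
    obtain ⟨C, hC, hCN⟩ := hS (1 / 20) (by norm_num)
    obtain ⟨K, hK, hKN⟩ := dyadic c (by norm_num : (9 : ℝ) / 10 + 1 / 20 < 1) hC hCN
    refine summable_of_sum_range_le (c := ∑ n ∈ Ioc 0 1, (c n : ℝ) / n + K) hnn fun M => ?_
    refine (hrange M).trans ((hsplit 1 M).trans ?_)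
    have := hKN 1 M le_rfl
    rw [Nat.cast_one, Real.one_rpow, mul_one] at this
    linarith
  refine ⟨hsum, fun ε hε => ?_⟩
  set ε' : ℝ := min ε (1 / 20) with hε'
  have hε'0 : 0 < ε' := lt_min hε (by norm_num)
  have hε'1 : ε' ≤ 1 / 20 := min_le_right _ _
  have hε'2 : ε' ≤ ε := min_le_left _ _
  obtain ⟨C, hC, hCN⟩ := hS ε' hε'0
  obtain ⟨K, hK, hKN⟩ := dyadic c (by linarith : (9 : ℝ) / 10 + ε' < 1) hC hCN
  refine ⟨K + C, by linarith, fun N hN => ?_⟩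
  have hN0 : (0 : ℝ) < N := by exact_mod_cast hN
  have hN1 : (1 : ℝ) ≤ N := by exact_mod_cast hN
  set S := ∑ n ∈ Ioc 0 N, (c n : ℝ) / n with hSdef
  set κ := ∑' n : ℕ, (c n : ℝ) / n with hκ
  have hκS : κ ≤ S + K * (N : ℝ) ^ ((9 : ℝ) / 10 + ε' - 1) := by
    apply hsum.tsum_le_of_sum_range_le
    intro M
    exact (hrange M).trans ((hsplit N M).trans (by linarith [hKN N M hN]))
  have hSκ : S ≤ κ := hsum.sum_le_tsum _ fun n _ => hnn n
  set T := ∑ n ∈ Ioc 0 N, (c n : ℝ) * ((N / n : ℕ) : ℝ) with hT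
  have hTS : T ≤ S * N := by
    rw [hT, hSdef, sum_mul]
    apply sum_le_sum
    intro n _
    rw [div_mul_eq_mul_div, mul_div_assoc]
    exact mul_le_mul_of_nonneg_left Nat.cast_div_le (Nat.cast_nonneg _)
  have hST : S * N ≤ T + ∑ n ∈ Ioc 0 N, (c n : ℝ) := by
    rw [hT, hSdef, sum_mul, ← sum_add_distrib]
    apply sum_le_sum
    intro n hn
    rw [mem_Ioc] at hn
    have hn0 : (0 : ℝ) < n := by exact_mod_cast hn.1
    have h1 : (N : ℝ) / n ≤ ((N / n : ℕ) : ℝ) + 1 := by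
      rw [div_le_iff₀ hn0]
      have h2 := Nat.div_add_mod N n
      have h3 := Nat.mod_lt N hn.1
      have h4 : N ≤ (N / n + 1) * n := by
        calc N = n * (N / n) + N % n := h2.symm
          _ ≤ n * (N / n) + n := by omega
          _ = (N / n + 1) * n := by ring
      exact_mod_cast h4
    calc (c n : ℝ) / n * N = c n * (N / n) := by ring
      _ ≤ c n * (((N / n : ℕ) : ℝ) + 1) := by gcongr
      _ = c n * ((N / n : ℕ) : ℝ) + c n := by ring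
  have hpow : (N : ℝ) ^ ((9 : ℝ) / 10 + ε' - 1) * N = (N : ℝ) ^ ((9 : ℝ) / 10 + ε') := by
    rw [Real.rpow_sub hN0, Real.rpow_one]
    field_simp
  have hpow2 : (N : ℝ) ^ ((9 : ℝ) / 10 + ε') ≤ (N : ℝ) ^ ((9 : ℝ) / 10 + ε) :=
    Real.rpow_le_rpow_of_exponent_le hN1 (by linarith)
  have hCN' := hCN N hN
  have hκN : κ * N ≤ S * N + K * (N : ℝ) ^ ((9 : ℝ) / 10 + ε') := by
    calc κ * N ≤ (S + K * (N : ℝ) ^ ((9 : ℝ) / 10 + ε' - 1)) * N := by gcongr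
      _ = S * N + K * ((N : ℝ) ^ ((9 : ℝ) / 10 + ε' - 1) * N) := by ring
      _ = S * N + K * (N : ℝ) ^ ((9 : ℝ) / 10 + ε') := by rw [hpow]
  have hSN : S * N ≤ κ * N := by gcongr
  rw [abs_le]
  constructor
  · have h1 : (K + C) * (N : ℝ) ^ ((9 : ℝ) / 10 + ε') ≤
        (K + C) * (N : ℝ) ^ ((9 : ℝ) / 10 + ε) := by gcongr
    have h2 : (K + C) * (N : ℝ) ^ ((9 : ℝ) / 10 + ε') =
        K * (N : ℝ) ^ ((9 : ℝ) / 10 + ε') + C * (N : ℝ) ^ ((9 : ℝ) / 10 + ε') := by ring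
    linarith
  · have h1 : 0 ≤ (K + C) * (N : ℝ) ^ ((9 : ℝ) / 10 + ε) := by positivity
    linarith

/-! ### the combinatorial part -/

/-- the maximum of the entries -/
def mx (t : ℕ × ℕ × ℕ × ℕ) : ℕ := max (max t.1 t.2.1) (max t.2.2.1 t.2.2.2)

/-- the greatest common divisor of the entries -/
def gd (t : ℕ × ℕ × ℕ × ℕ) : ℕ := Nat.gcd (Nat.gcd (Nat.gcd t.1 t.2.1) t.2.2.1) t.2.2.2

/-- multiples -/
def sc (k : ℕ) (t : ℕ × ℕ × ℕ × ℕ) : ℕ × ℕ × ℕ × ℕ :=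
  (k * t.1, k * t.2.1, k * t.2.2.1, k * t.2.2.2)

/-- the condition for a quadruple -/
def Qd (t : ℕ × ℕ × ℕ × ℕ) : Prop := Quad t.1 t.2.1 t.2.2.1 t.2.2.2

lemma mx_le {t : ℕ × ℕ × ℕ × ℕ} {N : ℕ} :
    mx t ≤ N ↔ t.1 ≤ N ∧ t.2.1 ≤ N ∧ t.2.2.1 ≤ N ∧ t.2.2.2 ≤ N := by
  unfold mx
  simp only [max_le_iff]
  tauto

lemma gd_sc (k : ℕ) (t : ℕ × ℕ × ℕ × ℕ) : gd (sc k t) = k * gd t := by
  unfold gd sc
  simp only [Nat.gcd_mul_left]

lemma mx_sc (k : ℕ) (t : ℕ × ℕ × ℕ × ℕ) : mx (sc k t) = k * mx t := by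
  unfold mx sc
  simp only [Nat.mul_max_mul_left]

lemma sq_iff {k : ℕ} (hk : 0 < k) (a b : ℕ) :
    IsSquare ((k * a) ^ 2 + (k * b) ^ 2) ↔ IsSquare (a ^ 2 + b ^ 2) := by
  have e : (k * a) ^ 2 + (k * b) ^ 2 = k ^ 2 * (a ^ 2 + b ^ 2) := by ring
  rw [e]
  constructor
  · rintro ⟨y, hy⟩
    have h1 : k ^ 2 ∣ y ^ 2 := ⟨a ^ 2 + b ^ 2, by rw [sq y]; exact hy.symm⟩
    have h2 : k ∣ y := (Nat.pow_dvd_pow_iff (by norm_num)).1 h1
    obtain ⟨z, rfl⟩ := h2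
    refine ⟨z, ?_⟩
    have h3 : 0 < k ^ 2 := by positivity
    apply Nat.eq_of_mul_eq_mul_left h3
    rw [hy]
    ring
  · rintro ⟨z, hz⟩
    refine ⟨k * z, ?_⟩
    rw [hz]
    ring

lemma Qd_sc {k : ℕ} (hk : 0 < k) (t : ℕ × ℕ × ℕ × ℕ) : Qd (sc k t) ↔ Qd t := by
  unfold Qd Quad sc
  simp only [sq_iff hk, Nat.mul_pos_iff_of_pos_left hk]

lemma fin_box (N : ℕ) : {t : ℕ × ℕ × ℕ × ℕ | mx t ≤ N}.Finite := by
  apply Set.Finite.subset (Finset.finite_toSet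
    ((range (N + 1)) ×ˢ (range (N + 1)) ×ˢ (range (N + 1)) ×ˢ (range (N + 1))))
  intro t ht
  rw [Set.mem_ofPred_eq, mx_le] at ht
  simp only [Finset.coe_product, Set.mem_prod, Finset.mem_coe, mem_range]
  omega

open Classical in
/-- primitive quadruples as a finset -/
noncomputable def F (N : ℕ) : Finset (ℕ × ℕ × ℕ × ℕ) :=
  (fin_box N).toFinset.filter fun t => Qd t ∧ gd t = 1

open Classical in
/-- all quadruples as a finset -/
noncomputable def A (N : ℕ) : Finset (ℕ × ℕ × ℕ × ℕ) :=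
  (fin_box N).toFinset.filter fun t => Qd t

lemma mem_F {N : ℕ} {t : ℕ × ℕ × ℕ × ℕ} : t ∈ F N ↔ mx t ≤ N ∧ Qd t ∧ gd t = 1 := by
  unfold F
  simp only [mem_filter, Set.Finite.mem_toFinset, Set.mem_ofPred_eq]

lemma mem_A {N : ℕ} {t : ℕ × ℕ × ℕ × ℕ} : t ∈ A N ↔ mx t ≤ N ∧ Qd t := by
  unfold A
  simp only [mem_filter, Set.Finite.mem_toFinset, Set.mem_ofPred_eq]

lemma card_F (N : ℕ) : (quadSet N).ncard = (F N).card := by
  rw [← Set.ncard_coe_finset]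
  congr 1
  ext t
  rw [Finset.mem_coe, mem_F, mx_le]
  unfold quadSet Qd gd
  simp only [Set.mem_ofPred_eq]
  tauto

lemma card_A (N : ℕ) : (quadAll N).ncard = (A N).card := by
  rw [← Set.ncard_coe_finset]
  congr 1
  ext t
  rw [Finset.mem_coe, mem_A, mx_le]
  unfold quadAll Qd
  simp only [Set.mem_ofPred_eq]
  tauto

/-- the number of primitive quadruples with a given maximum -/
noncomputable def cc (n : ℕ) : ℕ := ((F n).filter fun t => mx t = n).card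

lemma mx_pos {t : ℕ × ℕ × ℕ × ℕ} (h : Qd t) : 0 < mx t := by
  have h1 : 0 < t.1 := h.1
  have h2 := (mx_le.1 (le_refl (mx t))).1
  omega

lemma gd_pos {t : ℕ × ℕ × ℕ × ℕ} (h : Qd t) : 0 < gd t :=
  Nat.gcd_pos_of_pos_right _ h.2.2.2.1

lemma filter_F {N n : ℕ} (hn : n ≤ N) :
    (F N).filter (fun t => mx t = n) = (F n).filter fun t => mx t = n := by
  ext t
  simp only [mem_filter, mem_F]
  constructor
  · rintro ⟨⟨-, h1, h2⟩, h3⟩
    exact ⟨⟨h3.le, h1, h2⟩, h3⟩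
  · rintro ⟨⟨-, h1, h2⟩, h3⟩
    exact ⟨⟨by omega, h1, h2⟩, h3⟩

lemma sum_cc (N : ℕ) (f : ℕ → ℕ) :
    ∑ n ∈ Ioc 0 N, cc n * f n = ∑ t ∈ F N, f (mx t) := by
  have hmaps : ∀ t ∈ F N, mx t ∈ Ioc 0 N := by
    intro t ht
    rw [mem_F] at ht
    rw [mem_Ioc]
    exact ⟨mx_pos ht.2.1, ht.1⟩
  rw [← sum_fiberwise_of_maps_to hmaps]
  refine sum_congr rfl fun n hn => ?_
  rw [mem_Ioc] at hn
  rw [filter_F hn.2]
  have h1 : ∑ t ∈ (F n).filter (fun t => mx t = n), f (mx t) =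
      ∑ _t ∈ (F n).filter (fun t => mx t = n), f n := by
    refine sum_congr rfl fun t ht => ?_
    rw [mem_filter] at ht
    rw [ht.2]
  rw [h1, sum_const, smul_eq_mul]
  rfl

/-- the primitive part -/
def pp (t : ℕ × ℕ × ℕ × ℕ) : ℕ × ℕ × ℕ × ℕ :=
  (t.1 / gd t, t.2.1 / gd t, t.2.2.1 / gd t, t.2.2.2 / gd t)

lemma gd_dvd (t : ℕ × ℕ × ℕ × ℕ) :
    gd t ∣ t.1 ∧ gd t ∣ t.2.1 ∧ gd t ∣ t.2.2.1 ∧ gd t ∣ t.2.2.2 := by
  unfold gd
  have h1 := Nat.gcd_dvd_left (Nat.gcd (Nat.gcd t.1 t.2.1) t.2.2.1) t.2.2.2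
  have h2 := Nat.gcd_dvd_left (Nat.gcd t.1 t.2.1) t.2.2.1
  exact ⟨(h1.trans h2).trans (Nat.gcd_dvd_left _ _), (h1.trans h2).trans (Nat.gcd_dvd_right _ _),
    h1.trans (Nat.gcd_dvd_right _ _), Nat.gcd_dvd_right _ _⟩

lemma sc_pp (t : ℕ × ℕ × ℕ × ℕ) : sc (gd t) (pp t) = t := by
  obtain ⟨h1, h2, h3, h4⟩ := gd_dvd t
  unfold sc pp
  simp only [Nat.mul_div_cancel' h1, Nat.mul_div_cancel' h2, Nat.mul_div_cancel' h3,
    Nat.mul_div_cancel' h4]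

lemma gd_pp {t : ℕ × ℕ × ℕ × ℕ} (h : Qd t) : gd (pp t) = 1 := by
  have h1 := gd_sc (gd t) (pp t)
  rw [sc_pp] at h1
  exact Nat.eq_of_mul_eq_mul_left (gd_pos h) (by rw [mul_one]; exact h1.symm)

lemma Qd_pp {t : ℕ × ℕ × ℕ × ℕ} (h : Qd t) : Qd (pp t) := by
  rw [← Qd_sc (gd_pos h), sc_pp]
  exact h

lemma sc_inj {k : ℕ} (hk : 0 < k) {t s : ℕ × ℕ × ℕ × ℕ} (h : sc k t = sc k s) : t = s := by
  unfold sc at h
  simp only [Prod.mk.injEq] at h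
  obtain ⟨h1, h2, h3, h4⟩ := h
  exact Prod.ext (Nat.eq_of_mul_eq_mul_left hk h1) (Prod.ext (Nat.eq_of_mul_eq_mul_left hk h2)
    (Prod.ext (Nat.eq_of_mul_eq_mul_left hk h3) (Nat.eq_of_mul_eq_mul_left hk h4)))

lemma card_A_eq (N : ℕ) : (A N).card = ∑ t ∈ F N, N / mx t := by
  have h1 : ∑ t ∈ F N, N / mx t = ((F N).sigma fun t => Ioc 0 (N / mx t)).card := by
    rw [card_sigma]
    refine sum_congr rfl fun t _ => ?_
    rw [Nat.card_Ioc, Nat.sub_zero]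
  rw [h1]
  symm
  refine card_bij (fun x _ => sc x.2 x.1) ?_ ?_ ?_
  · rintro ⟨t, k⟩ hx
    rw [mem_sigma, mem_F, mem_Ioc] at hx
    obtain ⟨⟨h2, h3, h4⟩, h5, h6⟩ := hx
    rw [mem_A, mx_sc, Qd_sc h5]
    refine ⟨?_, h3⟩
    exact (Nat.le_div_iff_mul_le (mx_pos h3)).1 h6
  · rintro ⟨t, k⟩ hx ⟨s, l⟩ hy hxy
    rw [mem_sigma, mem_F, mem_Ioc] at hx hy
    obtain ⟨⟨h2, h3, h4⟩, h5, h6⟩ := hx
    obtain ⟨⟨h2', h3', h4'⟩, h5', h6'⟩ := hy
    change sc k t = sc l s at hxy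
    have h7 := congrArg gd hxy
    rw [gd_sc, gd_sc] at h7
    simp only at h4 h4'
    rw [h4, h4', mul_one, mul_one] at h7
    subst h7
    rw [sc_inj h5 hxy]
  · intro t ht
    rw [mem_A] at ht
    have hg := gd_pos ht.2
    refine ⟨⟨pp t, gd t⟩, ?_, sc_pp t⟩
    have h2 : gd t * mx (pp t) = mx t := by rw [← mx_sc, sc_pp]
    have h3 : mx (pp t) ≤ mx t := by
      rw [← h2]
      exact Nat.le_mul_of_pos_left _ hg
    rw [mem_sigma, mem_F, mem_Ioc]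
    refine ⟨⟨h3.trans ht.1, Qd_pp ht.2, gd_pp ht.2⟩, hg, ?_⟩
    rw [Nat.le_div_iff_mul_le (mx_pos (Qd_pp ht.2)), h2]
    exact ht.1

end ASY_

open ASY_ in
/-- ASY. -/
theorem p_ASY (hQAD : T_QAD) : T_ASY := by
  have hS : ∀ ε : ℝ, 0 < ε → ∃ C : ℝ, 0 < C ∧ ∀ N : ℕ, 1 ≤ N →
      ∑ n ∈ Ioc 0 N, (cc n : ℝ) ≤ C * (N : ℝ) ^ ((9 : ℝ) / 10 + ε) := by
    intro ε hε
    obtain ⟨C, hC, h⟩ := hQAD ε hε
    refine ⟨C, hC, fun N hN => ?_⟩
    have h1 := sum_cc N fun _ => 1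
    simp only [mul_one, sum_const, smul_eq_mul] at h1
    have h2 := h N hN
    rw [card_F, ← h1] at h2
    push_cast at h2
    exact h2
  obtain ⟨hsum, hbd⟩ := analytic cc hS
  refine ⟨∑' n : ℕ, (cc n : ℝ) / n, tsum_nonneg fun n => by positivity, ?_, ?_⟩
  · constructor
    · rintro h0 ⟨a, b, c, d, hq⟩
      have hQ : Qd (a, b, c, d) := hq
      set t := pp (a, b, c, d) with ht
      have hmem : t ∈ (F (mx t)).filter fun s => mx s = mx t := by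
        rw [mem_filter, mem_F]
        exact ⟨⟨le_rfl, Qd_pp hQ, gd_pp hQ⟩, rfl⟩
      have h1 : 0 < cc (mx t) := card_pos.2 ⟨t, hmem⟩
      have h2 : 0 < mx t := mx_pos (Qd_pp hQ)
      have h3 : (cc (mx t) : ℝ) / (mx t : ℕ) ≤ ∑' n : ℕ, (cc n : ℝ) / n :=
        hsum.le_tsum (mx t) fun n _ => by positivity
      have h4 : (0 : ℝ) < (cc (mx t) : ℝ) / (mx t : ℕ) := by
        have : (0 : ℝ) < cc (mx t) := by exact_mod_cast h1
        have : (0 : ℝ) < (mx t : ℕ) := by exact_mod_cast h2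
        positivity
      linarith
    · intro h0
      have h1 : ∀ n, cc n = 0 := by
        intro n
        unfold cc
        rw [card_eq_zero, filter_eq_empty_iff]
        intro t ht _
        rw [mem_F] at ht
        exact h0 ⟨_, _, _, _, ht.2.1⟩
      simp [h1]
  · intro ε hε
    obtain ⟨C, hC, h⟩ := hbd ε hε
    refine ⟨C, hC, fun N hN => ?_⟩
    have h1 := h N hN
    rw [card_A, card_A_eq, ← sum_cc N fun m => N / m]
    push_cast
    exact h1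

end Pool.Agent.FSQ
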