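import Pool.Agent.FSQ.Targets

set_option autoImplicit false

namespace Pool.Agent.FSQ

open Finset
open scoped BigOperators

namespace BOX_

/-- the sum of `log p` over a set of primes up to `Q` -/
lemma theta_bound (Q : ℕ) (P : Finset ℕ) (hP : ∀ p ∈ P, p.Prime ∧ p ≤ Q) :
    ∑ p ∈ P, Real.log p ≤ 2 * Q := by
  have h1 := Chebyshev.theta_le_log4_mul_x (x := (Q : ℝ)) (Nat.cast_nonneg Q)
  have h2 : Real.log 4 ≤ 2 := by
    have : Real.log 4 = 2 * Real.log 2 := by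
      rw [show (4 : ℝ) = 2 ^ 2 by norm_num, Real.log_pow]
      norm_num
    rw [this]
    have := Real.log_two_lt_d9
    linarith
  have h3 : ∑ p ∈ P, Real.log p ≤ Chebyshev.theta (Q : ℝ) := by
    unfold Chebyshev.theta
    apply sum_le_sum_of_subset_of_nonneg
    · intro p hp
      obtain ⟨hpp, hpQ⟩ := hP p hp
      rw [mem_filter, mem_Ioc, Nat.floor_natCast]
      exact ⟨⟨hpp.pos, hpQ⟩, hpp⟩
    · intro p hp _
      apply Real.log_nonneg
      rw [mem_filter, mem_Ioc] at hp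
      exact_mod_cast hp.1.1
  have h4 : (0 : ℝ) ≤ Q := Nat.cast_nonneg Q
  nlinarith

/-- the map to the projective line -/
noncomputable def kap (p : ℕ) (hp : Fact p.Prime) (s : ℕ × ℕ) : Option (ZMod p) :=
  if ((s.2 : ℕ) : ZMod p) = 0 then none else some (((s.1 : ℕ) : ZMod p) / ((s.2 : ℕ) : ZMod p))

lemma kap_dvd (p : ℕ) (hp : Fact p.Prime) (s t : ℕ × ℕ) (h : kap p hp s = kap p hp t) :
    (p : ℤ) ∣ ((s.1 : ℤ) * t.2 - (t.1 : ℤ) * s.2) := by
  rw [← ZMod.intCast_zmod_eq_zero_iff_dvd]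
  push_cast
  unfold kap at h
  by_cases hs : ((s.2 : ℕ) : ZMod p) = 0
  · by_cases ht : ((t.2 : ℕ) : ZMod p) = 0
    · rw [hs, ht]; ring
    · rw [if_pos hs, if_neg ht] at h
      exact absurd h (by simp)
  · by_cases ht : ((t.2 : ℕ) : ZMod p) = 0
    · rw [if_neg hs, if_pos ht] at h
      exact absurd h (by simp)
    · rw [if_neg hs, if_neg ht, Option.some_inj, div_eq_div_iff hs ht] at h
      rw [h]
      ring

lemma kap_image (p : ℕ) (hp : Fact p.Prime) (α β γ : ℤ) (S : Finset (ℕ × ℕ))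
    (hS : ∀ s ∈ S, IsSquare (Qz α β γ s.1 s.2)) :
    ((kap p hp) '' (S : Set (ℕ × ℕ))).ncard ≤
      {t : ZMod p | IsSquare ((α : ZMod p) * t ^ 4 + (β : ZMod p) * t ^ 2 + (γ : ZMod p))}.ncard
        + 1 := by
  set E : Set (ZMod p) :=
    {t : ZMod p | IsSquare ((α : ZMod p) * t ^ 4 + (β : ZMod p) * t ^ 2 + (γ : ZMod p))} with hE
  have hsub : (kap p hp) '' (S : Set (ℕ × ℕ)) ⊆ insert none (some '' E) := by
    rintro _ ⟨s, hs, rfl⟩
    unfold kap
    split_ifs with h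
    · exact Set.mem_insert _ _
    · right
      refine ⟨_, ?_, rfl⟩
      obtain ⟨m, hm⟩ := hS s hs
      have e1 : (α : ZMod p) * ((s.1 : ℕ) : ZMod p) ^ 4
          + (β : ZMod p) * ((s.1 : ℕ) : ZMod p) ^ 2 * ((s.2 : ℕ) : ZMod p) ^ 2
          + (γ : ZMod p) * ((s.2 : ℕ) : ZMod p) ^ 4 = (m : ZMod p) * m := by
        have := congrArg (fun z : ℤ => (z : ZMod p)) hm
        simp only [Qz] at this
        push_cast at this
        exact this
      refine ⟨(m : ZMod p) / ((s.2 : ℕ) : ZMod p) ^ 2, ?_⟩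
      field_simp
      rw [sq (m : ZMod p), ← e1]
      ring
  have hfin : (insert none (some '' E)).Finite := Set.toFinite _
  calc _ ≤ (insert none (some '' E)).ncard := Set.ncard_le_ncard hsub hfin
    _ ≤ (some '' E).ncard + 1 := Set.ncard_insert_le _ _
    _ = E.ncard + 1 := by
        rw [Set.ncard_image_of_injective _ (Option.some_injective _)]

end BOX_

open BOX_ in
theorem p_BOX (hSQC : T_SQC) (hLSV : T_LSV) (hMRT : T_MRT) : T_BOX := by
  intro ε hε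
  obtain ⟨K, hK⟩ := hMRT (ε / 2) (by positivity)
  set K' : ℝ := max K 0 with hK'
  have hK0 : 0 ≤ K' := le_max_right _ _
  have hKK : K ≤ K' := le_max_left _ _
  refine ⟨4 * Real.exp ((K' + 1) / 2) * (30 : ℝ) ^ (ε / 4), by positivity, ?_⟩
  intro H α β γ X Y S hH hgood hα hβ hγ hX hY hS
  obtain ⟨hα0, hγ0, hdisc⟩ := hgood
  -- the bad number
  set Bz : ℤ := 6 * α * γ * (β ^ 2 - 4 * α * γ) with hBz
  have hBz0 : Bz ≠ 0 := by
    rw [hBz]
    apply mul_ne_zero (mul_ne_zero (mul_ne_zero (by norm_num) hα0) hγ0)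
    exact sub_ne_zero.2 hdisc
  set B : ℕ := Bz.natAbs with hB
  have hB1 : 1 ≤ B := Int.natAbs_pos.2 hBz0
  have hBR : (B : ℝ) = |(Bz : ℝ)| := by
    rw [hB, Nat.cast_natAbs, Int.cast_abs]
  have hH0 : 0 ≤ H := by linarith
  have hBle : (B : ℝ) ≤ 30 * H ^ 4 := by
    rw [hBR, hBz]
    push_cast
    rw [abs_mul, abs_mul, abs_mul]
    have h6 : |(6 : ℝ)| = 6 := by norm_num
    rw [h6]
    have e1 : |(β : ℝ) ^ 2 - 4 * α * γ| ≤ 5 * H ^ 2 := by
      have e2 : |(β : ℝ) ^ 2 - 4 * α * γ| ≤ |(β : ℝ) ^ 2| + |4 * (α : ℝ) * γ| := abs_sub _ _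
      rw [abs_pow, abs_mul, abs_mul] at e2
      have e3 : |(4 : ℝ)| = 4 := by norm_num
      rw [e3] at e2
      have e4 : |(β : ℝ)| ^ 2 ≤ H ^ 2 := pow_le_pow_left₀ (abs_nonneg _) hβ 2
      have e5 : |(α : ℝ)| * |(γ : ℝ)| ≤ H * H := mul_le_mul hα hγ (abs_nonneg _) hH0
      nlinarith
    have e6 : |(α : ℝ)| * |(γ : ℝ)| ≤ H * H := mul_le_mul hα hγ (abs_nonneg _) hH0
    calc 6 * |(α : ℝ)| * |(γ : ℝ)| * |(β : ℝ) ^ 2 - 4 * α * γ|
        = 6 * (|(α : ℝ)| * |(γ : ℝ)|) * |(β : ℝ) ^ 2 - 4 * α * γ| := by ring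
      _ ≤ 6 * (H * H) * (5 * H ^ 2) := by
          apply mul_le_mul _ e1 (abs_nonneg _) (by positivity)
          linarith
      _ = 30 * H ^ 4 := by ring
  have hXY : (1 : ℝ) ≤ (X : ℝ) * Y := by
    have h1 : (1 : ℝ) ≤ X := by exact_mod_cast hX
    have h2 : (1 : ℝ) ≤ Y := by exact_mod_cast hY
    nlinarith
  have hlXY : 0 ≤ Real.log ((X : ℝ) * Y) := Real.log_nonneg hXY
  have hB1' : (1 : ℝ) ≤ B := by exact_mod_cast hB1
  have hlB : 0 ≤ Real.log B := Real.log_nonneg hB1'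
  set w : ℝ := (Real.log ((X : ℝ) * Y) + K' + ε / 2 * Real.log B + 1) / 2 with hw
  have hw0 : 0 ≤ w := by rw [hw]; positivity
  set Q : ℕ := ⌈Real.exp w⌉₊ with hQ
  have hQge : Real.exp w ≤ Q := Nat.le_ceil _
  have hexp1 : 1 ≤ Real.exp w := Real.one_le_exp hw0
  have hQ1 : 1 ≤ Q := by
    have : (1 : ℝ) ≤ Q := hexp1.trans hQge
    exact_mod_cast this
  have hQle : (Q : ℝ) ≤ 2 * Real.exp w := by
    have := Nat.ceil_lt_add_one (Real.exp_pos w).le
    rw [← hQ] at this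
    linarith
  have hlQ : w ≤ Real.log Q := by
    rw [← Real.log_exp w]
    exact Real.log_le_log (Real.exp_pos w) hQge
  set P : Finset ℕ := (Icc 5 Q).filter (fun p => p.Prime ∧ ¬ p ∣ B) with hP
  set ν : ℕ → ℝ := fun p => (p : ℝ) / 2 + 5 * (p : ℝ) ^ ((3 : ℝ) / 4) with hν
  have hPm : ∀ p ∈ P, 5 ≤ p ∧ p ≤ Q ∧ p.Prime ∧ ¬ p ∣ B := by
    intro p hp
    rw [hP, mem_filter, mem_Icc] at hp
    exact ⟨hp.1.1, hp.1.2, hp.2.1, hp.2.2⟩
  have hL := hLSV S X Y P ν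
    (fun s hs => by
      obtain ⟨h1, h2, h3, h4, h5, -⟩ := hS s hs
      exact ⟨h1, h2, h3, h4, h5⟩)
    (fun p hp => by
      obtain ⟨hp5, -, hpp, hpB⟩ := hPm p hp
      have hF : Fact p.Prime := ⟨hpp⟩
      have hp0 : (0 : ℝ) < p := by exact_mod_cast hpp.pos
      have hnd : ∀ z : ℤ, z ∣ Bz → (z : ZMod p) ≠ 0 := by
        intro z hz h0
        apply hpB
        rw [ZMod.intCast_zmod_eq_zero_iff_dvd] at h0
        have h1 := h0.trans hz
        rw [← Int.natCast_dvd_natCast, hB, Int.natCast_natAbs]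
        exact (dvd_abs _ _).2 h1
      refine ⟨hpp, by simp only [hν]; positivity, kap p hF, ?_, fun s _ t _ h =>
        kap_dvd p hF s t h⟩
      have h1 := kap_image p hF α β γ S (fun s hs => (hS s hs).2.2.2.2.2)
      have h2 := hSQC p hp5 (α : ZMod p) (β : ZMod p) (γ : ZMod p)
        (hnd α ⟨6 * γ * (β ^ 2 - 4 * α * γ), by rw [hBz]; ring⟩)
        (hnd γ ⟨6 * α * (β ^ 2 - 4 * α * γ), by rw [hBz]; ring⟩)
        (by
          have h3 := hnd (β ^ 2 - 4 * α * γ) ⟨6 * α * γ, by rw [hBz]; ring⟩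
          push_cast at h3
          exact sub_ne_zero.1 h3)
      have h3 : ((((kap p hF) '' (S : Set (ℕ × ℕ))).ncard : ℕ) : ℝ) ≤
          (({t : ZMod p | IsSquare ((α : ZMod p) * t ^ 4 + (β : ZMod p) * t ^ 2
            + (γ : ZMod p))}.ncard : ℕ) : ℝ) + 1 := by exact_mod_cast h1
      exact h3.trans h2)
  have hM := hK Q B hQ1 hB1
  have hbr : 1 ≤ (∑ p ∈ P, Real.log p / ν p) - Real.log ((X : ℝ) * Y) := by
    have e1 : 2 * w = Real.log ((X : ℝ) * Y) + K' + ε / 2 * Real.log B + 1 := by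
      rw [hw]; ring
    have e2 : 2 * Real.log Q - K - ε / 2 * Real.log B ≤ ∑ p ∈ P, Real.log p / ν p := hM
    linarith
  have hcard : (S.card : ℝ) ≤ 2 * Q := by
    have e1 : (S.card : ℝ) ≤
        (S.card : ℝ) * ((∑ p ∈ P, Real.log p / ν p) - Real.log ((X : ℝ) * Y)) := by
      have : (0 : ℝ) ≤ S.card := Nat.cast_nonneg _
      nlinarith
    exact (e1.trans hL).trans (theta_bound Q P fun p hp => ⟨(hPm p hp).2.2.1, (hPm p hp).2.1⟩)
  have hexpw : Real.exp w ≤ Real.exp ((K' + 1) / 2) * Real.sqrt ((X : ℝ) * Y)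
      * ((30 : ℝ) ^ (ε / 4) * H ^ ε) := by
    have hXYp : 0 < (X : ℝ) * Y := by linarith
    have hBp : (0 : ℝ) < B := by linarith
    have e1 : w = (K' + 1) / 2 + (Real.log ((X : ℝ) * Y) / 2 + Real.log B * (ε / 4)) := by
      rw [hw]; ring
    have e2 : Real.exp (Real.log ((X : ℝ) * Y) / 2) = Real.sqrt ((X : ℝ) * Y) := by
      rw [Real.sqrt_eq_rpow, Real.rpow_def_of_pos hXYp]
      congr 1
      ring
    have e3 : Real.exp (Real.log B * (ε / 4)) = (B : ℝ) ^ (ε / 4) :=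
      (Real.rpow_def_of_pos hBp _).symm
    rw [e1, Real.exp_add, Real.exp_add, e2, e3, mul_assoc]
    apply mul_le_mul_of_nonneg_left _ (Real.exp_pos _).le
    apply mul_le_mul_of_nonneg_left _ (Real.sqrt_nonneg _)
    calc (B : ℝ) ^ (ε / 4) ≤ (30 * H ^ 4) ^ (ε / 4) :=
          Real.rpow_le_rpow hBp.le hBle (by positivity)
      _ = (30 : ℝ) ^ (ε / 4) * (H ^ 4) ^ (ε / 4) := Real.mul_rpow (by norm_num) (by positivity)
      _ = (30 : ℝ) ^ (ε / 4) * H ^ ε := by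
          rw [← Real.rpow_natCast H 4, ← Real.rpow_mul hH0]
          congr 2
          push_cast
          ring
  calc (S.card : ℝ) ≤ 2 * Q := hcard
    _ ≤ 4 * Real.exp w := by linarith
    _ ≤ 4 * (Real.exp ((K' + 1) / 2) * Real.sqrt ((X : ℝ) * Y)
      * ((30 : ℝ) ^ (ε / 4) * H ^ ε)) := by linarith
    _ = 4 * Real.exp ((K' + 1) / 2) * (30 : ℝ) ^ (ε / 4) * Real.sqrt ((X : ℝ) * Y) * H ^ ε := by
        ring

end Pool.Agent.FSQ
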