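import Pool.Agent.FSQ.Targets

set_option autoImplicit false

/-!
# FSQ, job CHS: an elementary bound for the character sum
-/

namespace Pool.Agent.FSQ

open Finset
open scoped BigOperators

namespace CHS_

lemma qf_evc {R : Type*} [CommRing R] (α β γ : R) (v : R × R) :
    qf (evc α β γ) v = α * v.1 ^ 4 + β * v.1 ^ 2 * v.2 ^ 2 + γ * v.2 ^ 4 := by
  have h0 : evc α β γ 0 = γ := rfl
  have h1 : evc α β γ 1 = 0 := rfl
  have h2 : evc α β γ 2 = β := rfl
  have h3 : evc α β γ 3 = 0 := rfl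
  have h4 : evc α β γ 4 = α := rfl
  unfold qf
  rw [h0, h1, h2, h3, h4]
  ring

lemma chi_pow_four (p : ℕ) [Fact p.Prime] (y : ZMod p) (hy : y ≠ 0) :
    quadraticChar (ZMod p) (y ^ 4) = 1 := by
  have h : y ^ 4 = (y ^ 2) ^ 2 := by ring
  rw [h]
  exact quadraticChar_sq_one' (pow_ne_zero 2 hy)

/-- the inner sum for `y ≠ 0` -/
lemma inner_ne (p : ℕ) [Fact p.Prime] (α β γ y : ZMod p) (hy : y ≠ 0) :
    ∑ x : ZMod p, quadraticChar (ZMod p) (qf (evc α β γ) (x, y)) =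
      ∑ t : ZMod p, quadraticChar (ZMod p) (α * t ^ 4 + β * t ^ 2 + γ) := by
  rw [← Equiv.sum_comp (Equiv.mulRight₀ y hy)]
  refine Finset.sum_congr rfl fun t _ => ?_
  have h : qf (evc α β γ) ((Equiv.mulRight₀ y hy) t, y) =
      y ^ 4 * (α * t ^ 4 + β * t ^ 2 + γ) := by
    rw [qf_evc]
    simp only [Equiv.mulRight₀_apply]
    ring
  rw [h, map_mul, chi_pow_four p y hy, one_mul]

/-- the inner sum for `y = 0` -/
lemma inner_zero (p : ℕ) [Fact p.Prime] (α β γ : ZMod p) :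
    ∑ x : ZMod p, quadraticChar (ZMod p) (qf (evc α β γ) (x, 0)) =
      ((p : ℤ) - 1) * quadraticChar (ZMod p) α := by
  have h : ∀ x : ZMod p, quadraticChar (ZMod p) (qf (evc α β γ) (x, 0)) =
      if x = 0 then 0 else quadraticChar (ZMod p) α := by
    intro x
    rw [qf_evc]
    by_cases hx : x = 0
    · subst hx
      rw [if_pos rfl]
      have : α * (0 : ZMod p) ^ 4 + β * (0 : ZMod p) ^ 2 * (0 : ZMod p) ^ 2 +
          γ * (0 : ZMod p) ^ 4 = 0 := by ring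
      simp only
      rw [this]
      exact MulChar.map_zero _
    · rw [if_neg hx]
      have : α * x ^ 4 + β * x ^ 2 * (0 : ZMod p) ^ 2 + γ * (0 : ZMod p) ^ 4 = α * x ^ 4 := by
        ring
      simp only
      rw [this, map_mul, chi_pow_four p x hx, mul_one]
  rw [Finset.sum_congr rfl fun x _ => h x, Finset.sum_ite, Finset.sum_const_zero, zero_add,
    Finset.sum_const, nsmul_eq_mul]
  have hc : (univ.filter fun x : ZMod p => ¬ x = 0).card = p - 1 := by
    have h1 : (univ.filter fun x : ZMod p => ¬ x = 0) = univ.erase 0 := by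
      ext x
      simp
    rw [h1, Finset.card_erase_of_mem (Finset.mem_univ _), Finset.card_univ, ZMod.card]
  rw [hc, Nat.cast_sub (Nat.Prime.one_le Fact.out), Nat.cast_one]

/-- splitting of the plane -/
lemma TT_eq (p : ℕ) [Fact p.Prime] (α β γ : ZMod p) :
    TT p (evc α β γ) = ((p : ℤ) - 1) *
      ((∑ t : ZMod p, quadraticChar (ZMod p) (α * t ^ 4 + β * t ^ 2 + γ)) +
        quadraticChar (ZMod p) α) := by
  unfold TT
  rw [Fintype.sum_prod_type_right]
  have h : ∀ y : ZMod p, ∑ x : ZMod p, quadraticChar (ZMod p) (qf (evc α β γ) (x, y)) =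
      if y = 0 then ((p : ℤ) - 1) * quadraticChar (ZMod p) α else
        ∑ t : ZMod p, quadraticChar (ZMod p) (α * t ^ 4 + β * t ^ 2 + γ) := by
    intro y
    by_cases hy : y = 0
    · subst hy
      rw [if_pos rfl]
      exact inner_zero p α β γ
    · rw [if_neg hy]
      exact inner_ne p α β γ y hy
  rw [Finset.sum_congr rfl fun y _ => h y, Finset.sum_ite, Finset.sum_const, Finset.sum_const,
    nsmul_eq_mul, nsmul_eq_mul]
  have hc : (univ.filter fun x : ZMod p => ¬ x = 0).card = p - 1 := by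
    have h1 : (univ.filter fun x : ZMod p => ¬ x = 0) = univ.erase 0 := by
      ext x
      simp
    rw [h1, Finset.card_erase_of_mem (Finset.mem_univ _), Finset.card_univ, ZMod.card]
  have hc' : (univ.filter fun x : ZMod p => x = 0).card = 1 := by
    rw [Finset.filter_eq' univ (0 : ZMod p), if_pos (Finset.mem_univ _), Finset.card_singleton]
  rw [hc, hc', Nat.cast_sub (Nat.Prime.one_le Fact.out), Nat.cast_one]
  ring

/-- the bound for the sum over the plane -/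
lemma TT_pow (hMOM : T_MOM) (hORB : T_ORB) (p : ℕ) [Fact p.Prime] (hp : 5 ≤ p)
    (α β γ : ZMod p) (hα : α ≠ 0) (hγ : γ ≠ 0) (hd : β ^ 2 ≠ 4 * α * γ) :
    (TT p (evc α β γ)) ^ 4 ≤ 576 * (p : ℤ) ^ 7 := by
  have h1 := hMOM p hp
  have h2 := hORB p hp α β γ hα hγ hd
  set T : ℤ := TT p (evc α β γ) with hT
  set S := univ.filter (fun c : Fin 5 → ZMod p => TT p c = T) with hS
  have h3 : (S.card : ℤ) * T ^ 4 ≤ ∑ c : Fin 5 → ZMod p, (TT p c) ^ 4 := by
    calc (S.card : ℤ) * T ^ 4 = ∑ c ∈ S, (TT p c) ^ 4 := by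
          rw [Finset.sum_congr rfl fun c hc => by rw [(Finset.mem_filter.1 hc).2],
            Finset.sum_const, nsmul_eq_mul]
      _ ≤ ∑ c : Fin 5 → ZMod p, (TT p c) ^ 4 :=
          Finset.sum_le_sum_of_subset_of_nonneg (Finset.filter_subset _ _)
            fun c _ _ => by positivity
  have h4 : (p : ℤ) ^ 4 ≤ 192 * (S.card : ℤ) := by exact_mod_cast h2
  have h5 : (0 : ℤ) ≤ T ^ 4 := by positivity
  have h6 : (p : ℤ) ^ 4 * T ^ 4 ≤ (p : ℤ) ^ 4 * (576 * (p : ℤ) ^ 7) := by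
    calc (p : ℤ) ^ 4 * T ^ 4 ≤ 192 * (S.card : ℤ) * T ^ 4 := mul_le_mul_of_nonneg_right h4 h5
      _ = 192 * ((S.card : ℤ) * T ^ 4) := by ring
      _ ≤ 192 * (3 * (p : ℤ) ^ 11) := mul_le_mul_of_nonneg_left (h3.trans h1) (by norm_num)
      _ = (p : ℤ) ^ 4 * (576 * (p : ℤ) ^ 7) := by ring
  have h7 : (0 : ℤ) < (p : ℤ) ^ 4 := by
    have : 0 < p := by omega
    positivity
  exact le_of_mul_le_mul_left h6 h7

end CHS_

/-- CHS. -/
theorem p_CHS (hMOM : T_MOM) (hORB : T_ORB) : T_CHS := by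
  intro p _ hp α β γ hα hγ hd
  have h1 := CHS_.TT_pow hMOM hORB p hp α β γ hα hγ hd
  have h2 := CHS_.TT_eq p α β γ
  set S : ℤ := ∑ t : ZMod p, quadraticChar (ZMod p) (α * t ^ 4 + β * t ^ 2 + γ) with hS
  set T : ℤ := TT p (evc α β γ) with hT
  have hpR : (5 : ℝ) ≤ (p : ℝ) := by exact_mod_cast hp
  have hp0 : (0 : ℝ) < (p : ℝ) := by linarith
  set x : ℝ := (p : ℝ) ^ ((3 : ℝ) / 4) with hx
  have hx0 : 0 < x := Real.rpow_pos_of_pos hp0 _
  have hx4 : x ^ 4 = (p : ℝ) ^ 3 := by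
    rw [hx, ← Real.rpow_natCast, ← Real.rpow_mul hp0.le, ← Real.rpow_natCast]
    norm_num
  have hx2 : 2 ≤ x := by
    by_contra hcon
    push Not at hcon
    have h3 : x ^ 4 < 2 ^ 4 := pow_lt_pow_left₀ hcon hx0.le (by norm_num)
    have h4 : (5 : ℝ) ^ 3 ≤ (p : ℝ) ^ 3 := pow_le_pow_left₀ (by norm_num) hpR 3
    rw [hx4] at h3
    norm_num at h3 h4
    linarith
  have hT4 : (T : ℝ) ^ 4 ≤ (4.9 * p * x) ^ 4 := by
    have h3 : (T : ℝ) ^ 4 ≤ 576 * (p : ℝ) ^ 7 := by exact_mod_cast h1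
    refine h3.trans ?_
    have h4 : (4.9 * (p : ℝ) * x) ^ 4 = 4.9 ^ 4 * (p : ℝ) ^ 7 := by
      rw [mul_pow, mul_pow, hx4]
      ring
    rw [h4]
    exact mul_le_mul_of_nonneg_right (by norm_num) (by positivity)
  have hTa : |(T : ℝ)| ≤ 4.9 * p * x := by
    have h3 : |(T : ℝ)| ^ 4 ≤ (4.9 * p * x) ^ 4 := by
      rw [(by decide : Even 4).pow_abs]
      exact hT4
    exact le_of_pow_le_pow_left₀ (by norm_num) (by positivity) h3
  have hTS : (T : ℝ) = ((p : ℝ) - 1) * ((S : ℝ) + ((quadraticChar (ZMod p) α : ℤ) : ℝ)) := by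
    have := congrArg (fun z : ℤ => (z : ℝ)) h2
    simp only [Int.cast_mul, Int.cast_add, Int.cast_sub, Int.cast_natCast, Int.cast_one] at this
    exact this
  have hchi : |((quadraticChar (ZMod p) α : ℤ) : ℝ)| ≤ 1 := by
    rcases quadraticChar_dichotomy hα with h | h <;> rw [h] <;> norm_num
  have hS1 : |(S : ℝ) + ((quadraticChar (ZMod p) α : ℤ) : ℝ)| ≤ 6.125 * x := by
    have h3 : ((p : ℝ) - 1) * |(S : ℝ) + ((quadraticChar (ZMod p) α : ℤ) : ℝ)| ≤ 4.9 * p * x := by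
      rw [hTS, abs_mul, abs_of_pos (by linarith : (0 : ℝ) < (p : ℝ) - 1)] at hTa
      exact hTa
    have h4 : 4.9 * (p : ℝ) * x ≤ ((p : ℝ) - 1) * (6.125 * x) := by nlinarith
    exact le_of_mul_le_mul_left (h3.trans h4) (by linarith)
  have h5 : |(S : ℝ)| ≤ |(S : ℝ) + ((quadraticChar (ZMod p) α : ℤ) : ℝ)| +
      |((quadraticChar (ZMod p) α : ℤ) : ℝ)| := by
    have h6 := abs_sub ((S : ℝ) + ((quadraticChar (ZMod p) α : ℤ) : ℝ))
      ((quadraticChar (ZMod p) α : ℤ) : ℝ)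
    rwa [add_sub_cancel_right] at h6
  linarith

end Pool.Agent.FSQ
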