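import Pool.Agent.FSQ.Targets

set_option autoImplicit false

namespace Pool.Agent.FSQ

open Finset
open scoped BigOperators

namespace CNT_

theorem prd_upd (t : Fin 4 → ℕ × ℕ) (i : Fin 4) :
    prd t = (t i).1 * (t i).2 * prd (Function.update t i (1, 1)) := by
  fin_cases i <;> simp [prd, Fin.prod_univ_four, Function.update] <;> ring

theorem prd_pos (t : Fin 4 → ℕ × ℕ) (h : ∀ j, 0 < (t j).1 ∧ 0 < (t j).2) : 0 < prd t := by
  unfold prd
  exact Finset.prod_pos (fun j _ => Nat.mul_pos (h j).1 (h j).2)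

theorem upd_pos (t : Fin 4 → ℕ × ℕ) (i : Fin 4) (h : ∀ j, 0 < (t j).1 ∧ 0 < (t j).2) :
    ∀ j, 0 < (Function.update t i (1, 1) j).1 ∧ 0 < (Function.update t i (1, 1) j).2 := by
  intro j
  by_cases hj : j = i
  · subst hj; simp
  · rw [Function.update_of_ne hj]; exact h j

theorem R_cube (t : Fin 4 → ℕ × ℕ) (i : Fin 4)
    (h : ∀ j, (t j).1 * (t j).2 ≤ (t i).1 * (t i).2) :
    prd (Function.update t i (1, 1)) ≤ ((t i).1 * (t i).2) ^ 3 := by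
  have h0 := h 0
  have h1 := h 1
  have h2 := h 2
  have h3 := h 3
  have key : ∀ a b c m : ℕ, a ≤ m → b ≤ m → c ≤ m → a * b * c ≤ m ^ 3 := by
    intro a b c m ha hb hc
    calc a * b * c ≤ m * m * m := Nat.mul_le_mul (Nat.mul_le_mul ha hb) hc
      _ = m ^ 3 := by ring
  fin_cases i
  · have := key _ _ _ _ h1 h2 h3
    simpa [prd, Fin.prod_univ_four, Function.update] using this
  · have := key _ _ _ _ h0 h2 h3
    simpa [prd, Fin.prod_univ_four, Function.update] using this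
  · have := key _ _ _ _ h0 h1 h3
    simpa [prd, Fin.prod_univ_four, Function.update] using this
  · have := key _ _ _ _ h0 h1 h2
    simpa [prd, Fin.prod_univ_four, Function.update] using this

theorem R_four (t : Fin 4 → ℕ × ℕ) (i : Fin 4) (N : ℕ)
    (h : ∀ j, (t j).1 * (t j).2 ≤ (t i).1 * (t i).2) (hN : prd t ≤ N) :
    prd (Function.update t i (1, 1)) ^ 4 ≤ N ^ 3 := by
  set R := prd (Function.update t i (1, 1)) with hR
  have h1 : R ≤ ((t i).1 * (t i).2) ^ 3 := R_cube t i h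
  have h2 : prd t = (t i).1 * (t i).2 * R := prd_upd t i
  calc R ^ 4 = R * R ^ 3 := by ring
    _ ≤ ((t i).1 * (t i).2) ^ 3 * R ^ 3 := Nat.mul_le_mul_right _ h1
    _ = ((t i).1 * (t i).2 * R) ^ 3 := by ring
    _ ≤ N ^ 3 := by rw [← h2]; exact Nat.pow_le_pow_left hN 3

theorem R_le (t : Fin 4 → ℕ × ℕ) (i : Fin 4) (N : ℕ)
    (h : ∀ j, (t j).1 * (t j).2 ≤ (t i).1 * (t i).2) (hN : prd t ≤ N) :
    (prd (Function.update t i (1, 1)) : ℝ) ≤ (N : ℝ) ^ ((3 : ℝ) / 4) := by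
  have h4 := R_four t i N h hN
  set R := prd (Function.update t i (1, 1)) with hR
  have h5 : ((R : ℝ)) ^ (4 : ℕ) ≤ (N : ℝ) ^ (3 : ℕ) := by exact_mod_cast h4
  have hR0 : (0 : ℝ) ≤ R := Nat.cast_nonneg _
  have hN0 : (0 : ℝ) ≤ N := Nat.cast_nonneg _
  have h6 : ((N : ℝ) ^ ((3 : ℝ) / 4)) ^ (4 : ℕ) = (N : ℝ) ^ (3 : ℕ) := by
    rw [← Real.rpow_natCast, ← Real.rpow_mul hN0, ← Real.rpow_natCast]
    norm_num
  have h7 : (R : ℝ) ^ (4 : ℕ) ≤ ((N : ℝ) ^ ((3 : ℝ) / 4)) ^ (4 : ℕ) := by rw [h6]; exact h5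
  exact le_of_pow_le_pow_left₀ (by norm_num) (Real.rpow_nonneg hN0 _) h7

theorem R_le' (t : Fin 4 → ℕ × ℕ) (i : Fin 4) (N e : ℕ) (he : 1 ≤ e)
    (h : ∀ j, (t j).1 * (t j).2 ≤ (t i).1 * (t i).2) (hN : prd t ≤ N)
    (he' : e ≤ (t 0).1 * (t 0).2) :
    (prd (Function.update t i (1, 1)) : ℝ) ≤ (N : ℝ) / e := by
  have h2 : prd t = (t i).1 * (t i).2 * prd (Function.update t i (1, 1)) := prd_upd t i
  have h3 : e * prd (Function.update t i (1, 1)) ≤ N := by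
    calc e * prd (Function.update t i (1, 1))
        ≤ (t i).1 * (t i).2 * prd (Function.update t i (1, 1)) :=
          Nat.mul_le_mul_right _ (le_trans he' (h 0))
      _ = prd t := h2.symm
      _ ≤ N := hN
  have he0 : (0 : ℝ) < e := by exact_mod_cast he
  rw [le_div_iff₀ he0]
  have : ((e * prd (Function.update t i (1, 1)) : ℕ) : ℝ) ≤ N := by exact_mod_cast h3
  push_cast at this
  linarith

theorem log_bound (δ : ℝ) (hδ : 0 < δ) (N : ℕ) (hN : 1 ≤ N) :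
    1 + Real.log N ≤ (1 + 1 / δ) * (N : ℝ) ^ δ := by
  have h1 : (1 : ℝ) ≤ N := by exact_mod_cast hN
  have h2 : Real.log N ≤ (N : ℝ) ^ δ / δ := Real.log_le_rpow_div (by linarith) hδ
  have h3 : (1 : ℝ) ≤ (N : ℝ) ^ δ := Real.one_le_rpow h1 hδ.le
  calc 1 + Real.log N ≤ (N : ℝ) ^ δ + (N : ℝ) ^ δ / δ := add_le_add h3 h2
    _ = (1 + 1 / δ) * (N : ℝ) ^ δ := by ring

theorem eq_of_upd (t u : Fin 4 → ℕ × ℕ) (i : Fin 4) (c : ℕ × ℕ)
    (h : Function.update t i c = Function.update u i c) (hi : t i = u i) : t = u := by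
  funext j
  by_cases hj : j = i
  · rw [hj]; exact hi
  · have := congrFun h j
    rwa [Function.update_of_ne hj, Function.update_of_ne hj] at this

theorem fibre (hHYP : T_HYP) (hQRT : T_QRT) (ε : ℝ) (hε : 0 < ε) : ∃ C : ℝ, 0 < C ∧
    ∀ (i : Fin 4) (N : ℕ) (F : Finset (Fin 4 → ℕ × ℕ)) (t₀ : Fin 4 → ℕ × ℕ), 1 ≤ N →
      (∀ t ∈ F, Adm t ∧ prd t ≤ N ∧
        Function.update t i (1, 1) = Function.update t₀ i (1, 1)) → t₀ ∈ F →
      (F.card : ℝ) ≤ C * (1 + Real.log N) * (8 * (N : ℝ) ^ 8) ^ ε *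
        Real.sqrt ((N : ℝ) / prd (Function.update t₀ i (1, 1))) := by
  obtain ⟨C, hC, hCC⟩ := hHYP ε hε
  refine ⟨C, hC, ?_⟩
  intro i N F t₀ hN hF ht₀
  obtain ⟨α, β, γ, hq⟩ := hQRT i
  have h1 : (1 : ℝ) ≤ N := by exact_mod_cast hN
  obtain ⟨hA0, hp0, -⟩ := hF t₀ ht₀
  obtain ⟨hgood, ha, hb, hc, -⟩ := hq t₀ hA0
  have hpos0 : ∀ j, 0 < (t₀ j).1 ∧ 0 < (t₀ j).2 := fun j => ⟨(hA0.1 j).1, (hA0.1 j).2.1⟩
  have hR : 0 < prd (Function.update t₀ i (1, 1)) := prd_pos _ (upd_pos _ _ hpos0)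
  have hRr : (0 : ℝ) < prd (Function.update t₀ i (1, 1)) := by exact_mod_cast hR
  have hRN : prd (Function.update t₀ i (1, 1)) ≤ N := by
    refine le_trans ?_ hp0
    rw [prd_upd t₀ i]
    exact Nat.le_mul_of_pos_left _ (Nat.mul_pos (hpos0 i).1 (hpos0 i).2)
  set Z : ℝ := (N : ℝ) / prd (Function.update t₀ i (1, 1)) with hZ
  have hZ1 : 1 ≤ Z := by
    rw [hZ, le_div_iff₀ hRr, one_mul]; exact_mod_cast hRN
  have hZN : Z ≤ N := by
    rw [hZ]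
    apply div_le_self (by linarith)
    exact_mod_cast hR
  have hH : (1 : ℝ) ≤ 8 * (N : ℝ) ^ 8 := by
    have : (1 : ℝ) ≤ (N : ℝ) ^ 8 := one_le_pow₀ h1
    linarith
  have hpN : (prd t₀ : ℝ) ^ 8 ≤ (N : ℝ) ^ 8 := by
    apply pow_le_pow_left₀ (Nat.cast_nonneg _)
    exact_mod_cast hp0
  have hcoef : ∀ x : ℤ, |x| ≤ 8 * (prd t₀ : ℤ) ^ 8 → |(x : ℝ)| ≤ 8 * (N : ℝ) ^ 8 := by
    intro x hx
    have : |(x : ℝ)| ≤ 8 * (prd t₀ : ℝ) ^ 8 := by
      have h := (Int.cast_le (R := ℝ)).2 hx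
      push_cast at h
      exact h
    linarith
  have hinj : Set.InjOn (fun t : Fin 4 → ℕ × ℕ => t i) (F : Set (Fin 4 → ℕ × ℕ)) := by
    intro t ht u hu htu
    exact eq_of_upd t u i (1, 1) (((hF t ht).2.2).trans ((hF u hu).2.2).symm) htu
  have hcard : (F.image (fun t : Fin 4 → ℕ × ℕ => t i)).card = F.card :=
    Finset.card_image_of_injOn hinj
  have hmain := hCC (8 * (N : ℝ) ^ 8) Z _ _ _ (F.image (fun t : Fin 4 → ℕ × ℕ => t i)) hH hZ1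
    hgood (hcoef _ ha) (hcoef _ hb) (hcoef _ hc) (by
      intro s hs
      obtain ⟨t, ht, rfl⟩ := Finset.mem_image.1 hs
      obtain ⟨hA, hp, hu⟩ := hF t ht
      obtain ⟨-, -, -, -, hF8⟩ := hq t hA
      refine ⟨(hA.1 i).1, (hA.1 i).2.1, ?_, (hA.1 i).2.2, ?_⟩
      · rw [hZ, le_div_iff₀ hRr, ← hu]
        have := prd_upd t i
        have h3 : (((t i).1 * (t i).2 * prd (Function.update t i (1, 1)) : ℕ) : ℝ) ≤ N := by
          rw [← this]; exact_mod_cast hp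
        push_cast at h3
        exact h3
      · have hsq := hA.2.2.2
        rw [hF8, hu] at hsq
        exact hsq)
  rw [hcard] at hmain
  have hlog : 1 + Real.log Z ≤ 1 + Real.log N := by
    have := Real.log_le_log (by linarith) hZN
    linarith
  have hlog0 : 0 ≤ 1 + Real.log Z := by
    have := Real.log_nonneg hZ1
    linarith
  calc (F.card : ℝ) ≤ C * Real.sqrt Z * (1 + Real.log Z) * (8 * (N : ℝ) ^ 8) ^ ε := hmain
    _ ≤ C * Real.sqrt Z * (1 + Real.log N) * (8 * (N : ℝ) ^ 8) ^ ε := by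
        apply mul_le_mul_of_nonneg_right _ (Real.rpow_nonneg (by linarith) _)
        exact mul_le_mul_of_nonneg_left hlog (mul_nonneg hC.le (Real.sqrt_nonneg _))
    _ = C * (1 + Real.log N) * (8 * (N : ℝ) ^ 8) ^ ε * Real.sqrt Z := by ring

theorem part (hHYP : T_HYP) (hQRT : T_QRT) (hSUM : T_SUM) (ε : ℝ) (hε : 0 < ε) :
    ∃ C : ℝ, 0 < C ∧ ∀ (i : Fin 4) (N : ℕ) (R₀ : ℝ) (A : Finset (Fin 4 → ℕ × ℕ)), 1 ≤ N →
      0 < R₀ → (∀ t ∈ A, Adm t ∧ prd t ≤ N ∧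
        (prd (Function.update t i (1, 1)) : ℝ) ≤ R₀) →
      (A.card : ℝ) ≤ C * (N : ℝ) ^ ε * Real.sqrt ((N : ℝ) * R₀) := by
  obtain ⟨C1, hC1, hf⟩ := fibre hHYP hQRT (ε / 16) (by positivity)
  refine ⟨C1 * (8 : ℝ) ^ (ε / 16) * (1 + 1 / (ε / 18)) ^ 9, by positivity, ?_⟩
  intro i N R₀ A hN hR₀ hA
  have h1 : (1 : ℝ) ≤ N := by exact_mod_cast hN
  have hN0 : (0 : ℝ) < N := by linarith
  have hl0 : 0 ≤ 1 + Real.log N := by
    have := Real.log_nonneg h1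
    linarith
  set K : ℝ := C1 * (1 + Real.log N) * (8 * (N : ℝ) ^ 8) ^ (ε / 16) with hK
  have hK0 : 0 ≤ K := by
    rw [hK]
    exact mul_nonneg (mul_nonneg hC1.le hl0) (Real.rpow_nonneg (by positivity) _)
  have hs := hSUM A i N R₀ K h1 hR₀ hK0 (by
    intro t ht
    obtain ⟨ha, hp, hr⟩ := hA t ht
    exact ⟨fun j => ⟨(ha.1 j).1, (ha.1 j).2.1⟩, by exact_mod_cast hp, hr⟩) (by
    intro t₀ ht₀
    apply hf i N _ t₀ hN
    · intro t ht
      rw [Finset.mem_filter] at ht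
      exact ⟨(hA t ht.1).1, (hA t ht.1).2.1, ht.2⟩
    · rw [Finset.mem_filter]; exact ⟨ht₀, rfl⟩)
  have hH : (8 * (N : ℝ) ^ 8) ^ (ε / 16) = (8 : ℝ) ^ (ε / 16) * (N : ℝ) ^ (ε / 2) := by
    rw [Real.mul_rpow (by norm_num) (by positivity)]
    congr 1
    rw [← Real.rpow_natCast, ← Real.rpow_mul hN0.le]
    congr 1
    push_cast
    ring
  have hlog9 : (1 + Real.log N) ^ 9 ≤ (1 + 1 / (ε / 18)) ^ 9 * (N : ℝ) ^ (ε / 2) := by
    have h := log_bound (ε / 18) (by positivity) N hN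
    calc (1 + Real.log N) ^ 9 ≤ ((1 + 1 / (ε / 18)) * (N : ℝ) ^ (ε / 18)) ^ 9 :=
          pow_le_pow_left₀ hl0 h 9
      _ = (1 + 1 / (ε / 18)) ^ 9 * ((N : ℝ) ^ (ε / 18)) ^ 9 := by rw [mul_pow]
      _ = (1 + 1 / (ε / 18)) ^ 9 * (N : ℝ) ^ (ε / 2) := by
          congr 1
          rw [← Real.rpow_natCast, ← Real.rpow_mul hN0.le]
          congr 1
          push_cast
          ring
  have hNe : (N : ℝ) ^ (ε / 2) * (N : ℝ) ^ (ε / 2) = (N : ℝ) ^ ε := by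
    rw [← Real.rpow_add hN0]; congr 1; ring
  have hq0 : 0 ≤ Real.sqrt ((N : ℝ) * R₀) := Real.sqrt_nonneg _
  have h8 : (0 : ℝ) ≤ (8 : ℝ) ^ (ε / 16) := Real.rpow_nonneg (by norm_num) _
  have hNp : (0 : ℝ) ≤ (N : ℝ) ^ (ε / 2) := Real.rpow_nonneg hN0.le _
  calc (A.card : ℝ) ≤ K * Real.sqrt ((N : ℝ) * R₀) * (1 + Real.log N) ^ 8 := hs
    _ = C1 * ((8 : ℝ) ^ (ε / 16) * (N : ℝ) ^ (ε / 2)) * Real.sqrt ((N : ℝ) * R₀) *
        (1 + Real.log N) ^ 9 := by rw [hK, hH]; ring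
    _ ≤ C1 * ((8 : ℝ) ^ (ε / 16) * (N : ℝ) ^ (ε / 2)) * Real.sqrt ((N : ℝ) * R₀) *
        ((1 + 1 / (ε / 18)) ^ 9 * (N : ℝ) ^ (ε / 2)) :=
        mul_le_mul_of_nonneg_left hlog9
          (mul_nonneg (mul_nonneg hC1.le (mul_nonneg h8 hNp)) hq0)
    _ = C1 * (8 : ℝ) ^ (ε / 16) * (1 + 1 / (ε / 18)) ^ 9 *
        ((N : ℝ) ^ (ε / 2) * (N : ℝ) ^ (ε / 2)) * Real.sqrt ((N : ℝ) * R₀) := by ring
    _ = C1 * (8 : ℝ) ^ (ε / 16) * (1 + 1 / (ε / 18)) ^ 9 * (N : ℝ) ^ ε *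
        Real.sqrt ((N : ℝ) * R₀) := by rw [hNe]

theorem entry_le (t : Fin 4 → ℕ × ℕ) (h : ∀ j, 0 < (t j).1 ∧ 0 < (t j).2) (j : Fin 4) :
    (t j).1 ≤ prd t ∧ (t j).2 ≤ prd t := by
  have hd : (t j).1 * (t j).2 ∣ prd t := by
    unfold prd
    exact Finset.dvd_prod_of_mem (fun j => (t j).1 * (t j).2) (Finset.mem_univ j)
  have hp := prd_pos t h
  have hle := Nat.le_of_dvd hp hd
  exact ⟨le_trans (Nat.le_mul_of_pos_right _ (h j).2) hle,
    le_trans (Nat.le_mul_of_pos_left _ (h j).1) hle⟩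

theorem fin (N e : ℕ) : (parSet N e).Finite := by
  apply Set.Finite.subset (s := Set.pi Set.univ
    (fun _ : Fin 4 => ((Finset.range (N + 1) ×ˢ Finset.range (N + 1) : Finset (ℕ × ℕ)) :
      Set (ℕ × ℕ))))
  · exact Set.Finite.pi (fun _ => Finset.finite_toSet _)
  · intro t ht
    rw [Set.mem_univ_pi]
    intro j
    obtain ⟨ha, hp, -⟩ := ht
    have h := entry_le t (fun j => ⟨(ha.1 j).1, (ha.1 j).2.1⟩) j
    rw [Finset.mem_coe, Finset.mem_product, Finset.mem_range, Finset.mem_range]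
    exact ⟨by omega, by omega⟩

end CNT_

open CNT_

theorem p_CNT (hHYP : T_HYP) (hQRT : T_QRT) (hSUM : T_SUM) : T_CNT := by
  classical
  intro ε hε
  obtain ⟨C, hC, hpart⟩ := part hHYP hQRT hSUM ε hε
  refine ⟨4 * C, by positivity, ?_⟩
  intro N e hN he
  refine ⟨fin N e, ?_⟩
  have h1 : (1 : ℝ) ≤ N := by exact_mod_cast hN
  have hN0 : (0 : ℝ) < N := by linarith
  have he0 : (0 : ℝ) < e := by exact_mod_cast he
  rw [Set.ncard_eq_toFinset_card _ (fin N e)]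
  set S := (fin N e).toFinset with hS
  have hmem : ∀ t, t ∈ S ↔ t ∈ parSet N e := fun t => by rw [hS, Set.Finite.mem_toFinset]
  let A : Fin 4 → Finset (Fin 4 → ℕ × ℕ) := fun i =>
    S.filter (fun t => ∀ j, (t j).1 * (t j).2 ≤ (t i).1 * (t i).2)
  have hcov : S ⊆ Finset.univ.biUnion A := by
    intro t ht
    obtain ⟨i, -, hi⟩ := Finset.exists_max_image (Finset.univ : Finset (Fin 4))
      (fun j => (t j).1 * (t j).2) ⟨0, Finset.mem_univ _⟩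
    rw [Finset.mem_biUnion]
    exact ⟨i, Finset.mem_univ _, Finset.mem_filter.2 ⟨ht, fun j => hi j (Finset.mem_univ _)⟩⟩
  have hA : ∀ i, ((A i).card : ℝ) ≤ C * (N : ℝ) ^ ε *
      min ((N : ℝ) ^ ((7 : ℝ) / 8)) ((N : ℝ) / Real.sqrt e) := by
    intro i
    have hCN : 0 ≤ C * (N : ℝ) ^ ε := mul_nonneg hC.le (Real.rpow_nonneg hN0.le _)
    have ha := hpart i N ((N : ℝ) ^ ((3 : ℝ) / 4)) (A i) hN (Real.rpow_pos_of_pos hN0 _) (by
      intro t ht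
      obtain ⟨hts, hmax⟩ := Finset.mem_filter.1 ht
      obtain ⟨had, hp, -⟩ := (hmem t).1 hts
      exact ⟨had, hp, R_le t i N hmax hp⟩)
    have hb := hpart i N ((N : ℝ) / e) (A i) hN (div_pos hN0 he0) (by
      intro t ht
      obtain ⟨hts, hmax⟩ := Finset.mem_filter.1 ht
      obtain ⟨had, hp, hee⟩ := (hmem t).1 hts
      exact ⟨had, hp, R_le' t i N e he hmax hp hee⟩)
    have e1 : Real.sqrt ((N : ℝ) * (N : ℝ) ^ ((3 : ℝ) / 4)) = (N : ℝ) ^ ((7 : ℝ) / 8) := by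
      have : (N : ℝ) * (N : ℝ) ^ ((3 : ℝ) / 4) = (N : ℝ) ^ ((7 : ℝ) / 4) := by
        nth_rewrite 1 [← Real.rpow_one (N : ℝ)]
        rw [← Real.rpow_add hN0]; norm_num
      rw [this, Real.sqrt_eq_rpow, ← Real.rpow_mul hN0.le]
      norm_num
    have e2 : Real.sqrt ((N : ℝ) * ((N : ℝ) / e)) = (N : ℝ) / Real.sqrt e := by
      have : (N : ℝ) * ((N : ℝ) / e) = (N : ℝ) ^ 2 / e := by ring
      rw [this, Real.sqrt_div (by positivity), Real.sqrt_sq hN0.le]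
    rw [e1] at ha
    rw [e2] at hb
    rcases le_total ((N : ℝ) ^ ((7 : ℝ) / 8)) ((N : ℝ) / Real.sqrt e) with h | h
    · rw [min_eq_left h]; exact ha
    · rw [min_eq_right h]; exact hb
  have hcard : S.card ≤ ∑ i, (A i).card :=
    le_trans (Finset.card_le_card hcov) Finset.card_biUnion_le
  calc (S.card : ℝ) ≤ ((∑ i, (A i).card : ℕ) : ℝ) := by exact_mod_cast hcard
    _ = ∑ i, ((A i).card : ℝ) := by push_cast; rfl
    _ ≤ ∑ _i : Fin 4, C * (N : ℝ) ^ ε *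
        min ((N : ℝ) ^ ((7 : ℝ) / 8)) ((N : ℝ) / Real.sqrt e) :=
        Finset.sum_le_sum (fun i _ => hA i)
    _ = 4 * C * (N : ℝ) ^ ε * min ((N : ℝ) ^ ((7 : ℝ) / 8)) ((N : ℝ) / Real.sqrt e) := by
        rw [Finset.sum_const, Finset.card_univ, Fintype.card_fin]
        simp only [nsmul_eq_mul]
        push_cast
        ring

end Pool.Agent.FSQ
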