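import Pool.Agent.FSQ.Targets
import Pool.Agent.SSM.TAU

set_option autoImplicit false

namespace Pool.Agent.FSQ

theorem dvs_sub (a : ℕ) (ha : 1 ≤ a) :
    ∃ f : ℕ → ℕ, Set.InjOn f {d : ℕ | 0 < d ∧ IsSquare (a ^ 2 + d ^ 2)} ∧
      Set.MapsTo f {d : ℕ | 0 < d ∧ IsSquare (a ^ 2 + d ^ 2)} ((a ^ 2).divisors : Set ℕ) := by
  classical
  refine ⟨fun d => Nat.sqrt (a ^ 2 + d ^ 2) - d, ?_, ?_⟩
  · rintro d ⟨_, y, hy⟩ d' ⟨_, y', hy'⟩ h
    have h1 : Nat.sqrt (a ^ 2 + d ^ 2) = y := by rw [hy]; exact Nat.sqrt_eq y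
    have h2 : Nat.sqrt (a ^ 2 + d' ^ 2) = y' := by rw [hy']; exact Nat.sqrt_eq y'
    simp only [h1, h2] at h
    have hd : d < y := by nlinarith
    have hd' : d' < y' := by nlinarith
    obtain ⟨u, hu⟩ : ∃ u, y = d + u := ⟨y - d, by omega⟩
    obtain ⟨u', hu'⟩ : ∃ u', y' = d' + u' := ⟨y' - d', by omega⟩
    have huu : u = u' := by omega
    subst huu
    have hu0 : 0 < u := by omega
    subst hu hu'
    have h3 : u * d = u * d' := by nlinarith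
    exact Nat.eq_of_mul_eq_mul_left hu0 h3
  · rintro d ⟨_, y, hy⟩
    have h1 : Nat.sqrt (a ^ 2 + d ^ 2) = y := by rw [hy]; exact Nat.sqrt_eq y
    simp only [h1]
    have hd : d < y := by nlinarith
    obtain ⟨u, hu⟩ : ∃ u, y = d + u := ⟨y - d, by omega⟩
    rw [Finset.mem_coe, Nat.mem_divisors]
    refine ⟨?_, by positivity⟩
    have : y - d = u := by omega
    rw [this]
    exact ⟨u + 2 * d, by subst hu; nlinarith⟩

theorem p_DVS : T_DVS := by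
  intro ε hε
  obtain ⟨C, hC, h⟩ := SSM.p_TAU (ε / 2) (by positivity)
  refine ⟨C, hC, fun a ha => ?_⟩
  obtain ⟨f, hf, hm⟩ := dvs_sub a ha
  have hfin : {d : ℕ | 0 < d ∧ IsSquare (a ^ 2 + d ^ 2)}.Finite :=
    Set.Finite.of_injOn hm hf (Finset.finite_toSet _)
  refine ⟨hfin, ?_⟩
  have h1 : {d : ℕ | 0 < d ∧ IsSquare (a ^ 2 + d ^ 2)}.ncard ≤ (a ^ 2).divisors.card := by
    rw [← Set.ncard_coe_finset]
    exact Set.ncard_le_ncard_of_injOn f hm hf (Finset.finite_toSet _)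
  have h2 := h (a ^ 2) (Nat.one_le_pow _ _ ha)
  have h3 : (((a ^ 2 : ℕ) : ℝ)) ^ (ε / 2) = (a : ℝ) ^ ε := by
    rw [Nat.cast_pow, ← Real.rpow_natCast, ← Real.rpow_mul (Nat.cast_nonneg a)]
    congr 1
    push_cast
    ring
  rw [h3] at h2
  refine le_trans ?_ h2
  exact_mod_cast h1

end Pool.Agent.FSQ
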