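import Mathlib

set_option autoImplicit false

/-!
# FSQ: definitions for the counting theorem of MP_a81a37_nt
-/

namespace Pool.Agent.FSQ

open Finset
open scoped BigOperators

/-! ### the arithmetic objects -/

/-- three positive integers, the sum of the squares of any two of them is a square -/
def Tri (a b c : ℕ) : Prop :=
  0 < a ∧ 0 < b ∧ 0 < c ∧ IsSquare (a ^ 2 + b ^ 2) ∧ IsSquare (a ^ 2 + c ^ 2) ∧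
    IsSquare (b ^ 2 + c ^ 2)

/-- four positive integers, the sum of the squares of any two of them is a square -/
def Quad (a b c d : ℕ) : Prop :=
  0 < a ∧ 0 < b ∧ 0 < c ∧ 0 < d ∧
    IsSquare (a ^ 2 + b ^ 2) ∧ IsSquare (a ^ 2 + c ^ 2) ∧ IsSquare (a ^ 2 + d ^ 2) ∧
    IsSquare (b ^ 2 + c ^ 2) ∧ IsSquare (b ^ 2 + d ^ 2) ∧ IsSquare (c ^ 2 + d ^ 2)

/-- primitive triples with entries `≤ N` -/
def triSet (N : ℕ) : Set (ℕ × ℕ × ℕ) :=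
  {t | Tri t.1 t.2.1 t.2.2 ∧ Nat.gcd (Nat.gcd t.1 t.2.1) t.2.2 = 1 ∧
    t.1 ≤ N ∧ t.2.1 ≤ N ∧ t.2.2 ≤ N}

/-- primitive quadruples with entries `≤ N` -/
def quadSet (N : ℕ) : Set (ℕ × ℕ × ℕ × ℕ) :=
  {t | Quad t.1 t.2.1 t.2.2.1 t.2.2.2 ∧
    Nat.gcd (Nat.gcd (Nat.gcd t.1 t.2.1) t.2.2.1) t.2.2.2 = 1 ∧
    t.1 ≤ N ∧ t.2.1 ≤ N ∧ t.2.2.1 ≤ N ∧ t.2.2.2 ≤ N}

/-- all quadruples with entries `≤ N` -/
def quadAll (N : ℕ) : Set (ℕ × ℕ × ℕ × ℕ) :=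
  {t | Quad t.1 t.2.1 t.2.2.1 t.2.2.2 ∧ t.1 ≤ N ∧ t.2.1 ≤ N ∧ t.2.2.1 ≤ N ∧ t.2.2.2 ≤ N}

/-! ### binary quartic forms over `F_p` -/

/-- the binary quartic form with coefficients `c` at `v = (x, y)` -/
def qf {R : Type*} [CommRing R] (c : Fin 5 → R) (v : R × R) : R :=
  c 0 * v.2 ^ 4 + c 1 * v.1 * v.2 ^ 3 + c 2 * v.1 ^ 2 * v.2 ^ 2 + c 3 * v.1 ^ 3 * v.2 +
    c 4 * v.1 ^ 4

/-- the coefficients of `α x^4 + β x^2 y^2 + γ y^4` -/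
def evc {R : Type*} [CommRing R] (α β γ : R) : Fin 5 → R := ![γ, 0, β, 0, α]

/-- the character sum over the plane -/
noncomputable def TT (p : ℕ) [Fact p.Prime] (c : Fin 5 → ZMod p) : ℤ :=
  ∑ v : ZMod p × ZMod p, quadraticChar (ZMod p) (qf c v)

/-- linear substitution `(x, y) ↦ (a x + b y, c x + d y)`, `g = (a, b, c, d)` -/
def act {R : Type*} [CommRing R] (g : R × R × R × R) (v : R × R) : R × R :=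
  (g.1 * v.1 + g.2.1 * v.2, g.2.2.1 * v.1 + g.2.2.2 * v.2)

/-- determinant -/
def gdet {R : Type*} [CommRing R] (g : R × R × R × R) : R := g.1 * g.2.2.2 - g.2.1 * g.2.2.1

/-! ### integral quartics -/

/-- the integral quartic `α x^4 + β x^2 y^2 + γ y^4` -/
def Qz (α β γ : ℤ) (x y : ℕ) : ℤ := α * (x : ℤ) ^ 4 + β * (x : ℤ) ^ 2 * (y : ℤ) ^ 2 +
  γ * (y : ℤ) ^ 4

/-- nondegenerate -/
def Good (α β γ : ℤ) : Prop := α ≠ 0 ∧ γ ≠ 0 ∧ β ^ 2 ≠ 4 * α * γ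

/-! ### the eight parameters: `t 0 = (g₁, g₂)`, `t 1 = (h₁, h₂)`, `t 2 = (p, s)`, `t 3 = (q, r)` -/

/-- `A₁ = h₁ g₁ p²` -/
def A1 (t : Fin 4 → ℕ × ℕ) : ℕ := (t 1).1 * (t 0).1 * (t 2).1 ^ 2
/-- `A₂ = h₂ g₂ s²` -/
def A2 (t : Fin 4 → ℕ × ℕ) : ℕ := (t 1).2 * (t 0).2 * (t 2).2 ^ 2
/-- `B₁ = h₁ g₂ q²` -/
def B1 (t : Fin 4 → ℕ × ℕ) : ℕ := (t 1).1 * (t 0).2 * (t 3).1 ^ 2
/-- `B₂ = g₁ h₂ r²` -/
def B2 (t : Fin 4 → ℕ × ℕ) : ℕ := (t 0).1 * (t 1).2 * (t 3).2 ^ 2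

/-- the product of all eight parameters -/
def prd (t : Fin 4 → ℕ × ℕ) : ℕ := ∏ j, (t j).1 * (t j).2

/-- `(A₁² + A₂²)(B₁² + B₂²) - 4 A₁ A₂ B₁ B₂` -/
def F8 (t : Fin 4 → ℕ × ℕ) : ℤ :=
  ((A1 t : ℤ) ^ 2 + (A2 t : ℤ) ^ 2) * ((B1 t : ℤ) ^ 2 + (B2 t : ℤ) ^ 2) -
    4 * A1 t * A2 t * B1 t * B2 t

/-- the conditions on the eight parameters -/
def Adm (t : Fin 4 → ℕ × ℕ) : Prop :=
  (∀ j, 0 < (t j).1 ∧ 0 < (t j).2 ∧ Nat.Coprime (t j).1 (t j).2) ∧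
    A2 t * B2 t < A1 t * B1 t ∧ A2 t * B1 t < A1 t * B2 t ∧ IsSquare (F8 t)

/-- admissible parameters with product `≤ N` and `g₁ g₂ ≥ e` -/
def parSet (N e : ℕ) : Set (Fin 4 → ℕ × ℕ) := {t | Adm t ∧ prd t ≤ N ∧ e ≤ (t 0).1 * (t 0).2}

/-- primitive triples with entries `≤ N` and all pairwise gcd at least `e` -/
def triSetE (N e : ℕ) : Set (ℕ × ℕ × ℕ) :=
  {t | t ∈ triSet N ∧ e ≤ Nat.gcd t.1 t.2.1 ∧ e ≤ Nat.gcd t.1 t.2.2 ∧ e ≤ Nat.gcd t.2.1 t.2.2}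

end Pool.Agent.FSQ
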