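import Pool.Agent.FSQ.Targets

set_option autoImplicit false

/-!
# FSQ: HYP, coprime points below a hyperbola on an even quartic
-/

namespace Pool.Agent.FSQ

open Finset
open scoped BigOperators

/-- points below a hyperbola lie in a dyadic box -/
theorem HYP_.box (Z : ℝ) (s : ℕ × ℕ) (h1 : 0 < s.1) (h2 : 0 < s.2)
    (h : (s.1 : ℝ) * s.2 ≤ Z) :
    (2 : ℝ) ^ (Nat.log 2 s.1) * s.2 ≤ Z ∧ s.1 < 2 ^ (Nat.log 2 s.1 + 1) ∧
      (2 : ℝ) ^ (Nat.log 2 s.1) ≤ Z := by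
  have ha : 2 ^ (Nat.log 2 s.1) ≤ s.1 := Nat.pow_log_le_self 2 h1.ne'
  have hb : s.1 < 2 ^ (Nat.log 2 s.1 + 1) := Nat.lt_pow_succ_log_self (by norm_num) s.1
  have ha' : (2 : ℝ) ^ (Nat.log 2 s.1) ≤ (s.1 : ℝ) := by exact_mod_cast ha
  have h2' : (1 : ℝ) ≤ (s.2 : ℝ) := by exact_mod_cast h2
  have hc : (2 : ℝ) ^ (Nat.log 2 s.1) * s.2 ≤ Z :=
    le_trans (mul_le_mul_of_nonneg_right ha' (by positivity)) h
  refine ⟨hc, hb, ?_⟩
  have hp : (0 : ℝ) < (2 : ℝ) ^ (Nat.log 2 s.1) := by positivity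
  nlinarith

theorem p_HYP (hBOX : T_BOX) : T_HYP := by
  classical
  intro ε hε
  obtain ⟨C0, hC0, hB⟩ := hBOX ε hε
  refine ⟨4 * C0, by positivity, ?_⟩
  intro H Z α β γ S hH hZ hg ha hb hc hS
  have hl2 : (1 : ℝ) / 2 < Real.log 2 := by have := Real.log_two_gt_d9; linarith
  have hlZ : 0 ≤ Real.log Z := Real.log_nonneg hZ
  have hHε : 0 < H ^ ε := Real.rpow_pos_of_pos (by linarith) ε
  set n := ⌊Real.log Z / Real.log 2⌋₊ with hn
  have hmaps : ∀ s ∈ S, Nat.log 2 s.1 ∈ Finset.range (n + 1) := by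
    intro s hs
    obtain ⟨h1, h2, h3, -, -⟩ := hS s hs
    obtain ⟨-, -, hq⟩ := HYP_.box Z s h1 h2 h3
    rw [Finset.mem_range, Nat.lt_succ_iff]
    apply Nat.le_floor
    rw [le_div_iff₀ (by linarith)]
    have := Real.log_le_log (by positivity) hq
    rwa [Real.log_pow] at this
  have hcard : S.card = ∑ i ∈ Finset.range (n + 1),
      (S.filter (fun s => Nat.log 2 s.1 = i)).card :=
    Finset.card_eq_sum_card_fiberwise hmaps
  have hfib : ∀ i ∈ Finset.range (n + 1),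
      ((S.filter (fun s => Nat.log 2 s.1 = i)).card : ℝ) ≤ C0 * Real.sqrt (2 * Z) * H ^ ε := by
    intro i hi
    rcases (S.filter (fun s => Nat.log 2 s.1 = i)).eq_empty_or_nonempty with he | ⟨s0, hs0⟩
    · rw [he]
      simp only [Finset.card_empty, Nat.cast_zero]
      positivity
    · have key : ∀ s ∈ S.filter (fun s => Nat.log 2 s.1 = i),
          s.2 ≤ ⌊Z / 2 ^ i⌋₊ ∧ s.1 ≤ 2 ^ (i + 1) := by
        intro s hs
        rw [Finset.mem_filter] at hs
        obtain ⟨hsS, hsi⟩ := hs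
        obtain ⟨h1, h2, h3, -, -⟩ := hS s hsS
        obtain ⟨hp, hq, -⟩ := HYP_.box Z s h1 h2 h3
        rw [hsi] at hp hq
        refine ⟨?_, hq.le⟩
        apply Nat.le_floor
        rw [le_div_iff₀ (by positivity)]
        linarith [mul_comm ((2 : ℝ) ^ i) (s.2 : ℝ)]
      have hY : 1 ≤ ⌊Z / 2 ^ i⌋₊ := by
        have h := (key s0 hs0).1
        rw [Finset.mem_filter] at hs0
        have := (hS s0 hs0.1).2.1
        omega
      have h := hB H α β γ (2 ^ (i + 1)) ⌊Z / 2 ^ i⌋₊ (S.filter (fun s => Nat.log 2 s.1 = i))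
        hH hg ha hb hc (Nat.one_le_two_pow) hY (by
          intro s hs
          have hk := key s hs
          rw [Finset.mem_filter] at hs
          obtain ⟨h1, h2, -, h4, h5⟩ := hS s hs.1
          exact ⟨h1, h2, hk.2, hk.1, h4, h5⟩)
      refine le_trans h ?_
      have hle : (((2 ^ (i + 1) : ℕ) : ℝ) * ((⌊Z / 2 ^ i⌋₊ : ℕ) : ℝ)) ≤ 2 * Z := by
        have hf : ((⌊Z / 2 ^ i⌋₊ : ℕ) : ℝ) ≤ Z / 2 ^ i := Nat.floor_le (by positivity)
        have hp : (0 : ℝ) < (2 : ℝ) ^ i := by positivity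
        calc (((2 ^ (i + 1) : ℕ) : ℝ) * ((⌊Z / 2 ^ i⌋₊ : ℕ) : ℝ))
            ≤ (((2 ^ (i + 1) : ℕ) : ℝ) * (Z / 2 ^ i)) :=
              mul_le_mul_of_nonneg_left hf (by positivity)
          _ = 2 * Z := by
              push_cast
              field_simp
              ring
      have hsq := Real.sqrt_le_sqrt hle
      exact mul_le_mul_of_nonneg_right (mul_le_mul_of_nonneg_left hsq hC0.le) hHε.le
  have hn1 : ((n : ℝ) + 1) ≤ 2 * (1 + Real.log Z) := by
    have h1 : (n : ℝ) ≤ Real.log Z / Real.log 2 := Nat.floor_le (by positivity)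
    have h2 : Real.log Z / Real.log 2 ≤ 2 * Real.log Z := by
      rw [div_le_iff₀ (by linarith)]
      nlinarith
    linarith
  have hs2 : Real.sqrt (2 * Z) ≤ 2 * Real.sqrt Z := by
    rw [Real.sqrt_le_iff]
    refine ⟨by positivity, ?_⟩
    rw [mul_pow, Real.sq_sqrt (by linarith)]
    linarith
  calc (S.card : ℝ) = ∑ i ∈ Finset.range (n + 1),
        ((S.filter (fun s => Nat.log 2 s.1 = i)).card : ℝ) := by
        rw [hcard]; push_cast; rfl
    _ ≤ ∑ i ∈ Finset.range (n + 1), C0 * Real.sqrt (2 * Z) * H ^ ε := Finset.sum_le_sum hfib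
    _ = ((n : ℝ) + 1) * (C0 * Real.sqrt (2 * Z) * H ^ ε) := by
        rw [Finset.sum_const, Finset.card_range, nsmul_eq_mul]; push_cast; ring
    _ ≤ (2 * (1 + Real.log Z)) * (C0 * (2 * Real.sqrt Z) * H ^ ε) := by
        apply mul_le_mul hn1 _ (by positivity) (by positivity)
        exact mul_le_mul_of_nonneg_right (mul_le_mul_of_nonneg_left hs2 hC0.le) hHε.le
    _ = 4 * C0 * Real.sqrt Z * (1 + Real.log Z) * H ^ ε := by ring

end Pool.Agent.FSQ
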