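import Pool.Agent.FSQ.Targets

set_option autoImplicit false

/-!
# T_LSV (MP_a81a37_nt, project FSQ): the larger sieve for coprime pairs
-/

namespace Pool.Agent.FSQ

open Finset
open scoped BigOperators

namespace LSV_

/-- Cauchy-Schwarz for the number of pairs with the same value. -/
theorem cs {ι J : Type} [DecidableEq ι] [DecidableEq J] (S : Finset ι) (κ : ι → J) :
    (S.card : ℝ) ^ 2 ≤ (S.image κ).card *
      (((S ×ˢ S).filter fun x => κ x.1 = κ x.2).card : ℝ) := by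
  have h1 : (S.card : ℝ) = ∑ j ∈ S.image κ, ((S.filter fun s => κ s = j).card : ℝ) := by
    rw [card_eq_sum_card_image κ S]
    push_cast
    rfl
  have h2 : (((S ×ˢ S).filter fun x => κ x.1 = κ x.2).card : ℝ) =
      ∑ j ∈ S.image κ, ((S.filter fun s => κ s = j).card : ℝ) ^ 2 := by
    have h3 : ((S ×ˢ S).filter fun x => κ x.1 = κ x.2).card =
        ∑ j ∈ S.image κ, (((S ×ˢ S).filter fun x => κ x.1 = κ x.2).filter
          fun x => κ x.1 = j).card := by
      refine card_eq_sum_card_fiberwise fun x hx => ?_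
      have hx' := mem_filter.1 (mem_coe.1 hx)
      exact mem_coe.2 (mem_image_of_mem κ (mem_product.1 hx'.1).1)
    rw [h3]
    push_cast
    refine sum_congr rfl fun j _ => ?_
    have h4 : (((S ×ˢ S).filter fun x => κ x.1 = κ x.2).filter fun x => κ x.1 = j) =
        (S.filter fun s => κ s = j) ×ˢ (S.filter fun s => κ s = j) := by
      ext ⟨a, b⟩
      simp only [mem_filter, mem_product]
      constructor
      · rintro ⟨⟨⟨ha, hb⟩, hab⟩, haj⟩
        exact ⟨⟨ha, haj⟩, hb, hab ▸ haj⟩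
      · rintro ⟨⟨ha, haj⟩, hb, hbj⟩
        exact ⟨⟨⟨ha, hb⟩, haj.trans hbj.symm⟩, haj⟩
    rw [h4, card_product]
    push_cast
    ring
  rw [h2]
  calc (S.card : ℝ) ^ 2 = (∑ j ∈ S.image κ, ((S.filter fun s => κ s = j).card : ℝ)) ^ 2 := by
        rw [← h1]
    _ ≤ _ := sq_sum_le_card_mul_sum_sq

/-- Two different coprime pairs of positive numbers are not proportional. -/
theorem det_ne {s t : ℕ × ℕ} (ht1 : 0 < t.1)
    (hs : Nat.Coprime s.1 s.2) (ht : Nat.Coprime t.1 t.2) (hst : s ≠ t) :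
    (s.1 : ℤ) * t.2 - (t.1 : ℤ) * s.2 ≠ 0 := by
  intro h
  have h1 : s.1 * t.2 = t.1 * s.2 := by
    have : (s.1 : ℤ) * t.2 = (t.1 : ℤ) * s.2 := by linarith
    exact_mod_cast this
  have h2 : s.1 ∣ t.1 := hs.dvd_of_dvd_mul_right (h1 ▸ Dvd.intro _ rfl)
  have h3 : t.1 ∣ s.1 := ht.dvd_of_dvd_mul_right (h1.symm ▸ Dvd.intro _ rfl)
  have h4 : s.1 = t.1 := Nat.dvd_antisymm h2 h3
  rw [h4] at h1
  have h5 : t.2 = s.2 := Nat.eq_of_mul_eq_mul_left ht1 h1
  exact hst (Prod.ext h4 h5.symm)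

/-- The size of the determinant. -/
theorem det_le {s t : ℕ × ℕ} {X Y : ℕ} (hs1 : s.1 ≤ X) (hs2 : s.2 ≤ Y) (ht1 : t.1 ≤ X)
    (ht2 : t.2 ≤ Y) : ((s.1 : ℤ) * t.2 - (t.1 : ℤ) * s.2).natAbs ≤ X * Y := by
  have h1 : s.1 * t.2 ≤ X * Y := Nat.mul_le_mul hs1 ht2
  have h2 : t.1 * s.2 ≤ X * Y := Nat.mul_le_mul ht1 hs2
  have h1' : (s.1 : ℤ) * t.2 ≤ X * Y := by exact_mod_cast h1
  have h2' : (t.1 : ℤ) * s.2 ≤ X * Y := by exact_mod_cast h2
  have h3 : (0 : ℤ) ≤ (s.1 : ℤ) * t.2 := by positivity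
  have h4 : (0 : ℤ) ≤ (t.1 : ℤ) * s.2 := by positivity
  have h5 : ((X * Y : ℕ) : ℤ) = (X : ℤ) * Y := by push_cast; ring
  omega

end LSV_

open LSV_ in
open Classical in
theorem p_LSV : T_LSV := by
  intro S X Y P ν hS hP
  have hlog : ∀ p ∈ P, 0 ≤ Real.log p := fun p hp =>
    Real.log_nonneg (by exact_mod_cast (hP p hp).1.one_lt.le)
  rcases S.eq_empty_or_nonempty with hS0 | hS0
  · rw [hS0, card_empty, Nat.cast_zero, zero_mul]
    exact sum_nonneg hlog
  obtain ⟨s0, hs0⟩ := hS0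
  have hXY : (1 : ℝ) ≤ (X : ℝ) * Y := by
    obtain ⟨h1, h2, h3, h4, -⟩ := hS s0 hs0
    have h5 : 1 ≤ X * Y := Nat.mul_pos (by omega) (by omega)
    exact_mod_cast h5
  have hL0 : 0 ≤ Real.log ((X : ℝ) * Y) := Real.log_nonneg hXY
  -- the pairs with the same value
  have H : ∀ p, ∃ T : Finset ((ℕ × ℕ) × (ℕ × ℕ)), p ∈ P → T ⊆ S ×ˢ S ∧
      (S.card : ℝ) ^ 2 ≤ ν p * T.card ∧
      ∀ x ∈ T, (p : ℤ) ∣ ((x.1.1 : ℤ) * x.2.2 - (x.2.1 : ℤ) * x.1.2) := by
    intro p
    by_cases hp : p ∈ P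
    · obtain ⟨hpp, hν, κ, hκ1, hκ2⟩ := hP p hp
      refine ⟨(S ×ˢ S).filter fun x => κ x.1 = κ x.2, fun _ => ⟨filter_subset _ _, ?_, ?_⟩⟩
      · refine le_trans (cs S κ) ?_
        refine mul_le_mul_of_nonneg_right ?_ (Nat.cast_nonneg _)
        have h1 : ((κ '' (S : Set (ℕ × ℕ))).ncard) = (S.image κ).card := by
          rw [← coe_image, Set.ncard_coe_finset]
        rwa [h1] at hκ1
      · intro x hx
        have hx' := mem_filter.1 hx
        exact hκ2 x.1 (mem_product.1 hx'.1).1 x.2 (mem_product.1 hx'.1).2 hx'.2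
    · exact ⟨∅, fun h => absurd h hp⟩
  choose T hT using H
  -- the double count
  have h1 : (S.card : ℝ) ^ 2 * ∑ p ∈ P, Real.log p / ν p ≤
      ∑ p ∈ P, Real.log p * (T p).card := by
    rw [mul_sum]
    refine sum_le_sum fun p hp => ?_
    have hν := (hP p hp).2.1
    have h2 := (hT p hp).2.1
    have h3 : (S.card : ℝ) ^ 2 * (Real.log p / ν p) =
        Real.log p * ((S.card : ℝ) ^ 2 / ν p) := by ring
    rw [h3]
    refine mul_le_mul_of_nonneg_left ?_ (hlog p hp)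
    rw [div_le_iff₀ hν]
    linarith
  have h2 : ∑ p ∈ P, Real.log p * (T p).card =
      ∑ x ∈ S ×ˢ S, ∑ p ∈ P, if x ∈ T p then Real.log p else 0 := by
    rw [sum_comm]
    refine sum_congr rfl fun p hp => ?_
    rw [← sum_filter, sum_const, nsmul_eq_mul, mul_comm]
    congr 2
    congr 1
    ext x
    simp only [mem_filter]
    exact ⟨fun h => ⟨(hT p hp).1 h, h⟩, fun h => h.2⟩
  -- the inner sums
  have h3 : ∀ x ∈ S ×ˢ S, (∑ p ∈ P, if x ∈ T p then Real.log p else 0) ≤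
      (if x.1 = x.2 then ∑ p ∈ P, Real.log p else 0) + Real.log ((X : ℝ) * Y) := by
    rintro ⟨s, t⟩ hx
    obtain ⟨hs, ht⟩ := mem_product.1 hx
    simp only at hs ht
    by_cases hst : s = t
    · simp only [hst, if_true]
      have : (∑ p ∈ P, if (t, t) ∈ T p then Real.log p else 0) ≤ ∑ p ∈ P, Real.log p :=
        sum_le_sum fun p hp => by split_ifs; exacts [le_rfl, hlog p hp]
      linarith
    · simp only [hst, if_false, zero_add]
      obtain ⟨a1, a2, a3, a4, a5⟩ := hS s hs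
      obtain ⟨b1, b2, b3, b4, b5⟩ := hS t ht
      have hne := det_ne b1 a5 b5 hst
      have hle := det_le a3 a4 b3 b4
      set D : ℕ := ((s.1 : ℤ) * t.2 - (t.1 : ℤ) * s.2).natAbs with hD
      have hD0 : 0 < D := Int.natAbs_pos.2 hne
      rw [← sum_filter]
      have hdvd : (∏ p ∈ P.filter (fun p => (s, t) ∈ T p), p) ∣ D := by
        refine Finset.prod_primes_dvd D (fun p hp => ?_) (fun p hp => ?_)
        · exact (hP p (mem_filter.1 hp).1).1.prime
        · have := (hT p (mem_filter.1 hp).1).2.2 (s, t) (mem_filter.1 hp).2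
          exact Int.natCast_dvd.1 this
      have h4 : ∑ p ∈ P.filter (fun p => (s, t) ∈ T p), Real.log p =
          Real.log ((∏ p ∈ P.filter (fun p => (s, t) ∈ T p), p : ℕ) : ℝ) := by
        push_cast
        rw [Real.log_prod]
        intro p hp
        have := (hP p (mem_filter.1 hp).1).1.pos
        positivity
      rw [h4]
      refine Real.log_le_log ?_ ?_
      · have : 0 < ∏ p ∈ P.filter (fun p => (s, t) ∈ T p), p :=
          prod_pos fun p hp => (hP p (mem_filter.1 hp).1).1.pos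
        exact_mod_cast this
      · have h5 := le_trans (Nat.le_of_dvd hD0 hdvd) hle
        exact_mod_cast h5
  have h4 : ∑ x ∈ S ×ˢ S, ((if x.1 = x.2 then ∑ p ∈ P, Real.log p else 0) +
      Real.log ((X : ℝ) * Y)) =
      S.card * (∑ p ∈ P, Real.log p) + (S.card : ℝ) ^ 2 * Real.log ((X : ℝ) * Y) := by
    rw [sum_add_distrib, sum_const, card_product, nsmul_eq_mul]
    congr 1
    · rw [sum_product]
      have : ∀ s ∈ S, (∑ t ∈ S, if s = t then ∑ p ∈ P, Real.log p else 0) =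
          ∑ p ∈ P, Real.log p := fun s hs => by
        rw [sum_ite_eq, if_pos hs]
      rw [sum_congr rfl this, sum_const, nsmul_eq_mul]
    · push_cast
      ring
  have h5 : (S.card : ℝ) ^ 2 * ∑ p ∈ P, Real.log p / ν p ≤
      S.card * (∑ p ∈ P, Real.log p) + (S.card : ℝ) ^ 2 * Real.log ((X : ℝ) * Y) := by
    rw [← h4]
    exact le_trans h1 (h2.le.trans (sum_le_sum h3))
  have hpos : (0 : ℝ) < S.card := by exact_mod_cast card_pos.2 ⟨s0, hs0⟩
  refine le_of_mul_le_mul_left ?_ hpos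
  nlinarith [h5]

end Pool.Agent.FSQ
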