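import Pool.Agent.FSQ.Targets

set_option autoImplicit false

/-!
# FSQ, target MOM: the fourth moment over all quartic forms
-/

namespace Pool.Agent.FSQ

open Finset
open scoped BigOperators

namespace MOM_

/-- parallel vectors -/
def Pl {F : Type*} [Field F] (v w : F × F) : Prop := v.1 * w.2 = v.2 * w.1

lemma Pl.symm {F : Type*} [Field F] {v w : F × F} (h : Pl v w) : Pl w v := by
  unfold Pl at *
  linear_combination -h

lemma Pl.trans {F : Type*} [Field F] {u v w : F × F} (hv : v ≠ 0) (h : Pl u v) (h' : Pl v w) :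
    Pl u w := by
  unfold Pl at *
  by_cases h1 : v.1 = 0
  · have h2 : v.2 ≠ 0 := fun h2 => hv (Prod.ext h1 h2)
    apply mul_right_cancel₀ h2
    linear_combination w.2 * h + u.2 * h'
  · apply mul_right_cancel₀ h1
    linear_combination w.1 * h + u.1 * h'

variable {p : ℕ} [Fact p.Prime]

lemma chi_le (a : ZMod p) : quadraticChar (ZMod p) a ≤ 1 := by
  by_cases h : a = 0
  · rw [h, quadraticChar_zero]
    norm_num
  · rcases quadraticChar_dichotomy h with h | h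
    · rw [h]
    · rw [h]
      norm_num

lemma qf_zero (c : Fin 5 → ZMod p) : qf c 0 = 0 := by
  simp [qf]

open Classical in
/-- pairs of parallel nonzero vectors -/
noncomputable def Par (p : ℕ) [Fact p.Prime] : Finset ((ZMod p × ZMod p) × (ZMod p × ZMod p)) :=
  univ.filter fun x => x.1 ≠ 0 ∧ Pl x.1 x.2

lemma mem_Par (x : (ZMod p × ZMod p) × (ZMod p × ZMod p)) :
    x ∈ Par p ↔ x.1 ≠ 0 ∧ Pl x.1 x.2 := by
  classical
  simp [Par]

lemma card_Par : (Par p).card ≤ p ^ 3 := by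
  classical
  have hcard : (univ : Finset (ZMod p)).card = p := by rw [card_univ, ZMod.card]
  have h1 := card_le_mul_card_image_of_maps_to (s := Par p) (t := univ)
    (f := fun x : (ZMod p × ZMod p) × (ZMod p × ZMod p) => x.1) (fun _ _ => mem_univ _) p ?_
  · refine h1.trans (le_of_eq ?_)
    rw [card_univ, Fintype.card_prod, ZMod.card]
    ring
  · intro v _
    conv_rhs => rw [← hcard]
    by_cases hv : v.1 = 0
    · refine card_le_card_of_injOn (fun x => x.2.2) (fun _ _ => mem_univ _) ?_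
      intro x hx y hy heq
      rw [mem_coe, mem_filter, mem_Par] at hx hy
      obtain ⟨⟨hx0, hx1⟩, hx2⟩ := hx
      obtain ⟨⟨hy0, hy1⟩, hy2⟩ := hy
      unfold Pl at hx1 hy1
      rw [hx2] at hx0 hx1
      rw [hy2] at hy1
      have h2 : v.2 ≠ 0 := fun h2 => hx0 (Prod.ext hv h2)
      rw [hv, zero_mul] at hx1 hy1
      have e1 : x.2.1 = 0 := (mul_eq_zero.1 hx1.symm).resolve_left h2
      have e2 : y.2.1 = 0 := (mul_eq_zero.1 hy1.symm).resolve_left h2
      exact Prod.ext (hx2.trans hy2.symm) (Prod.ext (e1.trans e2.symm) heq)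
    · refine card_le_card_of_injOn (fun x => x.2.1) (fun _ _ => mem_univ _) ?_
      intro x hx y hy heq
      rw [mem_coe, mem_filter, mem_Par] at hx hy
      obtain ⟨⟨hx0, hx1⟩, hx2⟩ := hx
      obtain ⟨⟨hy0, hy1⟩, hy2⟩ := hy
      unfold Pl at hx1 hy1
      rw [hx2] at hx1
      rw [hy2] at hy1
      have heq' : x.2.1 = y.2.1 := heq
      refine Prod.ext (hx2.trans hy2.symm) (Prod.ext heq (mul_left_cancel₀ hv ?_))
      rw [hx1, hy1, heq']

/-- the index set of the fourth power -/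
abbrev QQ (p : ℕ) : Type := ((ZMod p × ZMod p) × (ZMod p × ZMod p)) ×
  ((ZMod p × ZMod p) × (ZMod p × ZMod p))

lemma pow_four (c : Fin 5 → ZMod p) : (TT p c) ^ 4 = ∑ x : QQ p,
    quadraticChar (ZMod p) (qf c x.1.1 * qf c x.1.2 * qf c x.2.1 * qf c x.2.2) := by
  have h2 : (TT p c) ^ 2 = ∑ x : (ZMod p × ZMod p) × (ZMod p × ZMod p),
      quadraticChar (ZMod p) (qf c x.1 * qf c x.2) := by
    rw [Fintype.sum_prod_type (f := fun x : (ZMod p × ZMod p) × (ZMod p × ZMod p) =>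
      quadraticChar (ZMod p) (qf c x.1 * qf c x.2)), sq, TT, sum_mul_sum]
    refine sum_congr rfl fun v _ => sum_congr rfl fun w _ => ?_
    rw [map_mul]
  rw [show (TT p c) ^ 4 = (TT p c) ^ 2 * (TT p c) ^ 2 by ring, h2, sum_mul_sum,
    Fintype.sum_prod_type (f := fun x : QQ p => quadraticChar (ZMod p)
      (qf c x.1.1 * qf c x.1.2 * qf c x.2.1 * qf c x.2.2))]
  refine sum_congr rfl fun v _ => sum_congr rfl fun w _ => ?_
  rw [← map_mul, ← mul_assoc]

open Classical in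
/-- the quadruples which are paired by parallelism -/
noncomputable def E12 (p : ℕ) [Fact p.Prime] : Finset (QQ p) :=
  univ.filter fun x => x.1 ∈ Par p ∧ x.2 ∈ Par p

open Classical in
/-- the quadruples which are paired by parallelism -/
noncomputable def E13 (p : ℕ) [Fact p.Prime] : Finset (QQ p) :=
  univ.filter fun x => (x.1.1, x.2.1) ∈ Par p ∧ (x.1.2, x.2.2) ∈ Par p

open Classical in
/-- the quadruples which are paired by parallelism -/
noncomputable def E14 (p : ℕ) [Fact p.Prime] : Finset (QQ p) :=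
  univ.filter fun x => (x.1.1, x.2.2) ∈ Par p ∧ (x.1.2, x.2.1) ∈ Par p

lemma mem_E12 (x : QQ p) : x ∈ E12 p ↔ x.1 ∈ Par p ∧ x.2 ∈ Par p := by
  unfold E12
  rw [mem_filter]
  exact ⟨fun h => h.2, fun h => ⟨mem_univ _, h⟩⟩

lemma mem_E13 (x : QQ p) : x ∈ E13 p ↔ (x.1.1, x.2.1) ∈ Par p ∧ (x.1.2, x.2.2) ∈ Par p := by
  unfold E13
  rw [mem_filter]
  exact ⟨fun h => h.2, fun h => ⟨mem_univ _, h⟩⟩

lemma mem_E14 (x : QQ p) : x ∈ E14 p ↔ (x.1.1, x.2.2) ∈ Par p ∧ (x.1.2, x.2.1) ∈ Par p := by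
  unfold E14
  rw [mem_filter]
  exact ⟨fun h => h.2, fun h => ⟨mem_univ _, h⟩⟩

lemma card_aux (E : Finset (QQ p)) (f : QQ p → QQ p) (hf : Function.Injective f)
    (h : ∀ x ∈ E, (f x).1 ∈ Par p ∧ (f x).2 ∈ Par p) : E.card ≤ p ^ 6 := by
  have h1 : E.card ≤ (Par p ×ˢ Par p).card := by
    refine card_le_card_of_injOn f ?_ hf.injOn
    intro x hx
    exact mem_product.2 (h x hx)
  refine h1.trans ?_
  rw [card_product]
  calc (Par p).card * (Par p).card ≤ p ^ 3 * p ^ 3 := Nat.mul_le_mul card_Par card_Par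
    _ = p ^ 6 := by ring

lemma card_E12 : (E12 p).card ≤ p ^ 6 := by
  refine card_aux _ id Function.injective_id ?_
  intro x hx
  exact (mem_E12 x).1 hx

lemma card_E13 : (E13 p).card ≤ p ^ 6 := by
  refine card_aux _ (fun x => ((x.1.1, x.2.1), (x.1.2, x.2.2))) ?_ ?_
  · intro x y h
    simp only [Prod.mk.injEq] at h
    exact Prod.ext (Prod.ext h.1.1 h.2.1) (Prod.ext h.1.2 h.2.2)
  · intro x hx
    exact (mem_E13 x).1 hx

lemma card_E14 : (E14 p).card ≤ p ^ 6 := by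
  refine card_aux _ (fun x => ((x.1.1, x.2.2), (x.1.2, x.2.1))) ?_ ?_
  · intro x y h
    simp only [Prod.mk.injEq] at h
    exact Prod.ext (Prod.ext h.1.1 h.2.1) (Prod.ext h.2.2 h.1.2)
  · intro x hx
    exact (mem_E14 x).1 hx

/-- four elements with an equivalence relation -/
lemma four (a b c d e f : Prop) (t1 : a → b → d) (t2 : a → d → b) (t3 : b → d → a)
    (t4 : a → c → e) (t5 : a → e → c) (t6 : c → e → a) (t7 : b → c → f) (t8 : b → f → c)
    (t9 : c → f → b) (t10 : d → e → f) (t11 : d → f → e) (t12 : e → f → d)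
    (h1 : ¬ (a ∧ f)) (h2 : ¬ (b ∧ e)) (h3 : ¬ (c ∧ d)) :
    (¬ a ∧ ¬ b ∧ ¬ c) ∨ (¬ a ∧ ¬ d ∧ ¬ e) ∨ (¬ b ∧ ¬ d ∧ ¬ f) ∨ (¬ c ∧ ¬ e ∧ ¬ f) := by
  by_cases ha : a <;> by_cases hb : b <;> by_cases hc : c <;> by_cases hd : d <;>
    by_cases he : e <;> by_cases hf : f <;> simp_all

lemma zero_of_not_mem (hVAN : T_VAN) (hp : 5 ≤ p) (x : QQ p) (h12 : x ∉ E12 p) (h13 : x ∉ E13 p)
    (h14 : x ∉ E14 p) : ∑ c : Fin 5 → ZMod p,
      quadraticChar (ZMod p) (qf c x.1.1 * qf c x.1.2 * qf c x.2.1 * qf c x.2.2) = 0 := by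
  by_cases z1 : x.1.1 = 0
  · exact sum_eq_zero fun c _ => by rw [z1, qf_zero]; simp
  by_cases z2 : x.1.2 = 0
  · exact sum_eq_zero fun c _ => by rw [z2, qf_zero]; simp
  by_cases z3 : x.2.1 = 0
  · exact sum_eq_zero fun c _ => by rw [z3, qf_zero]; simp
  by_cases z4 : x.2.2 = 0
  · exact sum_eq_zero fun c _ => by rw [z4, qf_zero]; simp
  rw [mem_E12, mem_Par, mem_Par] at h12
  rw [mem_E13, mem_Par, mem_Par] at h13
  rw [mem_E14, mem_Par, mem_Par] at h14
  have h12' : ¬ (Pl x.1.1 x.1.2 ∧ Pl x.2.1 x.2.2) := fun h => h12 ⟨⟨z1, h.1⟩, z3, h.2⟩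
  have h13' : ¬ (Pl x.1.1 x.2.1 ∧ Pl x.1.2 x.2.2) := fun h => h13 ⟨⟨z1, h.1⟩, z2, h.2⟩
  have h14' : ¬ (Pl x.1.1 x.2.2 ∧ Pl x.1.2 x.2.1) := fun h => h14 ⟨⟨z1, h.1⟩, z2, h.2⟩
  have key := four (Pl x.1.1 x.1.2) (Pl x.1.1 x.2.1) (Pl x.1.1 x.2.2) (Pl x.1.2 x.2.1)
    (Pl x.1.2 x.2.2) (Pl x.2.1 x.2.2)
    (fun h h' => h.symm.trans z1 h') (fun h h' => h.trans z2 h') (fun h h' => h.trans z3 h'.symm)
    (fun h h' => h.symm.trans z1 h') (fun h h' => h.trans z2 h') (fun h h' => h.trans z4 h'.symm)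
    (fun h h' => h.symm.trans z1 h') (fun h h' => h.trans z3 h') (fun h h' => h.trans z4 h'.symm)
    (fun h h' => h.symm.trans z2 h') (fun h h' => h.trans z3 h') (fun h h' => h.trans z4 h'.symm)
    h12' h13' h14'
  rcases key with ⟨a, b, c⟩ | ⟨a, b, c⟩ | ⟨a, b, c⟩ | ⟨a, b, c⟩
  · exact hVAN p hp x.1.1 x.1.2 x.2.1 x.2.2 a b c
  · rw [← hVAN p hp x.1.2 x.1.1 x.2.1 x.2.2 (fun h => a (Pl.symm h)) b c]
    exact sum_congr rfl fun c _ => by congr 1; ring
  · rw [← hVAN p hp x.2.1 x.1.1 x.1.2 x.2.2 (fun h => a (Pl.symm h)) (fun h => b (Pl.symm h)) c]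
    exact sum_congr rfl fun c _ => by congr 1; ring
  · rw [← hVAN p hp x.2.2 x.1.1 x.1.2 x.2.1 (fun h => a (Pl.symm h)) (fun h => b (Pl.symm h))
      (fun h => c (Pl.symm h))]
    exact sum_congr rfl fun c _ => by congr 1; ring

end MOM_

open MOM_ in
/-- the target MOM -/
theorem p_MOM (hVAN : T_VAN) : T_MOM := by
  classical
  intro p _ hp
  set E : Finset (QQ p) := E12 p ∪ E13 p ∪ E14 p with hE
  have hcard : E.card ≤ 3 * p ^ 6 := by
    calc E.card ≤ (E12 p ∪ E13 p).card + (E14 p).card := card_union_le _ _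
      _ ≤ (E12 p).card + (E13 p).card + (E14 p).card :=
        Nat.add_le_add_right (card_union_le _ _) _
      _ ≤ p ^ 6 + p ^ 6 + p ^ 6 :=
        Nat.add_le_add (Nat.add_le_add card_E12 card_E13) card_E14
      _ = 3 * p ^ 6 := by ring
  have h1 : ∑ c : Fin 5 → ZMod p, (TT p c) ^ 4 = ∑ x ∈ E, ∑ c : Fin 5 → ZMod p,
      quadraticChar (ZMod p) (qf c x.1.1 * qf c x.1.2 * qf c x.2.1 * qf c x.2.2) := by
    simp only [pow_four]
    rw [sum_comm]
    symm
    apply sum_subset (subset_univ E)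
    intro x _ hx
    rw [hE, mem_union, mem_union] at hx
    push Not at hx
    exact zero_of_not_mem hVAN hp x hx.1.1 hx.1.2 hx.2
  rw [h1]
  have h2 : ∀ x ∈ E, ∑ c : Fin 5 → ZMod p,
      quadraticChar (ZMod p) (qf c x.1.1 * qf c x.1.2 * qf c x.2.1 * qf c x.2.2) ≤ (p : ℤ) ^ 5 := by
    intro x _
    calc ∑ c : Fin 5 → ZMod p,
        quadraticChar (ZMod p) (qf c x.1.1 * qf c x.1.2 * qf c x.2.1 * qf c x.2.2)
        ≤ ∑ _c : Fin 5 → ZMod p, (1 : ℤ) := sum_le_sum fun c _ => chi_le _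
      _ = (p : ℤ) ^ 5 := by
        rw [sum_const, card_univ, Fintype.card_fun, ZMod.card, Fintype.card_fin]
        simp
  calc ∑ x ∈ E, ∑ c : Fin 5 → ZMod p,
      quadraticChar (ZMod p) (qf c x.1.1 * qf c x.1.2 * qf c x.2.1 * qf c x.2.2)
      ≤ ∑ _x ∈ E, (p : ℤ) ^ 5 := sum_le_sum h2
    _ = (E.card : ℤ) * (p : ℤ) ^ 5 := by rw [sum_const, nsmul_eq_mul]
    _ ≤ (3 * (p : ℤ) ^ 6) * (p : ℤ) ^ 5 := by
      apply mul_le_mul_of_nonneg_right _ (by positivity)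
      exact_mod_cast hcard
    _ = 3 * (p : ℤ) ^ 11 := by ring

end Pool.Agent.FSQ
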