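import Pool.Agent.FSQ.Targets
import Pool.Agent.ACP.P_M1

set_option autoImplicit false

/-!
# FSQ: proof of the target MRT (helper88)

The sum of `log p / (p/2 + 5 p^(3/4))` over the primes `p ≤ Q` that do not divide `B`.
-/

namespace Pool.Agent.FSQ

open Finset
open scoped BigOperators

namespace MRT_

theorem term_lower (x : ℝ) (hx : 1 ≤ x) :
    2 * (Real.log x / x) - 20 * (Real.log x * x ^ (-(5 : ℝ) / 4)) ≤
      Real.log x / (x / 2 + 5 * x ^ ((3 : ℝ) / 4)) := by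
  have hx0 : 0 < x := by linarith
  have hl : 0 ≤ Real.log x := Real.log_nonneg hx
  have hu : 0 < x ^ ((3 : ℝ) / 4) := Real.rpow_pos_of_pos hx0 _
  have h1 : x ^ (-(5 : ℝ) / 4) = x ^ ((3 : ℝ) / 4) / x ^ 2 := by
    have h := Real.rpow_sub hx0 ((3 : ℝ) / 4) 2
    rw [Real.rpow_two] at h
    rw [← h]
    norm_num
  rw [h1]
  set u := x ^ ((3 : ℝ) / 4) with hudef
  have h2 : 2 * (Real.log x / x) - 20 * (Real.log x * (u / x ^ 2)) =
      Real.log x * (2 * (x - 10 * u) / x ^ 2) := by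
    field_simp
    ring
  have h3 : Real.log x / (x / 2 + 5 * u) = Real.log x * (2 / (x + 10 * u)) := by
    have : x / 2 + 5 * u = (x + 10 * u) / 2 := by ring
    rw [this]
    field_simp
  rw [h2, h3]
  apply mul_le_mul_of_nonneg_left _ hl
  rw [div_le_div_iff₀ (by positivity) (by positivity)]
  nlinarith [sq_nonneg u]

theorem summable_F : Summable (fun n : ℕ => Real.log n * (n : ℝ) ^ (-(5 : ℝ) / 4)) := by
  have h : Summable (fun n : ℕ => 8 * (n : ℝ) ^ (-(9 : ℝ) / 8)) := by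
    apply Summable.mul_left
    rw [Real.summable_nat_rpow]
    norm_num
  refine Summable.of_nonneg_of_le (fun n => ?_) (fun n => ?_) h
  · exact mul_nonneg (Real.log_natCast_nonneg n) (Real.rpow_nonneg (Nat.cast_nonneg n) _)
  · rcases Nat.eq_zero_or_pos n with rfl | hn
    · simp only [Nat.cast_zero, Real.log_zero, zero_mul]
      positivity
    · have hn0 : (0 : ℝ) < n := by exact_mod_cast hn
      have h1 := Real.log_le_rpow_div (x := (n : ℝ)) hn0.le
        (ε := (1 : ℝ) / 8) (by norm_num)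
      have h2 : (n : ℝ) ^ (-(9 : ℝ) / 8) =
          (n : ℝ) ^ ((1 : ℝ) / 8) * (n : ℝ) ^ (-(5 : ℝ) / 4) := by
        rw [← Real.rpow_add hn0]
        norm_num
      have h3 : 0 ≤ (n : ℝ) ^ (-(5 : ℝ) / 4) := Real.rpow_nonneg hn0.le _
      rw [h2]
      calc Real.log n * (n : ℝ) ^ (-(5 : ℝ) / 4)
          ≤ ((n : ℝ) ^ ((1 : ℝ) / 8) / (1 / 8)) * (n : ℝ) ^ (-(5 : ℝ) / 4) :=
            mul_le_mul_of_nonneg_right h1 h3
        _ = 8 * ((n : ℝ) ^ ((1 : ℝ) / 8) * (n : ℝ) ^ (-(5 : ℝ) / 4)) := by ring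

/-- The primes dividing `B` contribute little. -/
theorem bad_le (ε : ℝ) (hε : 0 < ε) (Y : ℕ) (hY : 2 / ε ≤ Y) (B : ℕ) (hB : 1 ≤ B) :
    2 * ∑ p ∈ B.primeFactors, Real.log p / p ≤
      2 * ∑ n ∈ range (Y + 1), Real.log n + ε * Real.log B := by
  have hYpos : (0 : ℝ) < Y := lt_of_lt_of_le (by positivity) hY
  have hterm : ∀ p ∈ B.primeFactors, Real.log p / p ≤
      (if p ≤ Y then Real.log p else 0) + (ε / 2) * Real.log p := by
    intro p hp
    have hpp := Nat.prime_of_mem_primeFactors hp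
    have hp1 : (1 : ℝ) ≤ p := by exact_mod_cast hpp.one_le
    have hl : 0 ≤ Real.log p := Real.log_nonneg hp1
    split_ifs with h
    · have h1 : Real.log p / p ≤ Real.log p := div_le_self hl hp1
      have h2 : 0 ≤ (ε / 2) * Real.log p := by positivity
      linarith
    · rw [zero_add, div_eq_mul_inv, mul_comm]
      apply mul_le_mul_of_nonneg_right _ hl
      have hpY : (Y : ℝ) ≤ p := by exact_mod_cast (by omega : Y ≤ p)
      rw [inv_le_comm₀ (by linarith) (by positivity)]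
      have : (ε / 2)⁻¹ = 2 / ε := by field_simp
      rw [this]
      linarith
  have h1 := Finset.sum_le_sum hterm
  rw [Finset.sum_add_distrib, ← Finset.mul_sum] at h1
  have h2 : ∑ p ∈ B.primeFactors, (if p ≤ Y then Real.log (p : ℝ) else 0) ≤
      ∑ n ∈ range (Y + 1), Real.log n := by
    rw [← Finset.sum_filter]
    apply Finset.sum_le_sum_of_subset_of_nonneg
    · intro p hp
      rw [Finset.mem_filter] at hp
      rw [Finset.mem_range]
      omega
    · intro n _ _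
      exact Real.log_natCast_nonneg n
  have h3 := Pool.Agent.ACP.M1_.sum_log_primeFactors_le B hB
  have h4 : (ε / 2) * ∑ p ∈ B.primeFactors, Real.log p ≤ (ε / 2) * Real.log B :=
    mul_le_mul_of_nonneg_left h3 (by positivity)
  linarith

theorem split (Q B : ℕ) (hB : 1 ≤ B) :
    ∑ p ∈ Pool.Agent.ACP.pr Q, Real.log p / p ≤
      ∑ p ∈ (Icc 5 Q).filter (fun p => p.Prime ∧ ¬ p ∣ B), Real.log p / p +
        (∑ p ∈ ({2, 3} : Finset ℕ), Real.log p / p +
          ∑ p ∈ B.primeFactors, Real.log p / p) := by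
  have hnn : ∀ p : ℕ, 0 ≤ Real.log p / p := fun p =>
    div_nonneg (Real.log_natCast_nonneg p) (Nat.cast_nonneg p)
  have hsub : Pool.Agent.ACP.pr Q ⊆
      ((Icc 5 Q).filter (fun p => p.Prime ∧ ¬ p ∣ B)) ∪ (({2, 3} : Finset ℕ) ∪ B.primeFactors) := by
    intro p hp
    rw [Pool.Agent.ACP.M1_.mem_pr] at hp
    obtain ⟨⟨h1, h2⟩, h3⟩ := hp
    rw [Finset.mem_union, Finset.mem_union, Finset.mem_filter, Finset.mem_Icc,
      Nat.mem_primeFactors, Finset.mem_insert, Finset.mem_singleton]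
    by_cases hd : p ∣ B
    · exact Or.inr (Or.inr ⟨h3, hd, by omega⟩)
    · by_cases h5 : 5 ≤ p
      · exact Or.inl ⟨⟨h5, h2⟩, h3, hd⟩
      · have h4 : p ≠ 4 := by
          rintro rfl
          norm_num at h3
        have h0 := h3.two_le
        exact Or.inr (Or.inl (by omega))
  have hun : ∀ s t : Finset ℕ, ∑ p ∈ s ∪ t, Real.log p / p ≤
      ∑ p ∈ s, Real.log p / p + ∑ p ∈ t, Real.log p / p := by
    intro s t
    rw [← Finset.sum_union_inter]
    have : 0 ≤ ∑ p ∈ s ∩ t, Real.log p / p := Finset.sum_nonneg fun p _ => hnn p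
    linarith
  calc ∑ p ∈ Pool.Agent.ACP.pr Q, Real.log p / p
      ≤ ∑ p ∈ ((Icc 5 Q).filter (fun p => p.Prime ∧ ¬ p ∣ B)) ∪
          (({2, 3} : Finset ℕ) ∪ B.primeFactors), Real.log p / p :=
        Finset.sum_le_sum_of_subset_of_nonneg hsub fun p _ _ => hnn p
    _ ≤ _ := (hun _ _).trans (add_le_add le_rfl (hun _ _))

end MRT_

open MRT_ in
theorem p_MRT : T_MRT := by
  intro ε hε
  obtain ⟨C, _, hC⟩ := Pool.Agent.ACP.p_M1
  obtain ⟨Y, hY⟩ := exists_nat_ge (2 / ε)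
  refine ⟨2 * C + 2 * ∑ p ∈ ({2, 3} : Finset ℕ), Real.log p / p +
    2 * ∑ n ∈ range (Y + 1), Real.log n +
    20 * ∑' n : ℕ, Real.log n * (n : ℝ) ^ (-(5 : ℝ) / 4), fun Q B hQ hB => ?_⟩
  set A := (Icc 5 Q).filter (fun p => p.Prime ∧ ¬ p ∣ B) with hA
  have h1 : ∑ p ∈ A, (2 * (Real.log p / p) - 20 * (Real.log p * (p : ℝ) ^ (-(5 : ℝ) / 4))) ≤
      ∑ p ∈ A, Real.log p / ((p : ℝ) / 2 + 5 * (p : ℝ) ^ ((3 : ℝ) / 4)) := by
    apply Finset.sum_le_sum
    intro p hp
    rw [hA, Finset.mem_filter] at hp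
    exact term_lower p (by exact_mod_cast hp.2.1.one_le)
  rw [Finset.sum_sub_distrib, ← Finset.mul_sum, ← Finset.mul_sum] at h1
  have h2 : ∑ p ∈ A, Real.log p * (p : ℝ) ^ (-(5 : ℝ) / 4) ≤
      ∑' n : ℕ, Real.log n * (n : ℝ) ^ (-(5 : ℝ) / 4) := by
    apply summable_F.sum_le_tsum
    intro n _
    exact mul_nonneg (Real.log_natCast_nonneg n) (Real.rpow_nonneg (Nat.cast_nonneg n) _)
  have h3 := split Q B hB
  rw [← hA] at h3
  have h4 := bad_le ε hε Y hY B hB
  have h5 := (abs_le.1 (hC Q hQ)).1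
  linarith

end Pool.Agent.FSQ
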