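import Pool.Agent.FSQ.Targets

/-!
# FSQ: target ORB
-/

set_option autoImplicit false

namespace Pool.Agent.FSQ

open Finset
open scoped BigOperators

namespace ORB_

section Ring

variable {R : Type*} [CommRing R]

/-- the coefficients of the substituted form -/
def co (α β γ : R) (g : R × R × R × R) : Fin 5 → R :=
  ![α * g.2.1 ^ 4 + β * (g.2.1 * g.2.2.2) ^ 2 + γ * g.2.2.2 ^ 4,
    4 * α * g.1 * g.2.1 ^ 3 + 2 * β * (g.1 * g.2.2.2 + g.2.1 * g.2.2.1) * (g.2.1 * g.2.2.2) +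
      4 * γ * g.2.2.1 * g.2.2.2 ^ 3,
    6 * α * g.1 ^ 2 * g.2.1 ^ 2 + β * ((g.1 * g.2.2.2 + g.2.1 * g.2.2.1) ^ 2 +
      2 * g.1 * g.2.1 * g.2.2.1 * g.2.2.2) + 6 * γ * g.2.2.1 ^ 2 * g.2.2.2 ^ 2,
    4 * α * g.1 ^ 3 * g.2.1 + 2 * β * (g.1 * g.2.2.1) * (g.1 * g.2.2.2 + g.2.1 * g.2.2.1) +
      4 * γ * g.2.2.1 ^ 3 * g.2.2.2,
    α * g.1 ^ 4 + β * (g.1 * g.2.2.1) ^ 2 + γ * g.2.2.1 ^ 4]

lemma qf_co (α β γ : R) (g : R × R × R × R) (v : R × R) :
    qf (co α β γ g) v = qf (evc α β γ) (act g v) := by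
  obtain ⟨a, b, c, d⟩ := g
  obtain ⟨x, y⟩ := v
  simp only [qf, co, evc, act, Matrix.cons_val_zero, Matrix.cons_val_one, Matrix.cons_val]
  ring

/-- the product of two matrices -/
def mul (g k : R × R × R × R) : R × R × R × R :=
  (g.1 * k.1 + g.2.1 * k.2.2.1, g.1 * k.2.1 + g.2.1 * k.2.2.2,
    g.2.2.1 * k.1 + g.2.2.2 * k.2.2.1, g.2.2.1 * k.2.1 + g.2.2.2 * k.2.2.2)

lemma act_mul (g k : R × R × R × R) (v : R × R) : act (mul g k) v = act g (act k v) := by
  obtain ⟨a, b, c, d⟩ := g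
  obtain ⟨a', b', c', d'⟩ := k
  obtain ⟨x, y⟩ := v
  simp only [act, mul, Prod.mk.injEq]
  constructor <;> ring

lemma det_mul (g k : R × R × R × R) : gdet (mul g k) = gdet g * gdet k := by
  obtain ⟨a, b, c, d⟩ := g
  obtain ⟨a', b', c', d'⟩ := k
  simp only [gdet, mul]
  ring

lemma mul_assoc' (g k m : R × R × R × R) : mul (mul g k) m = mul g (mul k m) := by
  obtain ⟨a, b, c, d⟩ := g
  obtain ⟨a', b', c', d'⟩ := k
  obtain ⟨a'', b'', c'', d''⟩ := m
  simp only [mul, Prod.mk.injEq]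
  refine ⟨?_, ?_, ?_, ?_⟩ <;> ring

end Ring

section Field

variable {F : Type*} [Field F]

/-- the inverse matrix -/
def inv (k : F × F × F × F) : F × F × F × F :=
  (k.2.2.2 / gdet k, -k.2.1 / gdet k, -k.2.2.1 / gdet k, k.1 / gdet k)

lemma inv_mul (k : F × F × F × F) (h : gdet k ≠ 0) : mul (inv k) k = (1, 0, 0, 1) := by
  obtain ⟨a, b, c, d⟩ := k
  obtain ⟨D, hD⟩ : ∃ D, D = a * d - b * c := ⟨_, rfl⟩
  simp only [gdet] at h
  simp only [mul, inv, gdet, Prod.mk.injEq]
  rw [← hD] at h ⊢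
  simp only [div_mul_eq_mul_div, ← add_div, div_eq_iff h, one_mul, zero_mul]
  refine ⟨?_, ?_, ?_, ?_⟩
  · rw [hD]; ring
  · ring
  · ring
  · rw [hD]; ring

lemma mul_inv (k : F × F × F × F) (h : gdet k ≠ 0) : mul k (inv k) = (1, 0, 0, 1) := by
  obtain ⟨a, b, c, d⟩ := k
  obtain ⟨D, hD⟩ : ∃ D, D = a * d - b * c := ⟨_, rfl⟩
  simp only [gdet] at h
  simp only [mul, inv, gdet, Prod.mk.injEq]
  rw [← hD] at h ⊢
  simp only [← mul_div_assoc, ← add_div, div_eq_iff h, one_mul, zero_mul]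
  refine ⟨?_, ?_, ?_, ?_⟩
  · rw [hD]; ring
  · ring
  · ring
  · rw [hD]; ring

lemma act_one (v : F × F) : act ((1, 0, 0, 1) : F × F × F × F) v = v := by
  obtain ⟨x, y⟩ := v
  simp [act]

lemma mul_one' (g : F × F × F × F) : mul g (1, 0, 0, 1) = g := by
  obtain ⟨a, b, c, d⟩ := g
  simp [mul]

lemma det_inv (k : F × F × F × F) (h : gdet k ≠ 0) : gdet (inv k) ≠ 0 := by
  intro h0
  have h1 := det_mul k (inv k)
  rw [mul_inv k h, h0, mul_zero] at h1
  simp [gdet] at h1

lemma act_bij (k : F × F × F × F) (h : gdet k ≠ 0) : Function.Bijective (act k) := by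
  refine Function.bijective_iff_has_inverse.2 ⟨act (inv k), ?_, ?_⟩
  · intro v
    rw [← act_mul, inv_mul k h, act_one]
  · intro v
    rw [← act_mul, mul_inv k h, act_one]

end Field

variable {p : ℕ} [Fact p.Prime]

lemma TT_co (α β γ : ZMod p) (g : ZMod p × ZMod p × ZMod p × ZMod p) (h : gdet g ≠ 0) :
    TT p (co α β γ g) = TT p (evc α β γ) := by
  unfold TT
  simp_rw [qf_co]
  exact (act_bij g h).sum_comp fun v => quadraticChar (ZMod p) (qf (evc α β γ) v)

/-- the invertible matrices -/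
def GG (p : ℕ) [Fact p.Prime] : Finset (ZMod p × ZMod p × ZMod p × ZMod p) :=
  univ.filter fun g => gdet g ≠ 0

lemma card_GG (hp : 5 ≤ p) : p ^ 4 ≤ 2 * (GG p).card := by
  classical
  have h1 : (univ.filter fun g : ZMod p × ZMod p × ZMod p × ZMod p => ¬ gdet g ≠ 0) ⊆
      (univ.image fun t : ZMod p × ZMod p × ZMod p =>
        ((t.1, t.2.1, t.2.2, t.2.1 * t.2.2 / t.1) : ZMod p × ZMod p × ZMod p × ZMod p)) ∪
      ((univ.image fun t : ZMod p × ZMod p =>
        ((0, 0, t.1, t.2) : ZMod p × ZMod p × ZMod p × ZMod p)) ∪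
      (univ.image fun t : ZMod p × ZMod p =>
        ((0, t.1, 0, t.2) : ZMod p × ZMod p × ZMod p × ZMod p))) := by
    rintro ⟨a, b, c, d⟩ hg
    have hg' : a * d - b * c = 0 := by
      have := (mem_filter.1 hg).2
      simpa [gdet] using this
    rw [mem_union, mem_union]
    by_cases ha : a = 0
    · right
      subst ha
      have hbc : b * c = 0 := by
        have : -(b * c) = 0 := by rw [← hg']; ring
        simpa using this
      rcases mul_eq_zero.1 hbc with hb | hc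
      · left
        rw [mem_image]
        exact ⟨(c, d), mem_univ _, by simp [hb]⟩
      · right
        rw [mem_image]
        exact ⟨(b, d), mem_univ _, by simp [hc]⟩
    · left
      rw [mem_image]
      refine ⟨(a, b, c), mem_univ _, ?_⟩
      simp only [Prod.mk.injEq, true_and]
      rw [div_eq_iff ha]
      linear_combination -hg'
  have h2 := card_le_card h1
  have h3 := card_union_le
    (univ.image fun t : ZMod p × ZMod p × ZMod p =>
        ((t.1, t.2.1, t.2.2, t.2.1 * t.2.2 / t.1) : ZMod p × ZMod p × ZMod p × ZMod p))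
    ((univ.image fun t : ZMod p × ZMod p =>
        ((0, 0, t.1, t.2) : ZMod p × ZMod p × ZMod p × ZMod p)) ∪
      (univ.image fun t : ZMod p × ZMod p =>
        ((0, t.1, 0, t.2) : ZMod p × ZMod p × ZMod p × ZMod p)))
  have h4 := card_union_le
    (univ.image fun t : ZMod p × ZMod p =>
        ((0, 0, t.1, t.2) : ZMod p × ZMod p × ZMod p × ZMod p))
    (univ.image fun t : ZMod p × ZMod p =>
        ((0, t.1, 0, t.2) : ZMod p × ZMod p × ZMod p × ZMod p))
  have h5 := card_image_le (s := (univ : Finset (ZMod p × ZMod p × ZMod p)))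
    (f := fun t => ((t.1, t.2.1, t.2.2, t.2.1 * t.2.2 / t.1) :
      ZMod p × ZMod p × ZMod p × ZMod p))
  have h6 := card_image_le (s := (univ : Finset (ZMod p × ZMod p)))
    (f := fun t => ((0, 0, t.1, t.2) : ZMod p × ZMod p × ZMod p × ZMod p))
  have h7 := card_image_le (s := (univ : Finset (ZMod p × ZMod p)))
    (f := fun t => ((0, t.1, 0, t.2) : ZMod p × ZMod p × ZMod p × ZMod p))
  rw [card_univ, Fintype.card_prod, Fintype.card_prod, ZMod.card] at h5
  rw [card_univ, Fintype.card_prod, ZMod.card] at h6 h7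
  have h8 := card_filter_add_card_filter_not (s := (univ : Finset (ZMod p × ZMod p × ZMod p ×
    ZMod p))) (fun g => gdet g ≠ 0)
  rw [card_univ, Fintype.card_prod, Fintype.card_prod, Fintype.card_prod, ZMod.card] at h8
  have h9 : (GG p).card = (univ.filter fun g : ZMod p × ZMod p × ZMod p × ZMod p =>
      gdet g ≠ 0).card := rfl
  rw [h9]
  have h10 : p * (p * (p * p)) = p ^ 4 := by ring
  have h11 : 2 * (p * (p * p) + (p * p + p * p)) ≤ p ^ 4 := by
    have : p * (p * (p * p)) = p ^ 4 := by ring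
    have e1 : 5 * 5 ≤ p * p := Nat.mul_le_mul hp hp
    have e2 : 5 * (p * p) ≤ p * (p * p) := Nat.mul_le_mul_right _ hp
    have e3 : 5 * (p * (p * p)) ≤ p * (p * (p * p)) := Nat.mul_le_mul_right _ hp
    nlinarith
  omega

lemma fibre (hSTB : T_STB) (hp : 5 ≤ p) (α β γ : ZMod p) (h1 : α ≠ 0) (h2 : γ ≠ 0)
    (h3 : β ^ 2 ≠ 4 * α * γ) (k : ZMod p × ZMod p × ZMod p × ZMod p) (hk : gdet k ≠ 0) :
    ((GG p).filter fun g => co α β γ g = co α β γ k).card ≤ 96 := by
  classical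
  have hST := hSTB p hp α β γ h1 h2 h3
  set ST : Set (ZMod p × ZMod p × ZMod p × ZMod p) := {g | gdet g ≠ 0 ∧
    ∀ v, qf (evc α β γ) (act g v) = qf (evc α β γ) v} with hSTdef
  have h4 : (((GG p).filter fun g => co α β γ g = co α β γ k : Finset _) :
      Set (ZMod p × ZMod p × ZMod p × ZMod p)) ⊆ (fun h => mul h k) '' ST := by
    intro g hg
    have hg' := mem_filter.1 (Finset.mem_coe.1 hg)
    have hg1 : gdet g ≠ 0 := (mem_filter.1 hg'.1).2
    refine ⟨mul g (inv k), ⟨?_, ?_⟩, ?_⟩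
    · rw [det_mul]
      exact mul_ne_zero hg1 (det_inv k hk)
    · intro w
      rw [act_mul, ← qf_co, hg'.2, qf_co, ← act_mul, mul_inv k hk, act_one]
    · show mul (mul g (inv k)) k = g
      rw [mul_assoc', inv_mul k hk, mul_one']
  have h5 := Set.ncard_le_ncard h4 (Set.toFinite _)
  rw [Set.ncard_coe_finset] at h5
  have h6 := Set.ncard_image_le (s := ST) (f := fun h => mul h k) (Set.toFinite _)
  omega

end ORB_

open ORB_ in
theorem p_ORB (hSTB : T_STB) : T_ORB := by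
  classical
  intro p _ hp α β γ h1 h2 h3
  have e1 : (GG p).card ≤ 96 * ((GG p).image (co α β γ)).card := by
    apply card_le_mul_card_image
    intro c hc
    obtain ⟨k, hk, rfl⟩ := mem_image.1 hc
    exact fibre hSTB hp α β γ h1 h2 h3 k (mem_filter.1 hk).2
  have e2 : (GG p).image (co α β γ) ⊆
      univ.filter (fun c : Fin 5 → ZMod p => TT p c = TT p (evc α β γ)) := by
    intro c hc
    obtain ⟨k, hk, rfl⟩ := mem_image.1 hc
    exact mem_filter.2 ⟨mem_univ _, TT_co α β γ k (mem_filter.1 hk).2⟩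
  have e3 := card_le_card e2
  have e4 := card_GG (p := p) hp
  omega

end Pool.Agent.FSQ
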