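import Pool.Agent.FSQ.Targets

set_option autoImplicit false

/-!
# FSQ, target PAR: the eight parameters of a primitive triple
-/

namespace Pool.Agent.FSQ

namespace PAR_

/-- If `h` divides the product of the coprime numbers `u, v` then `h = gcd h u * gcd h v`. -/
lemma split_dvd {h u v : ℕ} (hc : Nat.Coprime u v) (hd : h ∣ u * v) :
    Nat.gcd h u * Nat.gcd h v = h := by
  rw [← Nat.Coprime.gcd_mul h hc, Nat.gcd_eq_left hd]

/-- Four numbers lemma. -/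
lemma four {U V W Z : ℕ} (hUV : Nat.Coprime U V) (hWZ : Nat.Coprime W Z) (h : U * V = W * Z) :
    U = Nat.gcd U W * Nat.gcd U Z ∧ V = Nat.gcd V W * Nat.gcd V Z ∧
      W = Nat.gcd U W * Nat.gcd V W ∧ Z = Nat.gcd U Z * Nat.gcd V Z := by
  refine ⟨?_, ?_, ?_, ?_⟩
  · exact (split_dvd hWZ (h ▸ Dvd.intro _ rfl)).symm
  · exact (split_dvd hWZ (h ▸ Dvd.intro_left _ rfl)).symm
  · have := split_dvd hUV (show W ∣ U * V from h ▸ Dvd.intro _ rfl)
    rw [Nat.gcd_comm U W, Nat.gcd_comm V W]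
    exact this.symm
  · have := split_dvd hUV (show Z ∣ U * V from h ▸ Dvd.intro_left _ rfl)
    rw [Nat.gcd_comm U Z, Nat.gcd_comm V Z]
    exact this.symm

/-- The algebraic core. -/
lemma core {a b c g1 g2 h1 h2 p q r s : ℕ} (hg1 : 0 < g1) (hg2 : 0 < g2) (hh1 : 0 < h1)
    (hh2 : 0 < h2) (hp : 0 < p) (hq : 0 < q) (hr : 0 < r) (hs : 0 < s)
    (cu : Nat.Coprime (h1 * (p * q)) (h2 * (r * s)))
    (cw : Nat.Coprime (g1 * (p * r)) (g2 * (q * s)))
    (lu : h2 * (r * s) < h1 * (p * q)) (lw : g2 * (q * s) < g1 * (p * r))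
    (ha : a = g1 * g2 * (h1 * h2) * (p * q * (r * s)))
    (hb : 2 * b + g1 * g2 * (h2 * (r * s)) ^ 2 = g1 * g2 * (h1 * (p * q)) ^ 2)
    (hc : 2 * c + h1 * h2 * (g2 * (q * s)) ^ 2 = h1 * h2 * (g1 * (p * r)) ^ 2)
    (hsq : IsSquare (b ^ 2 + c ^ 2)) :
    ∃ t : Fin 4 → ℕ × ℕ, Adm t ∧ prd t = a ∧ (t 0).1 * (t 0).2 = g1 * g2 ∧
    (t 1).1 * (t 1).2 = h1 * h2 ∧ 2 * b + A2 t * B2 t = A1 t * B1 t ∧
    2 * c + A2 t * B1 t = A1 t * B2 t := by
  let t : Fin 4 → ℕ × ℕ := ![(g1, g2), (h1, h2), (p, s), (q, r)]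
  have t0 : t 0 = (g1, g2) := rfl
  have t1 : t 1 = (h1, h2) := rfl
  have t2 : t 2 = (p, s) := rfl
  have t3 : t 3 = (q, r) := rfl
  have eA1 : A1 t = h1 * g1 * p ^ 2 := rfl
  have eA2 : A2 t = h2 * g2 * s ^ 2 := rfl
  have eB1 : B1 t = h1 * g2 * q ^ 2 := rfl
  have eB2 : B2 t = g1 * h2 * r ^ 2 := rfl
  have m1 : A1 t * B1 t = g1 * g2 * (h1 * (p * q)) ^ 2 := by rw [eA1, eB1]; ring
  have m2 : A2 t * B2 t = g1 * g2 * (h2 * (r * s)) ^ 2 := by rw [eA2, eB2]; ring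
  have m3 : A1 t * B2 t = h1 * h2 * (g1 * (p * r)) ^ 2 := by rw [eA1, eB2]; ring
  have m4 : A2 t * B1 t = h1 * h2 * (g2 * (q * s)) ^ 2 := by rw [eA2, eB1]; ring
  have eb : 2 * b + A2 t * B2 t = A1 t * B1 t := by rw [m1, m2]; exact hb
  have ec : 2 * c + A2 t * B1 t = A1 t * B2 t := by rw [m3, m4]; exact hc
  have ch : Nat.Coprime h1 h2 := Nat.Coprime.coprime_dvd_left (Dvd.intro _ rfl)
    (Nat.Coprime.coprime_dvd_right (Dvd.intro _ rfl) cu)
  have cg : Nat.Coprime g1 g2 := Nat.Coprime.coprime_dvd_left (Dvd.intro _ rfl)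
    (Nat.Coprime.coprime_dvd_right (Dvd.intro _ rfl) cw)
  have cps : Nat.Coprime p s :=
    Nat.Coprime.coprime_dvd_left (Dvd.intro (h1 * q) (by ring))
      (Nat.Coprime.coprime_dvd_right (Dvd.intro (h2 * r) (by ring)) cu)
  have cqr : Nat.Coprime q r :=
    Nat.Coprime.coprime_dvd_left (Dvd.intro (h1 * p) (by ring))
      (Nat.Coprime.coprime_dvd_right (Dvd.intro (h2 * s) (by ring)) cu)
  refine ⟨t, ⟨?_, ?_, ?_, ?_⟩, ?_, rfl, rfl, eb, ec⟩
  · intro j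
    fin_cases j
    · exact ⟨hg1, hg2, cg⟩
    · exact ⟨hh1, hh2, ch⟩
    · exact ⟨hp, hs, cps⟩
    · exact ⟨hq, hr, cqr⟩
  · rw [m1, m2]
    exact Nat.mul_lt_mul_of_pos_left (Nat.pow_lt_pow_left lu (by norm_num)) (by positivity)
  · rw [m3, m4]
    exact Nat.mul_lt_mul_of_pos_left (Nat.pow_lt_pow_left lw (by norm_num)) (by positivity)
  · obtain ⟨z, hz⟩ := hsq
    refine ⟨2 * (z : ℤ), ?_⟩
    have e1 : (A1 t : ℤ) * B1 t - A2 t * B2 t = 2 * b := by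
      have : ((2 * b + A2 t * B2 t : ℕ) : ℤ) = ((A1 t * B1 t : ℕ) : ℤ) := by rw [eb]
      push_cast at this
      linarith
    have e2 : (A1 t : ℤ) * B2 t - A2 t * B1 t = 2 * c := by
      have : ((2 * c + A2 t * B1 t : ℕ) : ℤ) = ((A1 t * B2 t : ℕ) : ℤ) := by rw [ec]
      push_cast at this
      linarith
    have e3 : ((b : ℤ)) ^ 2 + (c : ℤ) ^ 2 = z * z := by exact_mod_cast hz
    have e4 : F8 t = ((A1 t : ℤ) * B1 t - A2 t * B2 t) ^ 2 +
        ((A1 t : ℤ) * B2 t - A2 t * B1 t) ^ 2 := by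
      unfold F8; ring
    rw [e4, e1, e2]
    linear_combination 4 * e3
  · have : prd t = g1 * g2 * (h1 * h2) * (p * s) * (q * r) := by
      unfold prd
      rw [Fin.prod_univ_four, t0, t1, t2, t3]
    rw [this, ha]
    ring

end PAR_

/-- PAR: the eight parameters of a primitive triple with `a` odd. -/
theorem p_PAR (hPYT : T_PYT) : T_PAR := by
  intro a b c hT hodd hgcd
  obtain ⟨ha, hb, hc, hab, hac, hbc⟩ := hT
  obtain ⟨u, v, hv, huv, cuv, ea, eb⟩ := hPYT a b hodd hb hab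
  obtain ⟨u', v', hv', huv', cuv', ea', ec⟩ := hPYT a c hodd hc hac
  have hg0 : 0 < Nat.gcd a b := Nat.gcd_pos_of_pos_left _ ha
  have hh0 : 0 < Nat.gcd a c := Nat.gcd_pos_of_pos_left _ ha
  have cgh : Nat.Coprime (Nat.gcd a b) (Nat.gcd a c) := by
    have : Nat.gcd (Nat.gcd a b) (Nat.gcd a c) ∣ Nat.gcd (Nat.gcd a b) c :=
      Nat.dvd_gcd (Nat.gcd_dvd_left _ _) ((Nat.gcd_dvd_right _ _).trans (Nat.gcd_dvd_right _ _))
    rw [hgcd] at this
    exact Nat.dvd_one.1 this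
  generalize hg : Nat.gcd a b = g at *
  generalize hh : Nat.gcd a c = h at *
  have hu0 : 0 < u := lt_trans hv huv
  have hu0' : 0 < u' := lt_trans hv' huv'
  have dh : h ∣ u * v := by
    have : h ∣ g * (u * v) := by rw [← ea, ← hh]; exact Nat.gcd_dvd_left _ _
    exact Nat.Coprime.dvd_of_dvd_mul_left cgh.symm this
  have dg : g ∣ u' * v' := by
    have : g ∣ h * (u' * v') := by rw [← ea', ← hg]; exact Nat.gcd_dvd_left _ _
    exact Nat.Coprime.dvd_of_dvd_mul_left cgh this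
  have sh := PAR_.split_dvd cuv dh
  have sg := PAR_.split_dvd cuv' dg
  obtain ⟨U, hU⟩ := Nat.gcd_dvd_right h u
  obtain ⟨V, hV⟩ := Nat.gcd_dvd_right h v
  obtain ⟨W, hW⟩ := Nat.gcd_dvd_right g u'
  obtain ⟨Z, hZ⟩ := Nat.gcd_dvd_right g v'
  have h1p : 0 < Nat.gcd h u := Nat.gcd_pos_of_pos_left _ hh0
  have h2p : 0 < Nat.gcd h v := Nat.gcd_pos_of_pos_left _ hh0
  have g1p : 0 < Nat.gcd g u' := Nat.gcd_pos_of_pos_left _ hg0
  have g2p : 0 < Nat.gcd g v' := Nat.gcd_pos_of_pos_left _ hg0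
  generalize Nat.gcd h u = h1 at *
  generalize Nat.gcd h v = h2 at *
  generalize Nat.gcd g u' = g1 at *
  generalize Nat.gcd g v' = g2 at *
  subst hU hV hW hZ
  have hprod : U * V = W * Z := by
    have e : g * (h1 * U * (h2 * V)) = h * (g1 * W * (g2 * Z)) := by rw [← ea, ← ea']
    have e2 : (g * h) * (U * V) = (g * h) * (W * Z) := by
      calc (g * h) * (U * V) = g * (h1 * U * (h2 * V)) := by rw [← sh]; ring
        _ = h * (g1 * W * (g2 * Z)) := e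
        _ = (g * h) * (W * Z) := by rw [← sg]; ring
    exact Nat.eq_of_mul_eq_mul_left (Nat.mul_pos hg0 hh0) e2
  have cUV : Nat.Coprime U V := Nat.Coprime.coprime_dvd_left (Dvd.intro_left _ rfl)
    (Nat.Coprime.coprime_dvd_right (Dvd.intro_left _ rfl) cuv)
  have cWZ : Nat.Coprime W Z := Nat.Coprime.coprime_dvd_left (Dvd.intro_left _ rfl)
    (Nat.Coprime.coprime_dvd_right (Dvd.intro_left _ rfl) cuv')
  have hUp : 0 < U := Nat.pos_of_mul_pos_left hu0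
  have hVp : 0 < V := Nat.pos_of_mul_pos_left hv
  obtain ⟨f1, f2, f3, f4⟩ := PAR_.four cUV cWZ hprod
  have pp : 0 < Nat.gcd U W := Nat.gcd_pos_of_pos_left _ hUp
  have qp : 0 < Nat.gcd U Z := Nat.gcd_pos_of_pos_left _ hUp
  have rp : 0 < Nat.gcd V W := Nat.gcd_pos_of_pos_left _ hVp
  have sp : 0 < Nat.gcd V Z := Nat.gcd_pos_of_pos_left _ hVp
  generalize Nat.gcd U W = p at *
  generalize Nat.gcd U Z = q at *
  generalize Nat.gcd V W = r at *
  generalize Nat.gcd V Z = s at *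
  subst f1 f2 f3 f4
  rw [← sg, ← sh]
  refine PAR_.core g1p g2p h1p h2p pp qp rp sp cuv cuv' huv huv' ?_ ?_ ?_ hbc
  · rw [ea, ← sg]; ring
  · rw [sg]; exact eb
  · rw [sh]; exact ec

end Pool.Agent.FSQ

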