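import Pool.Agent.FSQ.Targets

set_option autoImplicit false

/-!
# FSQ: Pythagorean pairs with an odd leg
-/

namespace Pool.Agent.FSQ

namespace PYT_

lemma sq_of_coprime {a b c : ℕ} (h : Nat.Coprime a b) (e : a * b = c ^ 2) : ∃ d, a = d ^ 2 :=
  exists_eq_pow_of_mul_eq_pow (by rw [gcd_eq_nat_gcd, h]; exact isUnit_one) e

/-- The primitive case. -/
lemma prim {a b e : ℕ} (ha : Odd a) (hc : Nat.Coprime a b)
    (h : a ^ 2 + b ^ 2 = e ^ 2) (hb : 0 < b) :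
    ∃ u v : ℕ, 0 < v ∧ v < u ∧ Nat.Coprime u v ∧ a = u * v ∧ 2 * b + v ^ 2 = u ^ 2 := by
  have ha0 : 0 < a := ha.pos
  have hbe : b < e := by
    by_contra hcon
    push Not at hcon
    have h1 := Nat.pow_le_pow_left hcon 2
    have h2 : 0 < a ^ 2 := by positivity
    omega
  obtain ⟨x, hx⟩ := Nat.exists_eq_add_of_lt hbe
  -- `x + 1 = e - b`
  have hm : (x + 1) * (e + b) = a ^ 2 := by
    have h1 : e ^ 2 = (b + x + 1) * e := by rw [sq]; nth_rewrite 1 [hx]; rfl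
    have h2 : a ^ 2 + b ^ 2 = (b + x + 1) ^ 2 := by rw [h, hx]
    have h3 : a ^ 2 + b ^ 2 = b ^ 2 + (x + 1) * (2 * b + x + 1) := by rw [h2]; ring
    have h4 : a ^ 2 = (x + 1) * (2 * b + x + 1) := by omega
    rw [h4, hx]
    ring
  have hodd : Odd ((x + 1) * (e + b)) := by rw [hm]; exact ha.pow
  have ho1 : Odd (x + 1) := (Nat.odd_mul.1 hodd).1
  have hcop : Nat.Coprime (x + 1) (e + b) := by
    rw [Nat.coprime_iff_gcd_eq_one] at *
    by_contra hne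
    obtain ⟨p, hp, hpd⟩ := Nat.exists_prime_and_dvd hne
    have hp1 : p ∣ x + 1 := hpd.trans (Nat.gcd_dvd_left _ _)
    have hp2 : p ∣ e + b := hpd.trans (Nat.gcd_dvd_right _ _)
    have hpa : p ∣ a := by
      have h1 : p ∣ a ^ 2 := by rw [← hm]; exact Dvd.dvd.mul_right hp1 _
      exact hp.dvd_of_dvd_pow h1
    have hp3 : p ∣ 2 * b := by
      have h1 : e + b = (x + 1) + 2 * b := by omega
      rw [h1] at hp2
      exact (Nat.dvd_add_right hp1).1 hp2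
    have hp4 : p ≠ 2 := by
      rintro rfl
      exact (Nat.not_even_iff_odd.2 ha) (even_iff_two_dvd.2 hpa)
    have hp5 : p ∣ b := by
      rcases (hp.dvd_mul).1 hp3 with h1 | h1
      · exact absurd ((Nat.prime_dvd_prime_iff_eq hp Nat.prime_two).1 h1) hp4
      · exact h1
    have h1 : p ∣ Nat.gcd a b := Nat.dvd_gcd hpa hp5
    rw [hc] at h1
    exact hp.one_lt.ne' (Nat.dvd_one.1 h1)
  obtain ⟨v, hv⟩ := sq_of_coprime hcop hm
  obtain ⟨u, hu⟩ := sq_of_coprime hcop.symm (by rw [mul_comm]; exact hm)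
  have hv0 : 0 < v := by
    rcases Nat.eq_zero_or_pos v with h1 | h1
    · rw [h1] at hv; simp at hv
    · exact h1
  have huv2 : v ^ 2 < u ^ 2 := by rw [← hv, ← hu]; omega
  refine ⟨u, v, hv0, lt_of_pow_lt_pow_left₀ 2 (Nat.zero_le _) huv2, ?_, ?_, ?_⟩
  · have h1 : Nat.Coprime (v ^ 2) (u ^ 2) := by rw [← hv, ← hu]; exact hcop
    exact ((Nat.coprime_pow_left_iff (by norm_num) v _).1
      ((Nat.coprime_pow_right_iff (by norm_num) _ u).1 h1)).symm
  · have h1 : a ^ 2 = (u * v) ^ 2 := by rw [← hm, hu, hv]; ring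
    exact Nat.pow_left_injective (n := 2) (by norm_num) h1
  · rw [← hu, ← hv]; omega

end PYT_

open PYT_ in
theorem p_PYT : T_PYT := by
  intro a b ha hb hsq
  obtain ⟨z, hz⟩ := hsq
  have hg : 0 < Nat.gcd a b := Nat.gcd_pos_of_pos_right _ hb
  obtain ⟨a', ha'⟩ := Nat.gcd_dvd_left a b
  obtain ⟨b', hb'⟩ := Nat.gcd_dvd_right a b
  have hcop : Nat.Coprime a' b' := by
    have h1 : Nat.gcd (Nat.gcd a b * a') (Nat.gcd a b * b') = Nat.gcd a b := by
      rw [← ha', ← hb']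
    rw [Nat.gcd_mul_left] at h1
    have h2 : Nat.gcd a b * Nat.gcd a' b' = Nat.gcd a b * 1 := by rw [h1, mul_one]
    exact Nat.eq_of_mul_eq_mul_left hg h2
  have hzg : Nat.gcd a b ∣ z := by
    have h1 : Nat.gcd a b ^ 2 ∣ z ^ 2 := by
      rw [sq z, ← hz]
      exact dvd_add (pow_dvd_pow_of_dvd (Nat.gcd_dvd_left a b) 2)
        (pow_dvd_pow_of_dvd (Nat.gcd_dvd_right a b) 2)
    exact (Nat.pow_dvd_pow_iff (by norm_num)).1 h1
  obtain ⟨e, he⟩ := hzg
  have hprim : a' ^ 2 + b' ^ 2 = e ^ 2 := by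
    have h1 : Nat.gcd a b ^ 2 * (a' ^ 2 + b' ^ 2) = Nat.gcd a b ^ 2 * e ^ 2 := by
      calc Nat.gcd a b ^ 2 * (a' ^ 2 + b' ^ 2)
          = (Nat.gcd a b * a') ^ 2 + (Nat.gcd a b * b') ^ 2 := by ring
        _ = a ^ 2 + b ^ 2 := by rw [← ha', ← hb']
        _ = z * z := hz
        _ = (Nat.gcd a b * e) * (Nat.gcd a b * e) := by rw [← he]
        _ = Nat.gcd a b ^ 2 * e ^ 2 := by ring
    exact Nat.eq_of_mul_eq_mul_left (by positivity) h1
  have ha'o : Odd a' := by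
    rw [ha'] at ha
    exact (Nat.odd_mul.1 ha).2
  have hb'0 : 0 < b' := by
    rcases Nat.eq_zero_or_pos b' with h1 | h1
    · rw [h1] at hb'; omega
    · exact h1
  obtain ⟨u, v, hv, huv, hc, h1, h2⟩ := prim ha'o hcop hprim hb'0
  refine ⟨u, v, hv, huv, hc, ?_, ?_⟩
  · rw [← h1]; exact ha'
  · calc 2 * b + Nat.gcd a b * v ^ 2 = 2 * (Nat.gcd a b * b') + Nat.gcd a b * v ^ 2 := by
          rw [← hb']
      _ = Nat.gcd a b * (2 * b' + v ^ 2) := by ring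
      _ = Nat.gcd a b * u ^ 2 := by rw [h2]

end Pool.Agent.FSQ
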