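import Pool.Agent.FSQ.Targets

set_option autoImplicit false

namespace Pool.Agent.FSQ

namespace QAD_

theorem sq_div {a b e : ℕ} (he : 0 < e) (ha : e ∣ a) (hb : e ∣ b) (h : IsSquare (a ^ 2 + b ^ 2)) :
    IsSquare ((a / e) ^ 2 + (b / e) ^ 2) := by
  obtain ⟨a', rfl⟩ := ha
  obtain ⟨b', rfl⟩ := hb
  obtain ⟨z, hz⟩ := h
  rw [Nat.mul_div_cancel_left _ he, Nat.mul_div_cancel_left _ he]
  have h1 : e ^ 2 * (a' ^ 2 + b' ^ 2) = z ^ 2 := by nlinarith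
  have h2 : e ∣ z := (Nat.pow_dvd_pow_iff (two_ne_zero)).1 ⟨_, h1.symm⟩
  obtain ⟨w, rfl⟩ := h2
  refine ⟨w, ?_⟩
  have h3 : e ^ 2 * (a' ^ 2 + b' ^ 2) = e ^ 2 * (w * w) := by rw [h1]; ring
  exact Nat.eq_of_mul_eq_mul_left (by positivity) h3

theorem le_gcd_div {x y e f : ℕ} (he : 0 < e) (hx : 0 < x) (hex : e ∣ x) (hey : e ∣ y)
    (hfx : f ∣ x) (hfy : f ∣ y) (hc : Nat.Coprime e f) (hef : e ≤ f) :
    e ≤ Nat.gcd (x / e) (y / e) := by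
  rw [Nat.gcd_div hex hey]
  have h1 : e * f ∣ Nat.gcd x y :=
    Nat.Coprime.mul_dvd_of_dvd_of_dvd hc (Nat.dvd_gcd hex hey) (Nat.dvd_gcd hfx hfy)
  have h2 : e * f ≤ Nat.gcd x y := Nat.le_of_dvd (Nat.gcd_pos_of_pos_left _ hx) h1
  have h3 : f ≤ Nat.gcd x y / e := by
    rw [Nat.le_div_iff_mul_le he, mul_comm]
    exact h2
  exact hef.trans h3

/-- quadruples for which the first three entries have the least gcd -/
def Q1 (N : ℕ) : Set (ℕ × ℕ × ℕ × ℕ) := {x | x ∈ quadSet N ∧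
  Nat.gcd (Nat.gcd x.1 x.2.1) x.2.2.1 ≤ Nat.gcd (Nat.gcd x.1 x.2.1) x.2.2.2 ∧
  Nat.gcd (Nat.gcd x.1 x.2.1) x.2.2.1 ≤ Nat.gcd (Nat.gcd x.1 x.2.2.1) x.2.2.2 ∧
  Nat.gcd (Nat.gcd x.1 x.2.1) x.2.2.1 ≤ Nat.gcd (Nat.gcd x.2.1 x.2.2.1) x.2.2.2}

theorem mem_tri {N a b c d : ℕ} (h : (a, b, c, d) ∈ Q1 N) :
    1 ≤ Nat.gcd (Nat.gcd a b) c ∧ Nat.gcd (Nat.gcd a b) c ≤ N ∧
    (a / Nat.gcd (Nat.gcd a b) c, b / Nat.gcd (Nat.gcd a b) c, c / Nat.gcd (Nat.gcd a b) c) ∈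
      triSetE (N / Nat.gcd (Nat.gcd a b) c) (Nat.gcd (Nat.gcd a b) c) := by
  obtain ⟨⟨⟨ha, hb, hc, hd, s1, s2, s3, s4, s5, s6⟩, hg, la, lb, lc, ld⟩, m1, m2, m3⟩ := h
  simp only at ha hb hc hd s1 s2 s3 s4 s5 s6 hg la lb lc ld m1 m2 m3
  set e := Nat.gcd (Nat.gcd a b) c with he
  have ea : e ∣ a := (Nat.gcd_dvd_left _ _).trans (Nat.gcd_dvd_left _ _)
  have eb : e ∣ b := (Nat.gcd_dvd_left _ _).trans (Nat.gcd_dvd_right _ _)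
  have ec : e ∣ c := Nat.gcd_dvd_right _ _
  have e0 : 0 < e := Nat.gcd_pos_of_pos_right _ hc
  have key : ∀ f : ℕ, f ∣ d → Nat.Coprime e f := by
    intro f hf
    exact Nat.Coprime.coprime_dvd_right hf hg
  refine ⟨e0, (Nat.le_of_dvd ha ea).trans la, ⟨⟨?_, ?_, ?_, ?_, ?_⟩, ?_, ?_, ?_⟩⟩
  · exact ⟨Nat.div_pos (Nat.le_of_dvd ha ea) e0, Nat.div_pos (Nat.le_of_dvd hb eb) e0,
      Nat.div_pos (Nat.le_of_dvd hc ec) e0, sq_div e0 ea eb s1, sq_div e0 ea ec s2,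
      sq_div e0 eb ec s4⟩
  · show Nat.gcd (Nat.gcd (a / e) (b / e)) (c / e) = 1
    rw [Nat.gcd_div ea eb, Nat.gcd_div (Nat.dvd_gcd ea eb) ec]
    exact Nat.div_self e0
  · exact Nat.div_le_div_right la
  · exact Nat.div_le_div_right lb
  · exact Nat.div_le_div_right lc
  · exact le_gcd_div e0 ha ea eb ((Nat.gcd_dvd_left _ _).trans (Nat.gcd_dvd_left _ _))
      ((Nat.gcd_dvd_left _ _).trans (Nat.gcd_dvd_right _ _)) (key _ (Nat.gcd_dvd_right _ _)) m1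
  · exact le_gcd_div e0 ha ea ec ((Nat.gcd_dvd_left _ _).trans (Nat.gcd_dvd_left _ _))
      ((Nat.gcd_dvd_left _ _).trans (Nat.gcd_dvd_right _ _)) (key _ (Nat.gcd_dvd_right _ _)) m2
  · exact le_gcd_div e0 hb eb ec ((Nat.gcd_dvd_left _ _).trans (Nat.gcd_dvd_left _ _))
      ((Nat.gcd_dvd_left _ _).trans (Nat.gcd_dvd_right _ _)) (key _ (Nat.gcd_dvd_right _ _)) m3

theorem triSetE_finite (N e : ℕ) : (triSetE N e).Finite := by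
  apply Set.Finite.subset (Finset.finite_toSet (Finset.Icc 0 N ×ˢ Finset.Icc 0 N ×ˢ
    Finset.Icc 0 N))
  rintro ⟨a, b, c⟩ ⟨⟨_, _, h1, h2, h3⟩, _⟩
  simp only at h1 h2 h3
  simp [h1, h2, h3]

theorem quadSet_finite (N : ℕ) : (quadSet N).Finite := by
  apply Set.Finite.subset (Finset.finite_toSet (Finset.Icc 0 N ×ˢ Finset.Icc 0 N ×ˢ
    Finset.Icc 0 N ×ˢ Finset.Icc 0 N))
  rintro ⟨a, b, c, d⟩ ⟨_, _, h1, h2, h3, h4⟩
  simp only at h1 h2 h3 h4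
  simp [h1, h2, h3, h4]

theorem Q1_finite (N : ℕ) : (Q1 N).Finite := (quadSet_finite N).subset fun _ h => h.1

theorem bound_min {u v : ℝ} (hu : 0 < u) (hv : 0 < v) :
    min u v ≤ u ^ ((4 : ℝ) / 5) * v ^ ((1 : ℝ) / 5) := by
  have hm : 0 < min u v := lt_min hu hv
  have h1 : (min u v) ^ ((4 : ℝ) / 5) ≤ u ^ ((4 : ℝ) / 5) :=
    Real.rpow_le_rpow hm.le (min_le_left _ _) (by norm_num)
  have h2 : (min u v) ^ ((1 : ℝ) / 5) ≤ v ^ ((1 : ℝ) / 5) :=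
    Real.rpow_le_rpow hm.le (min_le_right _ _) (by norm_num)
  have h3 : min u v = (min u v) ^ ((4 : ℝ) / 5) * (min u v) ^ ((1 : ℝ) / 5) := by
    rw [← Real.rpow_add hm]; norm_num
  rw [h3]
  exact mul_le_mul h1 h2 (by positivity) (by positivity)

theorem rpow_calc {N e M : ℝ} (hN : 0 < N) (he : 0 < e) (hM : 0 < M) (hMe : M ≤ N / e) :
    min (M ^ ((7 : ℝ) / 8)) (M / Real.sqrt e) ≤ N ^ ((9 : ℝ) / 10) * (1 / e) := by
  have hse : 0 < Real.sqrt e := Real.sqrt_pos.2 he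
  have hNe : 0 < N / e := by positivity
  have h1 : min (M ^ ((7 : ℝ) / 8)) (M / Real.sqrt e) ≤
      min ((N / e) ^ ((7 : ℝ) / 8)) ((N / e) / Real.sqrt e) := by
    apply min_le_min
    · exact Real.rpow_le_rpow hM.le hMe (by norm_num)
    · exact div_le_div_of_nonneg_right hMe hse.le
  refine h1.trans ((bound_min (by positivity) (by positivity)).trans (le_of_eq ?_))
  rw [← Real.rpow_mul hNe.le, Real.sqrt_eq_rpow, Real.div_rpow hN.le he.le, div_div,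
    Real.div_rpow hN.le (by positivity), Real.mul_rpow he.le (by positivity),
    ← Real.rpow_mul he.le]
  have e1 : e = e ^ ((7 : ℝ) / 8 * (4 / 5)) * (e ^ ((1 : ℝ) / 5) * e ^ ((1 : ℝ) / 2 * (1 / 5))) := by
    rw [← Real.rpow_add he, ← Real.rpow_add he]
    norm_num
  have e2 : N ^ ((9 : ℝ) / 10) = N ^ ((7 : ℝ) / 8 * (4 / 5)) * N ^ ((1 : ℝ) / 5) := by
    rw [← Real.rpow_add hN]
    norm_num
  rw [e2]
  conv_rhs => rw [e1]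
  field_simp

theorem harm_le (N : ℕ) :
    ∑ e ∈ Finset.Icc 1 N, 1 / (e : ℝ) ≤ 1 + Real.log N := by
  have h := harmonic_le_one_add_log N
  have h2 : ((harmonic N : ℚ) : ℝ) = ∑ e ∈ Finset.Icc 1 N, 1 / (e : ℝ) := by
    rw [harmonic_eq_sum_Icc]
    push_cast
    exact Finset.sum_congr rfl fun _ _ => by rw [one_div]
  rw [← h2]
  exact h

theorem one_add_log_le (ε : ℝ) (hε : 0 < ε) (N : ℕ) (hN : 1 ≤ N) :
    1 + Real.log N ≤ (1 + 1 / ε) * (N : ℝ) ^ ε := by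
  have hN1 : (1 : ℝ) ≤ N := by exact_mod_cast hN
  have h1 : Real.log N ≤ (N : ℝ) ^ ε / ε := Real.log_le_rpow_div (by positivity) hε
  have h2 : (1 : ℝ) ≤ (N : ℝ) ^ ε := Real.one_le_rpow hN1 hε.le
  have h3 : (1 + 1 / ε) * (N : ℝ) ^ ε = (N : ℝ) ^ ε + (N : ℝ) ^ ε / ε := by ring
  rw [h3]
  linarith

theorem Q1_bound (hTRI : T_TRI) (hDVS : T_DVS) (ε : ℝ) (hε : 0 < ε) : ∃ C : ℝ, 0 < C ∧
    ∀ N : ℕ, 1 ≤ N → (((Q1 N).ncard : ℕ) : ℝ) ≤ C * (N : ℝ) ^ ((9 : ℝ) / 10 + ε) := by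
  classical
  have hε3 : 0 < ε / 3 := by positivity
  obtain ⟨C₁, hC₁, h1⟩ := hTRI (ε / 3) hε3
  obtain ⟨C₂, hC₂, h2⟩ := hDVS (ε / 3) hε3
  refine ⟨C₁ * C₂ * (1 + 1 / (ε / 3)), by positivity, fun N hN => ?_⟩
  have hN0 : (0 : ℝ) < N := by exact_mod_cast hN
  have hN1 : (1 : ℝ) ≤ N := by exact_mod_cast hN
  -- finite sets
  let T : ℕ → Finset (ℕ × ℕ × ℕ) := fun e => (triSetE_finite (N / e) e).toFinset
  let D : ℕ → Finset ℕ := fun a =>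
    if ha : 1 ≤ a then (h2 a ha).1.toFinset else ∅
  let W : Finset (ℕ × ℕ × ℕ × ℕ) := (Finset.Icc 1 N).biUnion fun e => (T e).biUnion fun t =>
    (D (e * t.1)).image fun d => (e * t.1, e * t.2.1, e * t.2.2, d)
  have hsub : Q1 N ⊆ (W : Set (ℕ × ℕ × ℕ × ℕ)) := by
    rintro ⟨a, b, c, d⟩ hx
    obtain ⟨e1, e2, e3⟩ := mem_tri hx
    obtain ⟨⟨⟨ha, hb, hc, hd, s1, s2, s3, s4, s5, s6⟩, hg, la, lb, lc, ld⟩, m1, m2, m3⟩ := hx
    simp only at ha hb hc hd s1 s2 s3 s4 s5 s6 hg la lb lc ld m1 m2 m3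
    set e := Nat.gcd (Nat.gcd a b) c with he
    have ea : e ∣ a := (Nat.gcd_dvd_left _ _).trans (Nat.gcd_dvd_left _ _)
    have eb : e ∣ b := (Nat.gcd_dvd_left _ _).trans (Nat.gcd_dvd_right _ _)
    have ec : e ∣ c := Nat.gcd_dvd_right _ _
    rw [Finset.mem_coe]
    simp only [W, Finset.mem_biUnion, Finset.mem_image, Finset.mem_Icc]
    refine ⟨e, ⟨e1, e2⟩, (a / e, b / e, c / e), ?_, d, ?_, ?_⟩
    · simp only [T, Set.Finite.mem_toFinset]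
      exact e3
    · simp only [D]
      rw [Nat.mul_div_cancel' ea, dif_pos (show 1 ≤ a from ha)]
      simp only [Set.Finite.mem_toFinset, Set.mem_ofPred_eq]
      exact ⟨hd, s3⟩
    · simp only [Nat.mul_div_cancel' ea, Nat.mul_div_cancel' eb, Nat.mul_div_cancel' ec]
  have hcard : (Q1 N).ncard ≤ W.card := by
    rw [← Set.ncard_coe_finset]
    exact Set.ncard_le_ncard hsub (Finset.finite_toSet _)
  -- bound of D
  have hD : ∀ e ∈ Finset.Icc 1 N, ∀ t ∈ T e, ((D (e * t.1)).card : ℝ) ≤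
      C₂ * (N : ℝ) ^ (ε / 3) := by
    intro e he t ht
    simp only [T, Set.Finite.mem_toFinset] at ht
    rw [Finset.mem_Icc] at he
    have ht1 : 0 < t.1 := ht.1.1.1
    have ht2 : t.1 ≤ N / e := ht.1.2.2.1
    have h3 : 1 ≤ e * t.1 := Nat.mul_pos (by omega) ht1
    have h4 : e * t.1 ≤ N := by
      calc e * t.1 ≤ e * (N / e) := Nat.mul_le_mul_left _ ht2
        _ ≤ N := Nat.mul_div_le _ _
    simp only [D]
    rw [dif_pos h3, ← Set.ncard_eq_toFinset_card _ (h2 _ h3).1]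
    refine (h2 _ h3).2.trans ?_
    have : ((e * t.1 : ℕ) : ℝ) ≤ N := by exact_mod_cast h4
    exact mul_le_mul_of_nonneg_left (Real.rpow_le_rpow (by positivity) this hε3.le) hC₂.le
  -- bound of T
  have hT : ∀ e ∈ Finset.Icc 1 N, ((T e).card : ℝ) ≤
      C₁ * (N : ℝ) ^ (ε / 3) * ((N : ℝ) ^ ((9 : ℝ) / 10) * (1 / e)) := by
    intro e he
    rw [Finset.mem_Icc] at he
    have he0 : (0 : ℝ) < e := by exact_mod_cast he.1
    have h3 : 1 ≤ N / e := Nat.div_pos he.2 he.1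
    have h4 := h1 (N / e) e h3 he.1
    have h5 : ((N / e : ℕ) : ℝ) ≤ (N : ℝ) / e := Nat.cast_div_le
    have h6 : (0 : ℝ) < ((N / e : ℕ) : ℝ) := by exact_mod_cast h3
    have h7 : ((N / e : ℕ) : ℝ) ≤ N := by exact_mod_cast Nat.div_le_self N e
    have h8 : ((T e).card : ℝ) = (((triSetE (N / e) e).ncard : ℕ) : ℝ) := by
      simp only [T]
      rw [← Set.ncard_eq_toFinset_card _ (triSetE_finite _ _)]
    rw [h8]
    refine h4.trans ?_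
    have h9 := rpow_calc hN0 he0 h6 h5
    have h10 : ((N / e : ℕ) : ℝ) ^ (ε / 3) ≤ (N : ℝ) ^ (ε / 3) :=
      Real.rpow_le_rpow h6.le h7 hε3.le
    have h11 : 0 ≤ min (((N / e : ℕ) : ℝ) ^ ((7 : ℝ) / 8)) (((N / e : ℕ) : ℝ) / Real.sqrt e) :=
      le_min (by positivity) (by positivity)
    exact mul_le_mul (mul_le_mul_of_nonneg_left h10 hC₁.le) h9 h11 (by positivity)
  have hW : (W.card : ℝ) ≤ ∑ e ∈ Finset.Icc 1 N,
      C₁ * (N : ℝ) ^ (ε / 3) * ((N : ℝ) ^ ((9 : ℝ) / 10) * (1 / e)) *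
        (C₂ * (N : ℝ) ^ (ε / 3)) := by
    have h3 : W.card ≤ ∑ e ∈ Finset.Icc 1 N, ∑ t ∈ T e, (D (e * t.1)).card := by
      refine Finset.card_biUnion_le.trans (Finset.sum_le_sum fun e _ => ?_)
      refine Finset.card_biUnion_le.trans (Finset.sum_le_sum fun t _ => ?_)
      exact Finset.card_image_le
    have h4 : (W.card : ℝ) ≤ ∑ e ∈ Finset.Icc 1 N, ∑ t ∈ T e, ((D (e * t.1)).card : ℝ) := by
      exact_mod_cast h3
    refine h4.trans (Finset.sum_le_sum fun e he => ?_)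
    calc ∑ t ∈ T e, ((D (e * t.1)).card : ℝ) ≤ ∑ _t ∈ T e, C₂ * (N : ℝ) ^ (ε / 3) :=
          Finset.sum_le_sum fun t ht => hD e he t ht
      _ = (T e).card * (C₂ * (N : ℝ) ^ (ε / 3)) := by rw [Finset.sum_const, nsmul_eq_mul]
      _ ≤ _ := mul_le_mul_of_nonneg_right (hT e he) (by positivity)
  have hsum : ∑ e ∈ Finset.Icc 1 N,
      C₁ * (N : ℝ) ^ (ε / 3) * ((N : ℝ) ^ ((9 : ℝ) / 10) * (1 / e)) *
        (C₂ * (N : ℝ) ^ (ε / 3)) =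
      C₁ * C₂ * (N : ℝ) ^ ((9 : ℝ) / 10 + 2 * (ε / 3)) * ∑ e ∈ Finset.Icc 1 N, 1 / (e : ℝ) := by
    rw [Finset.mul_sum]
    refine Finset.sum_congr rfl fun e _ => ?_
    have : (N : ℝ) ^ ((9 : ℝ) / 10 + 2 * (ε / 3)) =
        (N : ℝ) ^ ((9 : ℝ) / 10) * ((N : ℝ) ^ (ε / 3) * (N : ℝ) ^ (ε / 3)) := by
      rw [← Real.rpow_add hN0, ← Real.rpow_add hN0]
      congr 1
      ring
    rw [this]
    ring
  rw [hsum] at hW
  have h5 : (((Q1 N).ncard : ℕ) : ℝ) ≤ (W.card : ℝ) := by exact_mod_cast hcard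
  refine (h5.trans hW).trans ?_
  have h6 := (harm_le N).trans (one_add_log_le (ε / 3) hε3 N hN)
  calc C₁ * C₂ * (N : ℝ) ^ ((9 : ℝ) / 10 + 2 * (ε / 3)) * ∑ e ∈ Finset.Icc 1 N, 1 / (e : ℝ)
      ≤ C₁ * C₂ * (N : ℝ) ^ ((9 : ℝ) / 10 + 2 * (ε / 3)) *
        ((1 + 1 / (ε / 3)) * (N : ℝ) ^ (ε / 3)) := mul_le_mul_of_nonneg_left h6 (by positivity)
    _ = C₁ * C₂ * (1 + 1 / (ε / 3)) * (N : ℝ) ^ ((9 : ℝ) / 10 + ε) := by
        have : (N : ℝ) ^ ((9 : ℝ) / 10 + ε) =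
            (N : ℝ) ^ ((9 : ℝ) / 10 + 2 * (ε / 3)) * (N : ℝ) ^ (ε / 3) := by
          rw [← Real.rpow_add hN0]
          congr 1
          ring
        rw [this]
        ring

/-- gcd of three numbers -/
theorem g3_comm (a b c : ℕ) : Nat.gcd (Nat.gcd a b) c = Nat.gcd (Nat.gcd a c) b := by
  rw [Nat.gcd_assoc, Nat.gcd_comm b c, ← Nat.gcd_assoc]

theorem g3_comm' (a b c : ℕ) : Nat.gcd (Nat.gcd a b) c = Nat.gcd (Nat.gcd b a) c := by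
  rw [Nat.gcd_comm a b]

theorem g3_rev (a b c : ℕ) : Nat.gcd (Nat.gcd a b) c = Nat.gcd (Nat.gcd c b) a := by
  rw [g3_comm, Nat.gcd_comm a c, g3_comm]

/-- the sets with the other triples minimal -/
def Qi (N : ℕ) (σ : ℕ × ℕ × ℕ × ℕ → ℕ × ℕ × ℕ × ℕ) : Set (ℕ × ℕ × ℕ × ℕ) :=
  {x | x ∈ quadSet N ∧ σ x ∈ Q1 N}

def s2 (x : ℕ × ℕ × ℕ × ℕ) : ℕ × ℕ × ℕ × ℕ := (x.1, x.2.1, x.2.2.2, x.2.2.1)
def s3 (x : ℕ × ℕ × ℕ × ℕ) : ℕ × ℕ × ℕ × ℕ := (x.1, x.2.2.2, x.2.2.1, x.2.1)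
def s4 (x : ℕ × ℕ × ℕ × ℕ) : ℕ × ℕ × ℕ × ℕ := (x.2.2.2, x.2.1, x.2.2.1, x.1)

theorem Qi_card (N : ℕ) (σ : ℕ × ℕ × ℕ × ℕ → ℕ × ℕ × ℕ × ℕ) (hσ : Function.Injective σ) :
    (Qi N σ).ncard ≤ (Q1 N).ncard :=
  Set.ncard_le_ncard_of_injOn σ (fun _ h => h.2) hσ.injOn (Q1_finite N)

theorem inj2 : Function.Injective s2 := by
  rintro ⟨a, b, c, d⟩ ⟨a', b', c', d'⟩ h
  simp only [s2, Prod.mk.injEq] at h ⊢
  tauto

theorem inj3 : Function.Injective s3 := by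
  rintro ⟨a, b, c, d⟩ ⟨a', b', c', d'⟩ h
  simp only [s3, Prod.mk.injEq] at h ⊢
  tauto

theorem inj4 : Function.Injective s4 := by
  rintro ⟨a, b, c, d⟩ ⟨a', b', c', d'⟩ h
  simp only [s4, Prod.mk.injEq] at h ⊢
  tauto

theorem cover (N : ℕ) : quadSet N ⊆ Q1 N ∪ Qi N s2 ∪ Qi N s3 ∪ Qi N s4 := by
  rintro ⟨a, b, c, d⟩ h
  have h' := h
  obtain ⟨⟨ha, hb, hc, hd, q1, q2, q3, q4, q5, q6⟩, hg, la, lb, lc, ld⟩ := h'
  simp only at ha hb hc hd q1 q2 q3 q4 q5 q6 hg la lb lc ld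
  -- the four gcds
  obtain ⟨e1, he1⟩ : ∃ e, e = Nat.gcd (Nat.gcd a b) c := ⟨_, rfl⟩
  obtain ⟨e2, he2⟩ : ∃ e, e = Nat.gcd (Nat.gcd a b) d := ⟨_, rfl⟩
  obtain ⟨e3, he3⟩ : ∃ e, e = Nat.gcd (Nat.gcd a c) d := ⟨_, rfl⟩
  obtain ⟨e4, he4⟩ : ∃ e, e = Nat.gcd (Nat.gcd b c) d := ⟨_, rfl⟩
  have cases : (e1 ≤ e2 ∧ e1 ≤ e3 ∧ e1 ≤ e4) ∨ (e2 ≤ e1 ∧ e2 ≤ e3 ∧ e2 ≤ e4) ∨
      (e3 ≤ e1 ∧ e3 ≤ e2 ∧ e3 ≤ e4) ∨ (e4 ≤ e1 ∧ e4 ≤ e2 ∧ e4 ≤ e3) := by omega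
  have hdvd : ∀ x y z w : ℕ, Nat.gcd (Nat.gcd (Nat.gcd x y) z) w ∣ x ∧
      Nat.gcd (Nat.gcd (Nat.gcd x y) z) w ∣ y ∧ Nat.gcd (Nat.gcd (Nat.gcd x y) z) w ∣ z ∧
      Nat.gcd (Nat.gcd (Nat.gcd x y) z) w ∣ w := by
    intro x y z w
    exact ⟨(Nat.gcd_dvd_left _ _).trans ((Nat.gcd_dvd_left _ _).trans (Nat.gcd_dvd_left _ _)),
      (Nat.gcd_dvd_left _ _).trans ((Nat.gcd_dvd_left _ _).trans (Nat.gcd_dvd_right _ _)),
      (Nat.gcd_dvd_left _ _).trans (Nat.gcd_dvd_right _ _), Nat.gcd_dvd_right _ _⟩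
  have hone : ∀ k : ℕ, k ∣ a → k ∣ b → k ∣ c → k ∣ d → k = 1 := by
    intro k k1 k2 k3 k4
    have := Nat.dvd_gcd (Nat.dvd_gcd (Nat.dvd_gcd k1 k2) k3) k4
    rw [hg] at this
    exact Nat.dvd_one.1 this
  rcases cases with h1 | h1 | h1 | h1
  · left; left; left
    subst he1 he2 he3 he4
    exact ⟨h, h1⟩
  · left; left; right
    refine ⟨h, ⟨⟨ha, hb, hd, hc, q1, q3, q2, q5, q4, by rw [add_comm]; exact q6⟩, ?_, la, lb,
      ld, lc⟩, ?_, ?_, ?_⟩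
    · obtain ⟨k1, k2, k3, k4⟩ := hdvd a b d c
      exact hone _ k1 k2 k4 k3
    · show Nat.gcd (Nat.gcd a b) d ≤ Nat.gcd (Nat.gcd a b) c
      omega
    · show Nat.gcd (Nat.gcd a b) d ≤ Nat.gcd (Nat.gcd a d) c
      rw [g3_comm a d c]
      omega
    · show Nat.gcd (Nat.gcd a b) d ≤ Nat.gcd (Nat.gcd b d) c
      rw [g3_comm b d c]
      omega
  · left; right
    refine ⟨h, ⟨⟨ha, hd, hc, hb, q3, q2, q1, by rw [add_comm]; exact q6,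
      by rw [add_comm]; exact q5, by rw [add_comm]; exact q4⟩, ?_, la, ld, lc, lb⟩, ?_, ?_, ?_⟩
    · obtain ⟨k1, k2, k3, k4⟩ := hdvd a d c b
      exact hone _ k1 k4 k3 k2
    · show Nat.gcd (Nat.gcd a d) c ≤ Nat.gcd (Nat.gcd a d) b
      rw [g3_comm a d c, g3_comm a d b]
      omega
    · show Nat.gcd (Nat.gcd a d) c ≤ Nat.gcd (Nat.gcd a c) b
      rw [g3_comm a d c, g3_comm a c b]
      omega
    · show Nat.gcd (Nat.gcd a d) c ≤ Nat.gcd (Nat.gcd d c) b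
      rw [g3_comm a d c, g3_rev d c b]
      omega
  · right
    refine ⟨h, ⟨⟨hd, hb, hc, ha, by rw [add_comm]; exact q5, by rw [add_comm]; exact q6,
      by rw [add_comm]; exact q3, q4, by rw [add_comm]; exact q1, by rw [add_comm]; exact q2⟩,
      ?_, ld, lb, lc, la⟩, ?_, ?_, ?_⟩
    · obtain ⟨k1, k2, k3, k4⟩ := hdvd d b c a
      exact hone _ k4 k2 k3 k1
    · show Nat.gcd (Nat.gcd d b) c ≤ Nat.gcd (Nat.gcd d b) a
      rw [g3_rev d b c, Nat.gcd_comm c b, g3_rev d b a]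
      omega
    · show Nat.gcd (Nat.gcd d b) c ≤ Nat.gcd (Nat.gcd d c) a
      rw [g3_rev d b c, Nat.gcd_comm c b, g3_rev d c a]
      omega
    · show Nat.gcd (Nat.gcd d b) c ≤ Nat.gcd (Nat.gcd b c) a
      rw [g3_rev d b c, Nat.gcd_comm c b, g3_rev b c a, g3_comm a c b]
      omega

end QAD_

open QAD_ in
theorem p_QAD (hTRI : T_TRI) (hDVS : T_DVS) : T_QAD := by
  intro ε hε
  obtain ⟨C, hC, h⟩ := Q1_bound hTRI hDVS ε hε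
  refine ⟨4 * C, by positivity, fun N hN => ?_⟩
  have f1 := Q1_finite N
  have f2 : (Qi N s2).Finite := (quadSet_finite N).subset fun _ h => h.1
  have f3 : (Qi N s3).Finite := (quadSet_finite N).subset fun _ h => h.1
  have f4 : (Qi N s4).Finite := (quadSet_finite N).subset fun _ h => h.1
  have c0 : (quadSet N).ncard ≤ (Q1 N ∪ Qi N s2 ∪ Qi N s3 ∪ Qi N s4).ncard :=
    Set.ncard_le_ncard (cover N) (((f1.union f2).union f3).union f4)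
  have c1 := Set.ncard_union_le (Q1 N ∪ Qi N s2 ∪ Qi N s3) (Qi N s4)
  have c2 := Set.ncard_union_le (Q1 N ∪ Qi N s2) (Qi N s3)
  have c3 := Set.ncard_union_le (Q1 N) (Qi N s2)
  have d2 := Qi_card N s2 inj2
  have d3 := Qi_card N s3 inj3
  have d4 := Qi_card N s4 inj4
  have c4 : (quadSet N).ncard ≤ 4 * (Q1 N).ncard := by omega
  have c5 : (((quadSet N).ncard : ℕ) : ℝ) ≤ 4 * (((Q1 N).ncard : ℕ) : ℝ) := by
    exact_mod_cast c4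
  have := h N hN
  linarith

end Pool.Agent.FSQ
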