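import Pool.Agent.FSQ.Targets

set_option autoImplicit false

/-!
# FSQ: proof of T_QRT (the quartic forms in each of the four pairs)
-/

namespace Pool.Agent.FSQ

open Finset
open scoped BigOperators

namespace QRT_

/-- irrationality of the square root of two -/
theorem two_sq {m n : ℤ} (h : m ^ 2 = 2 * n ^ 2) : n = 0 := by
  by_contra hn
  apply irrational_sqrt_two
  refine ⟨|(m : ℚ) / n|, ?_⟩
  rw [Rat.cast_abs, ← Real.sqrt_sq_eq_abs]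
  congr 1
  push_cast
  have hn' : (n : ℝ) ≠ 0 := by exact_mod_cast hn
  rw [div_pow, div_eq_iff (pow_ne_zero 2 hn')]
  exact_mod_cast h

theorem sq_add {x y : ℤ} (hx : 0 < x) (hy : 0 < y) (hyx : y ^ 2 < x ^ 2) :
    (x ^ 2 - y ^ 2) ^ 2 ≠ 4 * x ^ 2 * y ^ 2 := by
  intro h
  have h1 : (x ^ 2 - y ^ 2) ^ 2 = (2 * x * y) ^ 2 := by rw [h]; ring
  have h2 : x ^ 2 - y ^ 2 = 2 * x * y := by
    have h3 : 0 ≤ x ^ 2 - y ^ 2 := by linarith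
    have h4 : 0 ≤ 2 * x * y := by positivity
    exact (pow_left_inj₀ h3 h4 two_ne_zero).1 h1
  have h3 : (x - y) ^ 2 = 2 * y ^ 2 := by linarith [h2, sq (x - y)]
  exact hy.ne' (two_sq h3)

/-- the discriminant in the cases 0 and 1 -/
theorem disc {X Y x y : ℤ} (hx : 0 < x) (hy : 0 < y) (hX : X = x ^ 2) (hY : Y = y ^ 2)
    (hYX : Y < X) : (X ^ 2 + Y ^ 2 - 4 * X * Y) ^ 2 ≠ 4 * (X * Y) ^ 2 := by
  intro h
  have h1 : (X - Y) ^ 2 * ((X - Y) ^ 2 - 4 * X * Y) = 0 := by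
    have : (X - Y) ^ 2 * ((X - Y) ^ 2 - 4 * X * Y) =
      (X ^ 2 + Y ^ 2 - 4 * X * Y) ^ 2 - 4 * (X * Y) ^ 2 := by ring
    rw [this, h, sub_self]
  rcases mul_eq_zero.1 h1 with h2 | h2
  · have := pow_eq_zero_iff two_ne_zero |>.1 h2
    linarith
  · rw [hX, hY] at hYX h2
    exact sq_add hx hy hYX (by linarith)

/-- sizes -/
theorem bnd1 {u b c P : ℤ} (hP : 1 ≤ P) (hu : 0 ≤ u) (huP : u ≤ P) (hb : 0 ≤ b)
    (hbP : b ≤ P ^ 2) (hc : 0 ≤ c) (hcP : c ≤ P ^ 2) :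
    |u ^ 2 * (b ^ 2 + c ^ 2)| ≤ 8 * P ^ 8 := by
  rw [abs_of_nonneg (by positivity)]
  have h1 : u ^ 2 ≤ P ^ 2 := by gcongr
  have h2 : b ^ 2 ≤ (P ^ 2) ^ 2 := by gcongr
  have h3 : c ^ 2 ≤ (P ^ 2) ^ 2 := by gcongr
  calc u ^ 2 * (b ^ 2 + c ^ 2) ≤ P ^ 2 * ((P ^ 2) ^ 2 + (P ^ 2) ^ 2) := by gcongr
    _ = 2 * P ^ 6 := by ring
    _ ≤ 8 * P ^ 8 := by
        have h4 : P ^ 6 ≤ P ^ 8 := pow_le_pow_right₀ hP (by norm_num)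
        have h5 : 0 ≤ P ^ 8 := by positivity
        linarith

theorem bnd2 {v b c P : ℤ} (hP : 1 ≤ P) (hv : 0 ≤ v) (hvP : v ≤ P) (hb : 0 ≤ b)
    (hbP : b ≤ P ^ 2) (hc : 0 ≤ c) (hcP : c ≤ P ^ 2) :
    |-(4 * v * (b * c))| ≤ 8 * P ^ 8 := by
  rw [abs_neg, abs_of_nonneg (by positivity)]
  calc 4 * v * (b * c) ≤ 4 * P * (P ^ 2 * P ^ 2) := by gcongr
    _ = 4 * P ^ 5 := by ring
    _ ≤ 8 * P ^ 8 := by
        have h4 : P ^ 5 ≤ P ^ 8 := pow_le_pow_right₀ hP (by norm_num)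
        have h5 : 0 ≤ P ^ 8 := by positivity
        linarith

theorem bnd3 {x y P : ℤ} (hx : 0 ≤ x) (hxP : x ≤ P ^ 2) (hy : 0 ≤ y)
    (hyP : y ≤ P ^ 2) : |(x * y) ^ 2| ≤ 8 * P ^ 8 := by
  rw [abs_of_nonneg (by positivity)]
  calc (x * y) ^ 2 ≤ (P ^ 2 * P ^ 2) ^ 2 := by gcongr
    _ = P ^ 8 := by ring
    _ ≤ 8 * P ^ 8 := by
        have h5 : 0 ≤ P ^ 8 := by positivity
        linarith

theorem bnd4 {X Y P : ℤ} (hX : 0 ≤ X) (hXP : X ≤ P ^ 4) (hY : 0 ≤ Y)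
    (hYP : Y ≤ P ^ 4) : |X ^ 2 + Y ^ 2 - 4 * X * Y| ≤ 8 * P ^ 8 := by
  have h1 : X ^ 2 ≤ (P ^ 4) ^ 2 := by gcongr
  have h2 : Y ^ 2 ≤ (P ^ 4) ^ 2 := by gcongr
  have h3 : X * Y ≤ P ^ 4 * P ^ 4 := by gcongr
  have h4 : 0 ≤ X * Y := by positivity
  have h5 : (P ^ 4) ^ 2 = P ^ 8 := by ring
  have h6 : P ^ 4 * P ^ 4 = P ^ 8 := by ring
  rw [abs_le]
  constructor <;> nlinarith

theorem dvd_le {m M : ℕ} (hM : 0 < M) (h : m ∣ M) : (m : ℤ) ≤ (M : ℤ) := by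
  exact_mod_cast Nat.le_of_dvd hM h

/-- the product of the eight parameters -/
theorem prd_eq (t : Fin 4 → ℕ × ℕ) : prd t =
    (t 0).1 * (t 0).2 * ((t 1).1 * (t 1).2) * ((t 2).1 * (t 2).2) * ((t 3).1 * (t 3).2) := by
  unfold prd
  rw [Fin.prod_univ_four]

/-- the claim for one pair -/
def Claim (i : Fin 4) (α β γ : (Fin 4 → ℕ × ℕ) → ℤ) : Prop := ∀ t, Adm t →
  Good (α (Function.update t i (1, 1))) (β (Function.update t i (1, 1)))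
      (γ (Function.update t i (1, 1))) ∧
    |α (Function.update t i (1, 1))| ≤ 8 * (prd t : ℤ) ^ 8 ∧
    |β (Function.update t i (1, 1))| ≤ 8 * (prd t : ℤ) ^ 8 ∧
    |γ (Function.update t i (1, 1))| ≤ 8 * (prd t : ℤ) ^ 8 ∧
    F8 t = Qz (α (Function.update t i (1, 1))) (β (Function.update t i (1, 1)))
      (γ (Function.update t i (1, 1))) (t i).1 (t i).2

theorem prd_pos {t : Fin 4 → ℕ × ℕ} (h : ∀ j, 0 < (t j).1 ∧ 0 < (t j).2) : 0 < prd t :=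
  prod_pos fun j _ => Nat.mul_pos (h j).1 (h j).2

/-- degenerate quartics in the cases 2 and 3 -/
theorem deg {v b c : ℤ} (hv : 0 < v) (hb : 0 < b) (hc : 0 < c)
    (h : (4 * v * (b * c)) ^ 2 = 4 * (v ^ 2 * (b ^ 2 + c ^ 2) ^ 2)) : b = c := by
  have h1 : v ^ 2 * (b ^ 2 - c ^ 2) ^ 2 = 0 := by
    have : v ^ 2 * (b ^ 2 - c ^ 2) ^ 2 =
      (4 * (v ^ 2 * (b ^ 2 + c ^ 2) ^ 2) - (4 * v * (b * c)) ^ 2) / 4 := by
      have h2 : 4 * (v ^ 2 * (b ^ 2 + c ^ 2) ^ 2) - (4 * v * (b * c)) ^ 2 =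
        4 * (v ^ 2 * (b ^ 2 - c ^ 2) ^ 2) := by ring
      rw [h2, Int.mul_ediv_cancel_left _ (by norm_num)]
    rw [this, h, sub_self]
    rfl
  have h2 : (b ^ 2 - c ^ 2) ^ 2 = 0 := by
    rcases mul_eq_zero.1 h1 with h3 | h3
    · exact absurd (pow_eq_zero_iff two_ne_zero |>.1 h3) hv.ne'
    · exact h3
  have h3 : b ^ 2 = c ^ 2 := by
    have := pow_eq_zero_iff two_ne_zero |>.1 h2
    linarith
  exact (pow_left_inj₀ hb.le hc.le two_ne_zero).1 h3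

theorem case2 : Claim 2
    (fun t => (((t 1).1 * (t 0).1 : ℕ) : ℤ) ^ 2 * ((B1 t : ℤ) ^ 2 + (B2 t : ℤ) ^ 2))
    (fun t => -(4 * (((t 1).1 * (t 1).2 * (t 0).1 * (t 0).2 : ℕ) : ℤ) *
      ((B1 t : ℤ) * (B2 t : ℤ))))
    (fun t => (((t 1).2 * (t 0).2 : ℕ) : ℤ) ^ 2 * ((B1 t : ℤ) ^ 2 + (B2 t : ℤ) ^ 2)) := by
  intro t ht
  have e0 : Function.update t 2 (1, 1) 0 = t 0 := Function.update_of_ne (by decide) _ _
  have e1 : Function.update t 2 (1, 1) 1 = t 1 := Function.update_of_ne (by decide) _ _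
  have e3 : Function.update t 2 (1, 1) 3 = t 3 := Function.update_of_ne (by decide) _ _
  have eB1 : B1 (Function.update t 2 (1, 1)) = B1 t := by unfold B1; rw [e0, e1, e3]
  have eB2 : B2 (Function.update t 2 (1, 1)) = B2 t := by unfold B2; rw [e0, e1, e3]
  simp only [e0, e1, eB1, eB2]
  obtain ⟨hpos, hlt1, hlt2, hsq⟩ := ht
  have hpos' : ∀ j, 0 < (t j).1 ∧ 0 < (t j).2 := fun j => ⟨(hpos j).1, (hpos j).2.1⟩
  have hP := prd_pos hpos'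
  have hP1 : (1 : ℤ) ≤ (prd t : ℤ) := by exact_mod_cast hP
  have hPe := prd_eq t
  obtain ⟨p01, p02⟩ := hpos' 0
  obtain ⟨p11, p12⟩ := hpos' 1
  obtain ⟨p21, p22⟩ := hpos' 2
  obtain ⟨p31, p32⟩ := hpos' 3
  have hB1 : 0 < B1 t := by unfold B1; positivity
  have hB2 : 0 < B2 t := by unfold B2; positivity
  have hB1' : (0 : ℤ) < B1 t := by exact_mod_cast hB1
  have hB2' : (0 : ℤ) < B2 t := by exact_mod_cast hB2
  have d1 : (((t 1).1 * (t 0).1 : ℕ) : ℤ) ≤ prd t :=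
    dvd_le hP ⟨(t 0).2 * (t 1).2 * ((t 2).1 * (t 2).2) * ((t 3).1 * (t 3).2), by rw [hPe]; ring⟩
  have d2 : (((t 1).2 * (t 0).2 : ℕ) : ℤ) ≤ prd t :=
    dvd_le hP ⟨(t 0).1 * (t 1).1 * ((t 2).1 * (t 2).2) * ((t 3).1 * (t 3).2), by rw [hPe]; ring⟩
  have d3 : (((t 1).1 * (t 1).2 * (t 0).1 * (t 0).2 : ℕ) : ℤ) ≤ prd t :=
    dvd_le hP ⟨((t 2).1 * (t 2).2) * ((t 3).1 * (t 3).2), by rw [hPe]; ring⟩
  have d4 : (B1 t : ℤ) ≤ (prd t : ℤ) ^ 2 := by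
    have : ((B1 t : ℕ) : ℤ) ≤ ((prd t ^ 2 : ℕ) : ℤ) := dvd_le (by positivity)
      ⟨(t 1).1 * (t 0).2 * ((t 0).1 * (t 1).2 * ((t 2).1 * (t 2).2) * (t 3).2) ^ 2, by
        rw [hPe]; unfold B1; ring⟩
    exact_mod_cast this
  have d5 : (B2 t : ℤ) ≤ (prd t : ℤ) ^ 2 := by
    have : ((B2 t : ℕ) : ℤ) ≤ ((prd t ^ 2 : ℕ) : ℤ) := dvd_le (by positivity)
      ⟨(t 0).1 * (t 1).2 * ((t 1).1 * (t 0).2 * ((t 2).1 * (t 2).2) * (t 3).1) ^ 2, by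
        rw [hPe]; unfold B2; ring⟩
    exact_mod_cast this
  refine ⟨⟨?_, ?_, ?_⟩, ?_, ?_, ?_, ?_⟩
  · have : 0 < (((t 1).1 * (t 0).1 : ℕ) : ℤ) := by exact_mod_cast Nat.mul_pos p11 p01
    positivity
  · have : 0 < (((t 1).2 * (t 0).2 : ℕ) : ℤ) := by exact_mod_cast Nat.mul_pos p12 p02
    positivity
  · intro h
    have hv : 0 < (((t 1).1 * (t 1).2 * (t 0).1 * (t 0).2 : ℕ) : ℤ) := by
      exact_mod_cast (by positivity : 0 < (t 1).1 * (t 1).2 * (t 0).1 * (t 0).2)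
    have h1 : (B1 t : ℤ) = B2 t := by
      apply deg hv hB1' hB2'
      rw [neg_sq] at h
      rw [h]
      push_cast
      ring
    have h2 : B1 t = B2 t := by exact_mod_cast h1
    obtain ⟨m, hm⟩ := hsq
    have h3 : m ^ 2 = 2 * ((B1 t : ℤ) * ((A1 t : ℤ) - A2 t)) ^ 2 := by
      rw [sq m, ← hm]
      unfold F8
      rw [← h1]
      ring
    have h4 := two_sq h3
    rcases mul_eq_zero.1 h4 with h5 | h5
    · exact hB1'.ne' h5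
    · have h6 : A1 t = A2 t := by
        have : (A1 t : ℤ) = A2 t := by linarith
        exact_mod_cast this
      rw [h2, h6] at hlt1
      exact lt_irrefl _ hlt1
  · exact bnd1 hP1 (Int.natCast_nonneg _) d1 hB1'.le d4 hB2'.le d5
  · exact bnd2 hP1 (Int.natCast_nonneg _) d3 hB1'.le d4 hB2'.le d5
  · exact bnd1 hP1 (Int.natCast_nonneg _) d2 hB1'.le d4 hB2'.le d5
  · unfold F8 Qz A1 A2
    push_cast
    ring

theorem case3 : Claim 3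
    (fun t => (((t 1).1 * (t 0).2 : ℕ) : ℤ) ^ 2 * ((A1 t : ℤ) ^ 2 + (A2 t : ℤ) ^ 2))
    (fun t => -(4 * (((t 1).1 * (t 1).2 * (t 0).1 * (t 0).2 : ℕ) : ℤ) *
      ((A1 t : ℤ) * (A2 t : ℤ))))
    (fun t => (((t 0).1 * (t 1).2 : ℕ) : ℤ) ^ 2 * ((A1 t : ℤ) ^ 2 + (A2 t : ℤ) ^ 2)) := by
  intro t ht
  have e0 : Function.update t 3 (1, 1) 0 = t 0 := Function.update_of_ne (by decide) _ _
  have e1 : Function.update t 3 (1, 1) 1 = t 1 := Function.update_of_ne (by decide) _ _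
  have e2 : Function.update t 3 (1, 1) 2 = t 2 := Function.update_of_ne (by decide) _ _
  have eA1 : A1 (Function.update t 3 (1, 1)) = A1 t := by unfold A1; rw [e0, e1, e2]
  have eA2 : A2 (Function.update t 3 (1, 1)) = A2 t := by unfold A2; rw [e0, e1, e2]
  simp only [e0, e1, eA1, eA2]
  obtain ⟨hpos, hlt1, hlt2, hsq⟩ := ht
  have hpos' : ∀ j, 0 < (t j).1 ∧ 0 < (t j).2 := fun j => ⟨(hpos j).1, (hpos j).2.1⟩
  have hP := prd_pos hpos'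
  have hP1 : (1 : ℤ) ≤ (prd t : ℤ) := by exact_mod_cast hP
  have hPe := prd_eq t
  obtain ⟨p01, p02⟩ := hpos' 0
  obtain ⟨p11, p12⟩ := hpos' 1
  obtain ⟨p21, p22⟩ := hpos' 2
  obtain ⟨p31, p32⟩ := hpos' 3
  have hA1 : 0 < A1 t := by unfold A1; positivity
  have hA2 : 0 < A2 t := by unfold A2; positivity
  have hA1' : (0 : ℤ) < A1 t := by exact_mod_cast hA1
  have hA2' : (0 : ℤ) < A2 t := by exact_mod_cast hA2
  have d1 : (((t 1).1 * (t 0).2 : ℕ) : ℤ) ≤ prd t :=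
    dvd_le hP ⟨(t 0).1 * (t 1).2 * ((t 2).1 * (t 2).2) * ((t 3).1 * (t 3).2), by rw [hPe]; ring⟩
  have d2 : (((t 0).1 * (t 1).2 : ℕ) : ℤ) ≤ prd t :=
    dvd_le hP ⟨(t 0).2 * (t 1).1 * ((t 2).1 * (t 2).2) * ((t 3).1 * (t 3).2), by rw [hPe]; ring⟩
  have d3 : (((t 1).1 * (t 1).2 * (t 0).1 * (t 0).2 : ℕ) : ℤ) ≤ prd t :=
    dvd_le hP ⟨((t 2).1 * (t 2).2) * ((t 3).1 * (t 3).2), by rw [hPe]; ring⟩
  have d4 : (A1 t : ℤ) ≤ (prd t : ℤ) ^ 2 := by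
    have : ((A1 t : ℕ) : ℤ) ≤ ((prd t ^ 2 : ℕ) : ℤ) := dvd_le (by positivity)
      ⟨(t 1).1 * (t 0).1 * ((t 0).2 * (t 1).2 * (t 2).2 * ((t 3).1 * (t 3).2)) ^ 2, by
        rw [hPe]; unfold A1; ring⟩
    exact_mod_cast this
  have d5 : (A2 t : ℤ) ≤ (prd t : ℤ) ^ 2 := by
    have : ((A2 t : ℕ) : ℤ) ≤ ((prd t ^ 2 : ℕ) : ℤ) := dvd_le (by positivity)
      ⟨(t 1).2 * (t 0).2 * ((t 1).1 * (t 0).1 * (t 2).1 * ((t 3).1 * (t 3).2)) ^ 2, by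
        rw [hPe]; unfold A2; ring⟩
    exact_mod_cast this
  refine ⟨⟨?_, ?_, ?_⟩, ?_, ?_, ?_, ?_⟩
  · have : 0 < (((t 1).1 * (t 0).2 : ℕ) : ℤ) := by exact_mod_cast Nat.mul_pos p11 p02
    positivity
  · have : 0 < (((t 0).1 * (t 1).2 : ℕ) : ℤ) := by exact_mod_cast Nat.mul_pos p01 p12
    positivity
  · intro h
    have hv : 0 < (((t 1).1 * (t 1).2 * (t 0).1 * (t 0).2 : ℕ) : ℤ) := by
      exact_mod_cast (by positivity : 0 < (t 1).1 * (t 1).2 * (t 0).1 * (t 0).2)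
    have h1 : (A1 t : ℤ) = A2 t := by
      apply deg hv hA1' hA2'
      rw [neg_sq] at h
      rw [h]
      push_cast
      ring
    have h2 : A1 t = A2 t := by exact_mod_cast h1
    rw [h2] at hlt1 hlt2
    have h3 := Nat.lt_of_mul_lt_mul_left hlt1
    have h4 := Nat.lt_of_mul_lt_mul_left hlt2
    omega
  · exact bnd1 hP1 (Int.natCast_nonneg _) d1 hA1'.le d4 hA2'.le d5
  · exact bnd2 hP1 (Int.natCast_nonneg _) d3 hA1'.le d4 hA2'.le d5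
  · exact bnd1 hP1 (Int.natCast_nonneg _) d2 hA1'.le d4 hA2'.le d5
  · unfold F8 Qz B1 B2
    push_cast
    ring

theorem case0 : Claim 0
    (fun t => ((((t 1).1 * (t 2).1 ^ 2 : ℕ) : ℤ) * (((t 1).2 * (t 3).2 ^ 2 : ℕ) : ℤ)) ^ 2)
    (fun t => (((t 1).1 * (t 2).1 ^ 2 * ((t 1).1 * (t 3).1 ^ 2) : ℕ) : ℤ) ^ 2 +
      (((t 1).2 * (t 2).2 ^ 2 * ((t 1).2 * (t 3).2 ^ 2) : ℕ) : ℤ) ^ 2 -
      4 * (((t 1).1 * (t 2).1 ^ 2 * ((t 1).1 * (t 3).1 ^ 2) : ℕ) : ℤ) *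
        (((t 1).2 * (t 2).2 ^ 2 * ((t 1).2 * (t 3).2 ^ 2) : ℕ) : ℤ))
    (fun t => ((((t 1).2 * (t 2).2 ^ 2 : ℕ) : ℤ) * (((t 1).1 * (t 3).1 ^ 2 : ℕ) : ℤ)) ^ 2) := by
  intro t ht
  have e1 : Function.update t 0 (1, 1) 1 = t 1 := Function.update_of_ne (by decide) _ _
  have e2 : Function.update t 0 (1, 1) 2 = t 2 := Function.update_of_ne (by decide) _ _
  have e3 : Function.update t 0 (1, 1) 3 = t 3 := Function.update_of_ne (by decide) _ _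
  simp only [e1, e2, e3]
  obtain ⟨hpos, hlt1, hlt2, hsq⟩ := ht
  have hpos' : ∀ j, 0 < (t j).1 ∧ 0 < (t j).2 := fun j => ⟨(hpos j).1, (hpos j).2.1⟩
  have hP := prd_pos hpos'
  have hP1 : (1 : ℤ) ≤ (prd t : ℤ) := by exact_mod_cast hP
  have hPe := prd_eq t
  obtain ⟨p01, p02⟩ := hpos' 0
  obtain ⟨p11, p12⟩ := hpos' 1
  obtain ⟨p21, p22⟩ := hpos' 2
  obtain ⟨p31, p32⟩ := hpos' 3
  have d1 : (((t 1).1 * (t 2).1 ^ 2 : ℕ) : ℤ) ≤ (prd t : ℤ) ^ 2 := by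
    have : (((t 1).1 * (t 2).1 ^ 2 : ℕ) : ℤ) ≤ ((prd t ^ 2 : ℕ) : ℤ) := dvd_le (by positivity)
      ⟨(t 1).1 * ((t 0).1 * (t 0).2 * (t 1).2 * (t 2).2 * ((t 3).1 * (t 3).2)) ^ 2, by
        rw [hPe]; ring⟩
    exact_mod_cast this
  have d2 : (((t 1).2 * (t 3).2 ^ 2 : ℕ) : ℤ) ≤ (prd t : ℤ) ^ 2 := by
    have : (((t 1).2 * (t 3).2 ^ 2 : ℕ) : ℤ) ≤ ((prd t ^ 2 : ℕ) : ℤ) := dvd_le (by positivity)
      ⟨(t 1).2 * ((t 0).1 * (t 0).2 * (t 1).1 * ((t 2).1 * (t 2).2) * (t 3).1) ^ 2, by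
        rw [hPe]; ring⟩
    exact_mod_cast this
  have d3 : (((t 1).2 * (t 2).2 ^ 2 : ℕ) : ℤ) ≤ (prd t : ℤ) ^ 2 := by
    have : (((t 1).2 * (t 2).2 ^ 2 : ℕ) : ℤ) ≤ ((prd t ^ 2 : ℕ) : ℤ) := dvd_le (by positivity)
      ⟨(t 1).2 * ((t 0).1 * (t 0).2 * (t 1).1 * (t 2).1 * ((t 3).1 * (t 3).2)) ^ 2, by
        rw [hPe]; ring⟩
    exact_mod_cast this
  have d4 : (((t 1).1 * (t 3).1 ^ 2 : ℕ) : ℤ) ≤ (prd t : ℤ) ^ 2 := by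
    have : (((t 1).1 * (t 3).1 ^ 2 : ℕ) : ℤ) ≤ ((prd t ^ 2 : ℕ) : ℤ) := dvd_le (by positivity)
      ⟨(t 1).1 * ((t 0).1 * (t 0).2 * (t 1).2 * ((t 2).1 * (t 2).2) * (t 3).2) ^ 2, by
        rw [hPe]; ring⟩
    exact_mod_cast this
  have d5 : (((t 1).1 * (t 2).1 ^ 2 * ((t 1).1 * (t 3).1 ^ 2) : ℕ) : ℤ) ≤ (prd t : ℤ) ^ 4 := by
    have h1 : ((((t 1).1 * (t 2).1 ^ 2 : ℕ) : ℤ) * (((t 1).1 * (t 3).1 ^ 2 : ℕ) : ℤ)) ≤
        (prd t : ℤ) ^ 2 * (prd t : ℤ) ^ 2 := by gcongr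
    calc _ = ((((t 1).1 * (t 2).1 ^ 2 : ℕ) : ℤ) * (((t 1).1 * (t 3).1 ^ 2 : ℕ) : ℤ)) := by
          push_cast; ring
      _ ≤ _ := h1
      _ = _ := by ring
  have d6 : (((t 1).2 * (t 2).2 ^ 2 * ((t 1).2 * (t 3).2 ^ 2) : ℕ) : ℤ) ≤ (prd t : ℤ) ^ 4 := by
    have h1 : ((((t 1).2 * (t 2).2 ^ 2 : ℕ) : ℤ) * (((t 1).2 * (t 3).2 ^ 2 : ℕ) : ℤ)) ≤
        (prd t : ℤ) ^ 2 * (prd t : ℤ) ^ 2 := by gcongr
    calc _ = ((((t 1).2 * (t 2).2 ^ 2 : ℕ) : ℤ) * (((t 1).2 * (t 3).2 ^ 2 : ℕ) : ℤ)) := by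
          push_cast; ring
      _ ≤ _ := h1
      _ = _ := by ring
  have hYX : (t 1).2 * (t 2).2 ^ 2 * ((t 1).2 * (t 3).2 ^ 2) <
      (t 1).1 * (t 2).1 ^ 2 * ((t 1).1 * (t 3).1 ^ 2) := by
    have h1 : (t 0).1 * (t 0).2 * ((t 1).2 * (t 2).2 ^ 2 * ((t 1).2 * (t 3).2 ^ 2)) <
        (t 0).1 * (t 0).2 * ((t 1).1 * (t 2).1 ^ 2 * ((t 1).1 * (t 3).1 ^ 2)) := by
      calc _ = A2 t * B2 t := by unfold A2 B2; ring
        _ < A1 t * B1 t := hlt1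
        _ = _ := by unfold A1 B1; ring
    exact Nat.lt_of_mul_lt_mul_left h1
  refine ⟨⟨?_, ?_, ?_⟩, ?_, ?_, ?_, ?_⟩
  · have h1 : 0 < (((t 1).1 * (t 2).1 ^ 2 : ℕ) : ℤ) := by
      exact_mod_cast (by positivity : 0 < (t 1).1 * (t 2).1 ^ 2)
    have h2 : 0 < (((t 1).2 * (t 3).2 ^ 2 : ℕ) : ℤ) := by
      exact_mod_cast (by positivity : 0 < (t 1).2 * (t 3).2 ^ 2)
    positivity
  · have h1 : 0 < (((t 1).2 * (t 2).2 ^ 2 : ℕ) : ℤ) := by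
      exact_mod_cast (by positivity : 0 < (t 1).2 * (t 2).2 ^ 2)
    have h2 : 0 < (((t 1).1 * (t 3).1 ^ 2 : ℕ) : ℤ) := by
      exact_mod_cast (by positivity : 0 < (t 1).1 * (t 3).1 ^ 2)
    positivity
  · intro h
    refine disc (x := (((t 1).1 * (t 2).1 * (t 3).1 : ℕ) : ℤ))
      (y := (((t 1).2 * (t 2).2 * (t 3).2 : ℕ) : ℤ)) ?_ ?_ ?_ ?_ ?_ (h.trans ?_)
    · exact_mod_cast (by positivity : 0 < (t 1).1 * (t 2).1 * (t 3).1)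
    · exact_mod_cast (by positivity : 0 < (t 1).2 * (t 2).2 * (t 3).2)
    · push_cast; ring
    · push_cast; ring
    · exact_mod_cast hYX
    · push_cast; ring
  · exact bnd3 (Int.natCast_nonneg _) d1 (Int.natCast_nonneg _) d2
  · exact bnd4 (Int.natCast_nonneg _) d5 (Int.natCast_nonneg _) d6
  · exact bnd3 (Int.natCast_nonneg _) d3 (Int.natCast_nonneg _) d4
  · unfold F8 Qz A1 A2 B1 B2
    push_cast
    ring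

theorem case1 : Claim 1
    (fun t => ((((t 0).1 * (t 2).1 ^ 2 : ℕ) : ℤ) * (((t 0).2 * (t 3).1 ^ 2 : ℕ) : ℤ)) ^ 2)
    (fun t => (((t 0).1 * (t 2).1 ^ 2 * ((t 0).1 * (t 3).2 ^ 2) : ℕ) : ℤ) ^ 2 +
      (((t 0).2 * (t 2).2 ^ 2 * ((t 0).2 * (t 3).1 ^ 2) : ℕ) : ℤ) ^ 2 -
      4 * (((t 0).1 * (t 2).1 ^ 2 * ((t 0).1 * (t 3).2 ^ 2) : ℕ) : ℤ) *
        (((t 0).2 * (t 2).2 ^ 2 * ((t 0).2 * (t 3).1 ^ 2) : ℕ) : ℤ))
    (fun t => ((((t 0).2 * (t 2).2 ^ 2 : ℕ) : ℤ) * (((t 0).1 * (t 3).2 ^ 2 : ℕ) : ℤ)) ^ 2) := by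
  intro t ht
  have e0 : Function.update t 1 (1, 1) 0 = t 0 := Function.update_of_ne (by decide) _ _
  have e2 : Function.update t 1 (1, 1) 2 = t 2 := Function.update_of_ne (by decide) _ _
  have e3 : Function.update t 1 (1, 1) 3 = t 3 := Function.update_of_ne (by decide) _ _
  simp only [e0, e2, e3]
  obtain ⟨hpos, hlt1, hlt2, hsq⟩ := ht
  have hpos' : ∀ j, 0 < (t j).1 ∧ 0 < (t j).2 := fun j => ⟨(hpos j).1, (hpos j).2.1⟩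
  have hP := prd_pos hpos'
  have hP1 : (1 : ℤ) ≤ (prd t : ℤ) := by exact_mod_cast hP
  have hPe := prd_eq t
  obtain ⟨p01, p02⟩ := hpos' 0
  obtain ⟨p11, p12⟩ := hpos' 1
  obtain ⟨p21, p22⟩ := hpos' 2
  obtain ⟨p31, p32⟩ := hpos' 3
  have d1 : (((t 0).1 * (t 2).1 ^ 2 : ℕ) : ℤ) ≤ (prd t : ℤ) ^ 2 := by
    have : (((t 0).1 * (t 2).1 ^ 2 : ℕ) : ℤ) ≤ ((prd t ^ 2 : ℕ) : ℤ) := dvd_le (by positivity)
      ⟨(t 0).1 * ((t 0).2 * ((t 1).1 * (t 1).2) * (t 2).2 * ((t 3).1 * (t 3).2)) ^ 2, by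
        rw [hPe]; ring⟩
    exact_mod_cast this
  have d2 : (((t 0).2 * (t 3).1 ^ 2 : ℕ) : ℤ) ≤ (prd t : ℤ) ^ 2 := by
    have : (((t 0).2 * (t 3).1 ^ 2 : ℕ) : ℤ) ≤ ((prd t ^ 2 : ℕ) : ℤ) := dvd_le (by positivity)
      ⟨(t 0).2 * ((t 0).1 * ((t 1).1 * (t 1).2) * ((t 2).1 * (t 2).2) * (t 3).2) ^ 2, by
        rw [hPe]; ring⟩
    exact_mod_cast this
  have d3 : (((t 0).2 * (t 2).2 ^ 2 : ℕ) : ℤ) ≤ (prd t : ℤ) ^ 2 := by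
    have : (((t 0).2 * (t 2).2 ^ 2 : ℕ) : ℤ) ≤ ((prd t ^ 2 : ℕ) : ℤ) := dvd_le (by positivity)
      ⟨(t 0).2 * ((t 0).1 * ((t 1).1 * (t 1).2) * (t 2).1 * ((t 3).1 * (t 3).2)) ^ 2, by
        rw [hPe]; ring⟩
    exact_mod_cast this
  have d4 : (((t 0).1 * (t 3).2 ^ 2 : ℕ) : ℤ) ≤ (prd t : ℤ) ^ 2 := by
    have : (((t 0).1 * (t 3).2 ^ 2 : ℕ) : ℤ) ≤ ((prd t ^ 2 : ℕ) : ℤ) := dvd_le (by positivity)
      ⟨(t 0).1 * ((t 0).2 * ((t 1).1 * (t 1).2) * ((t 2).1 * (t 2).2) * (t 3).1) ^ 2, by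
        rw [hPe]; ring⟩
    exact_mod_cast this
  have d5 : (((t 0).1 * (t 2).1 ^ 2 * ((t 0).1 * (t 3).2 ^ 2) : ℕ) : ℤ) ≤ (prd t : ℤ) ^ 4 := by
    have h1 : ((((t 0).1 * (t 2).1 ^ 2 : ℕ) : ℤ) * (((t 0).1 * (t 3).2 ^ 2 : ℕ) : ℤ)) ≤
        (prd t : ℤ) ^ 2 * (prd t : ℤ) ^ 2 := by gcongr
    calc _ = ((((t 0).1 * (t 2).1 ^ 2 : ℕ) : ℤ) * (((t 0).1 * (t 3).2 ^ 2 : ℕ) : ℤ)) := by
          push_cast; ring
      _ ≤ _ := h1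
      _ = _ := by ring
  have d6 : (((t 0).2 * (t 2).2 ^ 2 * ((t 0).2 * (t 3).1 ^ 2) : ℕ) : ℤ) ≤ (prd t : ℤ) ^ 4 := by
    have h1 : ((((t 0).2 * (t 2).2 ^ 2 : ℕ) : ℤ) * (((t 0).2 * (t 3).1 ^ 2 : ℕ) : ℤ)) ≤
        (prd t : ℤ) ^ 2 * (prd t : ℤ) ^ 2 := by gcongr
    calc _ = ((((t 0).2 * (t 2).2 ^ 2 : ℕ) : ℤ) * (((t 0).2 * (t 3).1 ^ 2 : ℕ) : ℤ)) := by
          push_cast; ring
      _ ≤ _ := h1
      _ = _ := by ring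
  have hYX : (t 0).2 * (t 2).2 ^ 2 * ((t 0).2 * (t 3).1 ^ 2) <
      (t 0).1 * (t 2).1 ^ 2 * ((t 0).1 * (t 3).2 ^ 2) := by
    have h1 : (t 1).1 * (t 1).2 * ((t 0).2 * (t 2).2 ^ 2 * ((t 0).2 * (t 3).1 ^ 2)) <
        (t 1).1 * (t 1).2 * ((t 0).1 * (t 2).1 ^ 2 * ((t 0).1 * (t 3).2 ^ 2)) := by
      calc _ = A2 t * B1 t := by unfold A2 B1; ring
        _ < A1 t * B2 t := hlt2
        _ = _ := by unfold A1 B2; ring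
    exact Nat.lt_of_mul_lt_mul_left h1
  refine ⟨⟨?_, ?_, ?_⟩, ?_, ?_, ?_, ?_⟩
  · have h1 : 0 < (((t 0).1 * (t 2).1 ^ 2 : ℕ) : ℤ) := by
      exact_mod_cast (by positivity : 0 < (t 0).1 * (t 2).1 ^ 2)
    have h2 : 0 < (((t 0).2 * (t 3).1 ^ 2 : ℕ) : ℤ) := by
      exact_mod_cast (by positivity : 0 < (t 0).2 * (t 3).1 ^ 2)
    positivity
  · have h1 : 0 < (((t 0).2 * (t 2).2 ^ 2 : ℕ) : ℤ) := by
      exact_mod_cast (by positivity : 0 < (t 0).2 * (t 2).2 ^ 2)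
    have h2 : 0 < (((t 0).1 * (t 3).2 ^ 2 : ℕ) : ℤ) := by
      exact_mod_cast (by positivity : 0 < (t 0).1 * (t 3).2 ^ 2)
    positivity
  · intro h
    refine disc (x := (((t 0).1 * (t 2).1 * (t 3).2 : ℕ) : ℤ))
      (y := (((t 0).2 * (t 2).2 * (t 3).1 : ℕ) : ℤ)) ?_ ?_ ?_ ?_ ?_ (h.trans ?_)
    · exact_mod_cast (by positivity : 0 < (t 0).1 * (t 2).1 * (t 3).2)
    · exact_mod_cast (by positivity : 0 < (t 0).2 * (t 2).2 * (t 3).1)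
    · push_cast; ring
    · push_cast; ring
    · exact_mod_cast hYX
    · push_cast; ring
  · exact bnd3 (Int.natCast_nonneg _) d1 (Int.natCast_nonneg _) d2
  · exact bnd4 (Int.natCast_nonneg _) d5 (Int.natCast_nonneg _) d6
  · exact bnd3 (Int.natCast_nonneg _) d3 (Int.natCast_nonneg _) d4
  · unfold F8 Qz A1 A2 B1 B2
    push_cast
    ring

end QRT_

open QRT_ in
theorem p_QRT : T_QRT := by
  have h : ∀ i : Fin 4, ∃ α β γ : (Fin 4 → ℕ × ℕ) → ℤ, Claim i α β γ := by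
    intro i
    match i with
    | 0 => exact ⟨_, _, _, case0⟩
    | 1 => exact ⟨_, _, _, case1⟩
    | 2 => exact ⟨_, _, _, case2⟩
    | 3 => exact ⟨_, _, _, case3⟩
  exact h

end Pool.Agent.FSQ
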