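import Pool.Agent.FSQ.Targets

set_option autoImplicit false

/-!
# FSQ, target SQC: the number of square values of a quartic
-/

namespace Pool.Agent.FSQ

open Finset
open scoped BigOperators

namespace SQC_

open Polynomial in
theorem zeros (p : ℕ) [Fact p.Prime] (α β γ : ZMod p) (hα : α ≠ 0) :
    (univ.filter fun t : ZMod p => α * t ^ 4 + β * t ^ 2 + γ = 0).card ≤ 4 := by
  set P : Polynomial (ZMod p) := C α * X ^ 4 + C β * X ^ 2 + C γ with hPd
  have hdeg : P.natDegree = 4 := by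
    rw [hPd]
    compute_degree!
  have hP : P ≠ 0 := by
    intro h
    rw [h, natDegree_zero] at hdeg
    omega
  have hsub : (univ.filter fun t : ZMod p => α * t ^ 4 + β * t ^ 2 + γ = 0) ⊆
      P.roots.toFinset := by
    intro t ht
    rw [Multiset.mem_toFinset, mem_roots hP, IsRoot.def, hPd]
    simpa using (mem_filter.mp ht).2
  calc (univ.filter fun t : ZMod p => α * t ^ 4 + β * t ^ 2 + γ = 0).card
      ≤ P.roots.toFinset.card := card_le_card hsub
    _ ≤ Multiset.card P.roots := Multiset.toFinset_card_le _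
    _ ≤ P.natDegree := card_roots' P
    _ = 4 := hdeg

end SQC_

open SQC_ in
theorem p_SQC (hCHS : T_CHS) : T_SQC := by
  classical
  intro p _ hp α β γ hα hγ hd
  have h1 := hCHS p hp α β γ hα hγ hd
  have h2 := zeros p α β γ hα
  have hset : {t : ZMod p | IsSquare (α * t ^ 4 + β * t ^ 2 + γ)} =
      ((univ.filter fun t : ZMod p => IsSquare (α * t ^ 4 + β * t ^ 2 + γ) : Finset (ZMod p)) :
        Set (ZMod p)) := by
    ext t
    simp
  rw [hset, Set.ncard_coe_finset]
  have h3 : 2 * ((univ.filter fun t : ZMod p =>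
      IsSquare (α * t ^ 4 + β * t ^ 2 + γ)).card : ℤ) ≤
      (p : ℤ) + (∑ t : ZMod p, quadraticChar (ZMod p) (α * t ^ 4 + β * t ^ 2 + γ)) +
        ((univ.filter fun t : ZMod p => α * t ^ 4 + β * t ^ 2 + γ = 0).card : ℤ) := by
    have e1 : ((univ.filter fun t : ZMod p =>
        IsSquare (α * t ^ 4 + β * t ^ 2 + γ)).card : ℤ) =
        ∑ t : ZMod p, if IsSquare (α * t ^ 4 + β * t ^ 2 + γ) then 1 else 0 := by
      rw [card_filter]
      push_cast
      rfl
    have e2 : ((univ.filter fun t : ZMod p => α * t ^ 4 + β * t ^ 2 + γ = 0).card : ℤ) =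
        ∑ t : ZMod p, if α * t ^ 4 + β * t ^ 2 + γ = 0 then 1 else 0 := by
      rw [card_filter]
      push_cast
      rfl
    have e3 : (p : ℤ) = ∑ _t : ZMod p, (1 : ℤ) := by
      rw [sum_const, card_univ, ZMod.card]
      simp
    rw [e1, e2, e3, mul_sum, ← sum_add_distrib, ← sum_add_distrib]
    refine sum_le_sum fun t _ => ?_
    rcases eq_or_ne (α * t ^ 4 + β * t ^ 2 + γ) 0 with h0 | h0
    · rw [h0]
      simp
    · rcases quadraticChar_dichotomy h0 with h4 | h4
      · have h5 := (quadraticChar_one_iff_isSquare h0).mp h4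
        rw [h4, if_pos h5, if_neg h0]
        norm_num
      · have h5 : ¬ IsSquare (α * t ^ 4 + β * t ^ 2 + γ) :=
          quadraticChar_neg_one_iff_not_isSquare.mp h4
        rw [h4, if_neg h5, if_neg h0]
        norm_num
  have h4 : 2 * ((univ.filter fun t : ZMod p =>
      IsSquare (α * t ^ 4 + β * t ^ 2 + γ)).card : ℝ) ≤
      (p : ℝ) + ((∑ t : ZMod p, quadraticChar (ZMod p) (α * t ^ 4 + β * t ^ 2 + γ) : ℤ) : ℝ) +
        ((univ.filter fun t : ZMod p => α * t ^ 4 + β * t ^ 2 + γ = 0).card : ℝ) := by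
    exact_mod_cast h3
  have h5 : ((univ.filter fun t : ZMod p => α * t ^ 4 + β * t ^ 2 + γ = 0).card : ℝ) ≤ 4 := by
    exact_mod_cast h2
  have h6 : (2 : ℝ) ≤ (p : ℝ) ^ ((3 : ℝ) / 4) := by
    have hp5 : (5 : ℝ) ≤ (p : ℝ) := by exact_mod_cast hp
    calc (2 : ℝ) = (4 : ℝ) ^ ((1 : ℝ) / 2) := by
          rw [← Real.sqrt_eq_rpow, show (4 : ℝ) = 2 ^ 2 by norm_num,
            Real.sqrt_sq (by norm_num)]
      _ ≤ (4 : ℝ) ^ ((3 : ℝ) / 4) := Real.rpow_le_rpow_of_exponent_le (by norm_num) (by norm_num)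
      _ ≤ (p : ℝ) ^ ((3 : ℝ) / 4) :=
          Real.rpow_le_rpow (by norm_num) (by linarith) (by norm_num)
  have h7 := le_trans (le_abs_self _) h1
  linarith

end Pool.Agent.FSQ
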