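import Pool.Agent.FSQ.Targets

set_option autoImplicit false

/-!
# FSQ: the stabiliser of a nondegenerate even quartic has at most 96 elements (target STB)
-/

namespace Pool.Agent.FSQ

open Finset
open scoped BigOperators

namespace STB_

/-- fourth roots of `e` -/
noncomputable def rt {K : Type*} [Field K] [DecidableEq K] (e : K) : Finset K :=
  (Polynomial.nthRoots 4 e).toFinset

theorem mem_rt {K : Type*} [Field K] [DecidableEq K] (e x : K) : x ∈ rt e ↔ x ^ 4 = e := by
  rw [rt, Multiset.mem_toFinset, Polynomial.mem_nthRoots (by norm_num)]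

theorem card_rt {K : Type*} [Field K] [DecidableEq K] (e : K) : (rt e).card ≤ 4 :=
  le_trans (Multiset.toFinset_card_le _) (Polynomial.card_nthRoots 4 e)

/-- the coefficients of a quartic form which vanishes at five vectors -/
theorem coeffs {K : Type*} [Field K] (h2 : (2 : K) ≠ 0) (h3 : (3 : K) ≠ 0)
    (e₀ e₁ e₂ e₃ e₄ : K)
    (h : ∀ x y : K, e₄ * x ^ 4 + e₃ * x ^ 3 * y + e₂ * x ^ 2 * y ^ 2 + e₁ * x * y ^ 3 +
      e₀ * y ^ 4 = 0) : e₀ = 0 ∧ e₁ = 0 ∧ e₃ = 0 ∧ e₄ = 0 := by
  have a := h 1 0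
  have b := h 0 1
  have c := h 1 1
  have d := h 1 (-1)
  have e := h 2 1
  have k4 : e₄ = 0 := by linear_combination a
  have k0 : e₀ = 0 := by linear_combination b
  subst k4
  subst k0
  have k2 : (2 : K) * e₂ = 0 := by linear_combination c + d
  have k2' : e₂ = 0 := (mul_eq_zero.mp k2).resolve_left h2
  subst k2'
  have k3 : (2 : K) * (3 * e₃) = 0 := by linear_combination e - 2 * c
  have k3' : e₃ = 0 := (mul_eq_zero.mp ((mul_eq_zero.mp k3).resolve_left h2)).resolve_left h3
  subst k3'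
  refine ⟨rfl, ?_, rfl, rfl⟩
  linear_combination c

/-- the entries of a substitution which fixes the quartic -/
theorem entries {K : Type*} [Field K] (h2 : (2 : K) ≠ 0) (h3 : (3 : K) ≠ 0)
    (α β γ a b c d : K) (hα : α ≠ 0) (hγ : γ ≠ 0) (hD : β ^ 2 ≠ 4 * α * γ)
    (hdet : a * d - b * c ≠ 0)
    (h : ∀ x y : K, α * (a * x + b * y) ^ 4 + β * (a * x + b * y) ^ 2 * (c * x + d * y) ^ 2 +
      γ * (c * x + d * y) ^ 4 = α * x ^ 4 + β * x ^ 2 * y ^ 2 + γ * y ^ 4) :
    (b = 0 ∧ c = 0 ∧ a ^ 4 = 1 ∧ d ^ 4 = 1) ∨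
    (a = 0 ∧ d = 0 ∧ b ^ 4 = γ / α ∧ c ^ 4 = α / γ) ∨
    (∃ r s : K, r ^ 4 = γ / α ∧ s ^ 4 = α / γ ∧ a ^ 4 = α / (2 * α + β * s ^ 2) ∧
      b = r * a ∧ c = s * a ∧ d = -(r * s * a)) := by
  obtain ⟨k0, k1, k3, k4⟩ := coeffs h2 h3
    (α * b ^ 4 + β * b ^ 2 * d ^ 2 + γ * d ^ 4 - γ)
    ((a * b) * (4 * α * b ^ 2 + 2 * β * d ^ 2) + (c * d) * (2 * β * b ^ 2 + 4 * γ * d ^ 2))
    (6 * α * a ^ 2 * b ^ 2 + β * (a ^ 2 * d ^ 2 + 4 * a * b * c * d + b ^ 2 * c ^ 2) +
      6 * γ * c ^ 2 * d ^ 2 - β)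
    ((a * b) * (4 * α * a ^ 2 + 2 * β * c ^ 2) + (c * d) * (2 * β * a ^ 2 + 4 * γ * c ^ 2))
    (α * a ^ 4 + β * a ^ 2 * c ^ 2 + γ * c ^ 4 - α)
    (fun x y => by linear_combination h x y)
  by_cases hs : a * d + b * c = 0
  · right; right
    have had : a * d ≠ 0 := by
      intro h0
      apply hdet
      linear_combination 2 * h0 - hs
    have ha : a ≠ 0 := left_ne_zero_of_mul had
    have hd : d ≠ 0 := right_ne_zero_of_mul had
    have hbc : b * c ≠ 0 := by
      intro h0
      apply had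
      linear_combination hs - h0
    have hb : b ≠ 0 := left_ne_zero_of_mul hbc
    have hc : c ≠ 0 := right_ne_zero_of_mul hbc
    obtain ⟨r, rfl⟩ : ∃ r, b = r * a := ⟨b / a, by field_simp⟩
    obtain ⟨s, rfl⟩ : ∃ s, c = s * a := ⟨c / a, by field_simp⟩
    have hr : r ≠ 0 := left_ne_zero_of_mul hb
    have hd' : d = -(r * s * a) := by
      have : a * (d + r * s * a) = 0 := by linear_combination hs
      have := (mul_eq_zero.mp this).resolve_left ha
      linear_combination this
    subst hd'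
    have hr4 : r ^ 4 * α = γ := by linear_combination k0 - r ^ 4 * k4
    have h4 : (2 : K) * (2 * (r * a ^ 4 * (α - γ * s ^ 4))) = 0 := by linear_combination k3
    have h4' : α - γ * s ^ 4 = 0 := by
      have h5 := (mul_eq_zero.mp ((mul_eq_zero.mp h4).resolve_left h2)).resolve_left h2
      exact (mul_eq_zero.mp h5).resolve_left (mul_ne_zero hr (pow_ne_zero 4 ha))
    have ha4 : a ^ 4 * (2 * α + β * s ^ 2) = α := by
      linear_combination k4 + a ^ 4 * h4'
    have hne : 2 * α + β * s ^ 2 ≠ 0 := by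
      intro h0
      rw [h0, mul_zero] at ha4
      exact hα ha4.symm
    refine ⟨r, s, ?_, ?_, ?_, rfl, rfl, rfl⟩
    · rw [eq_div_iff hα]; exact hr4
    · rw [eq_div_iff hγ]; linear_combination -h4'
    · rw [eq_div_iff hne]; exact ha4
  · have hDD : (4 : K) * α * γ - β ^ 2 ≠ 0 := by
      intro h0
      apply hD
      linear_combination -h0
    have hdd : (2 : K) * (2 * ((4 * α * γ - β ^ 2) * ((a * d - b * c) * (a * d + b * c)))) ≠ 0 :=
      mul_ne_zero h2 (mul_ne_zero h2 (mul_ne_zero hDD (mul_ne_zero hdet hs)))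
    have hU : a * b = 0 := by
      have : (2 : K) * (2 * ((4 * α * γ - β ^ 2) * ((a * d - b * c) * (a * d + b * c)))) *
          (a * b) = 0 := by
        linear_combination (2 * β * b ^ 2 + 4 * γ * d ^ 2) * k3 -
          (2 * β * a ^ 2 + 4 * γ * c ^ 2) * k1
      exact (mul_eq_zero.mp this).resolve_left hdd
    have hV : c * d = 0 := by
      have : (2 : K) * (2 * ((4 * α * γ - β ^ 2) * ((a * d - b * c) * (a * d + b * c)))) *
          (c * d) = 0 := by
        linear_combination (4 * α * a ^ 2 + 2 * β * c ^ 2) * k1 -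
          (4 * α * b ^ 2 + 2 * β * d ^ 2) * k3
      exact (mul_eq_zero.mp this).resolve_left hdd
    rcases mul_eq_zero.mp hU with ha | hb
    · right; left
      subst ha
      have hbc : b * c ≠ 0 := by
        intro h0
        apply hdet
        linear_combination -h0
      have hc : c ≠ 0 := right_ne_zero_of_mul hbc
      have hd : d = 0 := (mul_eq_zero.mp hV).resolve_left hc
      subst hd
      refine ⟨rfl, rfl, ?_, ?_⟩
      · rw [eq_div_iff hα]; linear_combination k0
      · rw [eq_div_iff hγ]; linear_combination k4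
    · left
      subst hb
      have had : a * d ≠ 0 := by
        intro h0
        apply hdet
        linear_combination h0
      have hd : d ≠ 0 := right_ne_zero_of_mul had
      have hc : c = 0 := (mul_eq_zero.mp hV).resolve_right hd
      subst hc
      refine ⟨rfl, rfl, ?_, ?_⟩
      · have : α * (a ^ 4 - 1) = 0 := by linear_combination k4
        have := (mul_eq_zero.mp this).resolve_left hα
        linear_combination this
      · have : γ * (d ^ 4 - 1) = 0 := by linear_combination k0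
        have := (mul_eq_zero.mp this).resolve_left hγ
        linear_combination this

/-- the finite set which contains the stabiliser -/
noncomputable def sbox {K : Type*} [Field K] [DecidableEq K] (α β γ : K) :
    Finset (K × K × K × K) :=
  ((rt (1 : K) ×ˢ rt (1 : K)).image (fun t => (t.1, 0, 0, t.2))) ∪
    (((rt (γ / α) ×ˢ rt (α / γ)).image (fun t => (0, t.1, t.2, 0))) ∪
      (rt (α / γ)).biUnion (fun s => (rt (γ / α) ×ˢ rt (α / (2 * α + β * s ^ 2))).image
        (fun t => (t.2, t.1 * t.2, s * t.2, -(t.1 * s * t.2)))))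

theorem card_prod {K : Type*} [Field K] [DecidableEq K] (e f : K) :
    (rt e ×ˢ rt f).card ≤ 16 := by
  rw [Finset.card_product]
  calc (rt e).card * (rt f).card ≤ 4 * 4 := Nat.mul_le_mul (card_rt e) (card_rt f)
    _ = 16 := by norm_num

theorem card_sbox {K : Type*} [Field K] [DecidableEq K] (α β γ : K) :
    (sbox α β γ).card ≤ 96 := by
  have h1 : ((rt (1 : K) ×ˢ rt (1 : K)).image
      (fun t => ((t.1, 0, 0, t.2) : K × K × K × K))).card ≤ 16 :=
    le_trans Finset.card_image_le (card_prod _ _)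
  have h2 : ((rt (γ / α) ×ˢ rt (α / γ)).image
      (fun t => ((0, t.1, t.2, 0) : K × K × K × K))).card ≤ 16 :=
    le_trans Finset.card_image_le (card_prod _ _)
  have h3 : ((rt (α / γ)).biUnion (fun s => (rt (γ / α) ×ˢ rt (α / (2 * α + β * s ^ 2))).image
        (fun t => ((t.2, t.1 * t.2, s * t.2, -(t.1 * s * t.2)) : K × K × K × K)))).card
        ≤ 4 * 16 := by
    refine le_trans (Finset.card_biUnion_le_card_mul _ _ 16 (fun s _ => ?_)) ?_
    · exact le_trans Finset.card_image_le (card_prod _ _)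
    · exact Nat.mul_le_mul_right _ (card_rt _)
  unfold sbox
  refine le_trans (Finset.card_union_le _ _) ?_
  refine le_trans (Nat.add_le_add h1 (le_trans (Finset.card_union_le _ _)
    (Nat.add_le_add h2 h3))) ?_
  norm_num

end STB_

open STB_ in
theorem p_STB : T_STB := by
  intro p hp h5 α β γ hα hγ hD
  have h2 : (2 : ZMod p) ≠ 0 := by
    have : ((2 : ℕ) : ZMod p) ≠ 0 := by
      rw [Ne, ZMod.natCast_eq_zero_iff]
      intro h
      have := Nat.le_of_dvd (by norm_num) h
      omega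
    exact_mod_cast this
  have h3 : (3 : ZMod p) ≠ 0 := by
    have : ((3 : ℕ) : ZMod p) ≠ 0 := by
      rw [Ne, ZMod.natCast_eq_zero_iff]
      intro h
      have := Nat.le_of_dvd (by norm_num) h
      omega
    exact_mod_cast this
  refine le_trans (le_trans (Set.ncard_le_ncard (t := ((sbox α β γ : Finset _) : Set _)) ?_
    (Finset.finite_toSet _)) (le_of_eq (Set.ncard_coe_finset _))) (card_sbox α β γ)
  rintro ⟨a, b, c, d⟩ ⟨hdet, hq⟩
  have hdet' : a * d - b * c ≠ 0 := hdet
  have hq' : ∀ x y : ZMod p,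
      α * (a * x + b * y) ^ 4 + β * (a * x + b * y) ^ 2 * (c * x + d * y) ^ 2 +
      γ * (c * x + d * y) ^ 4 = α * x ^ 4 + β * x ^ 2 * y ^ 2 + γ * y ^ 4 := by
    intro x y
    have := hq (x, y)
    simp only [qf, evc, act, Matrix.cons_val] at this
    linear_combination this
  rw [Finset.mem_coe, sbox, Finset.mem_union, Finset.mem_union, Finset.mem_image,
    Finset.mem_image, Finset.mem_biUnion]
  rcases entries h2 h3 α β γ a b c d hα hγ hD hdet' hq' with
    ⟨hb, hc, ha, hd⟩ | ⟨ha, hd, hb, hc⟩ | ⟨r, s, hr, hs, ha, hb, hc, hd⟩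
  · left
    refine ⟨(a, d), ?_, ?_⟩
    · rw [Finset.mem_product, mem_rt, mem_rt]; exact ⟨ha, hd⟩
    · rw [hb, hc]
  · right; left
    refine ⟨(b, c), ?_, ?_⟩
    · rw [Finset.mem_product, mem_rt, mem_rt]; exact ⟨hb, hc⟩
    · rw [ha, hd]
  · right; right
    refine ⟨s, (mem_rt _ _).mpr hs, ?_⟩
    rw [Finset.mem_image]
    refine ⟨(r, a), ?_, ?_⟩
    · rw [Finset.mem_product, mem_rt, mem_rt]; exact ⟨hr, ha⟩
    · rw [hb, hc, hd]

end Pool.Agent.FSQ
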