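import Pool.Agent.FSQ.Targets

set_option autoImplicit false

/-!
# FSQ: the summation lemma SUM
-/

namespace Pool.Agent.FSQ

open Finset
open scoped BigOperators

namespace SUM_

lemma prd_pos {t : Fin 4 → ℕ × ℕ} (h : ∀ j, 0 < (t j).1 ∧ 0 < (t j).2) : 0 < prd t := by
  unfold prd
  exact Finset.prod_pos fun j _ => Nat.mul_pos (h j).1 (h j).2

lemma entry_le {t : Fin 4 → ℕ × ℕ} (h : ∀ j, 0 < (t j).1 ∧ 0 < (t j).2) (j : Fin 4) :
    (t j).1 ≤ prd t ∧ (t j).2 ≤ prd t := by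
  have h1 : (t j).1 * (t j).2 ∣ prd t := by
    unfold prd
    exact Finset.dvd_prod_of_mem (fun j => (t j).1 * (t j).2) (Finset.mem_univ j)
  exact ⟨Nat.le_of_dvd (prd_pos h) ((Dvd.intro _ rfl).trans h1),
    Nat.le_of_dvd (prd_pos h) ((Dvd.intro_left _ rfl).trans h1)⟩

lemma sum_box (M : ℕ) :
    ∑ b ∈ Fintype.piFinset (fun _ : Fin 4 => Icc 1 M ×ˢ Icc 1 M), (1 : ℝ) / (prd b : ℝ) =
      (∑ n ∈ Icc 1 M, ((n : ℝ))⁻¹) ^ 8 := by
  have h1 : ∀ b : Fin 4 → ℕ × ℕ, (1 : ℝ) / (prd b : ℝ) =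
      ∏ j, (((b j).1 : ℝ)⁻¹ * ((b j).2 : ℝ)⁻¹) := by
    intro b
    unfold prd
    push_cast
    rw [one_div, ← Finset.prod_inv_distrib]
    refine Finset.prod_congr rfl fun j _ => ?_
    rw [mul_inv]
  simp only [h1]
  rw [← Finset.prod_univ_sum (fun _ : Fin 4 => Icc 1 M ×ˢ Icc 1 M)
    (fun _ x => ((x.1 : ℝ)⁻¹ * (x.2 : ℝ)⁻¹))]
  rw [Finset.prod_const, Finset.card_univ, Fintype.card_fin, Finset.sum_product]
  simp only [← Finset.mul_sum, ← Finset.sum_mul]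
  ring

lemma harm (N : ℝ) (hN : 1 ≤ N) :
    ∑ n ∈ Icc 1 ⌊N⌋₊, ((n : ℝ))⁻¹ ≤ 1 + Real.log N := by
  have h := harmonic_floor_le_one_add_log N hN
  rw [harmonic_eq_sum_Icc] at h
  push_cast at h
  exact h

end SUM_

open SUM_ in
theorem p_SUM : T_SUM := by
  classical
  intro A i N R₀ K hN hR hK hA hfib
  set f : (Fin 4 → ℕ × ℕ) → (Fin 4 → ℕ × ℕ) := fun t => Function.update t i (1, 1) with hf
  have hN0 : 0 < N := by linarith
  have hfpos : ∀ t ∈ A, ∀ j, 0 < (f t j).1 ∧ 0 < (f t j).2 := by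
    intro t ht j
    rw [hf]
    by_cases hj : j = i
    · subst hj
      simp
    · simp only [Function.update_of_ne hj]
      exact (hA t ht).1 j
  have hbox : A.image f ⊆ Fintype.piFinset (fun _ : Fin 4 => Icc 1 ⌊N⌋₊ ×ˢ Icc 1 ⌊N⌋₊) := by
    intro b hb
    obtain ⟨t, ht, rfl⟩ := Finset.mem_image.1 hb
    rw [Fintype.mem_piFinset]
    intro j
    have h1 : (f t j).1 ≤ ⌊N⌋₊ ∧ (f t j).2 ≤ ⌊N⌋₊ := by
      rw [hf]
      by_cases hj : j = i
      · subst hj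
        simp only [Function.update_self]
        exact ⟨Nat.le_floor (by simpa using hN), Nat.le_floor (by simpa using hN)⟩
      · simp only [Function.update_of_ne hj]
        have h2 := entry_le (hA t ht).1 j
        have h3 : prd t ≤ ⌊N⌋₊ := Nat.le_floor (hA t ht).2.1
        exact ⟨h2.1.trans h3, h2.2.trans h3⟩
    have h4 := hfpos t ht j
    rw [Finset.mem_product, Finset.mem_Icc, Finset.mem_Icc]
    exact ⟨⟨h4.1, h1.1⟩, ⟨h4.2, h1.2⟩⟩
  have hcard : (A.card : ℝ) = ∑ b ∈ A.image f, ((A.filter (fun t => f t = b)).card : ℝ) := by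
    rw [← Nat.cast_sum, ← Finset.card_eq_sum_card_image]
  have hterm : ∀ b ∈ A.image f, ((A.filter (fun t => f t = b)).card : ℝ) ≤
      K * Real.sqrt (N * R₀) * (1 / (prd b : ℝ)) := by
    intro b hb
    obtain ⟨t, ht, rfl⟩ := Finset.mem_image.1 hb
    have h1 := hfib t ht
    have h2 : (prd (f t) : ℝ) ≤ R₀ := (hA t ht).2.2
    have h3 : (0 : ℝ) < (prd (f t) : ℝ) := by
      exact_mod_cast prd_pos (hfpos t ht)
    refine h1.trans ?_
    rw [mul_assoc]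
    refine mul_le_mul_of_nonneg_left ?_ hK
    have h4 : N / (prd (f t) : ℝ) ≤ (N * R₀) * (1 / (prd (f t) : ℝ)) ^ 2 := by
      have e1 : (N * R₀) * (1 / (prd (f t) : ℝ)) ^ 2 =
          N / (prd (f t) : ℝ) * (R₀ / (prd (f t) : ℝ)) := by
        field_simp
      rw [e1]
      have h5 : 1 ≤ R₀ / (prd (f t) : ℝ) := by
        rw [le_div_iff₀ h3]
        linarith
      have h6 : 0 ≤ N / (prd (f t) : ℝ) := by positivity
      nlinarith
    calc Real.sqrt (N / (prd (f t) : ℝ)) ≤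
        Real.sqrt ((N * R₀) * (1 / (prd (f t) : ℝ)) ^ 2) := Real.sqrt_le_sqrt h4
      _ = Real.sqrt (N * R₀) * (1 / (prd (f t) : ℝ)) := by
          rw [Real.sqrt_mul (by positivity), Real.sqrt_sq (by positivity)]
  rw [hcard]
  calc ∑ b ∈ A.image f, ((A.filter (fun t => f t = b)).card : ℝ) ≤
      ∑ b ∈ A.image f, K * Real.sqrt (N * R₀) * (1 / (prd b : ℝ)) := Finset.sum_le_sum hterm
    _ = K * Real.sqrt (N * R₀) * ∑ b ∈ A.image f, (1 / (prd b : ℝ)) := by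
        rw [Finset.mul_sum]
    _ ≤ K * Real.sqrt (N * R₀) *
        ∑ b ∈ Fintype.piFinset (fun _ : Fin 4 => Icc 1 ⌊N⌋₊ ×ˢ Icc 1 ⌊N⌋₊),
          (1 / (prd b : ℝ)) := by
        refine mul_le_mul_of_nonneg_left ?_ (by positivity)
        exact Finset.sum_le_sum_of_subset_of_nonneg hbox fun b _ _ => by positivity
    _ = K * Real.sqrt (N * R₀) * (∑ n ∈ Icc 1 ⌊N⌋₊, ((n : ℝ))⁻¹) ^ 8 := by
        rw [sum_box]
    _ ≤ K * Real.sqrt (N * R₀) * (1 + Real.log N) ^ 8 := by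
        refine mul_le_mul_of_nonneg_left ?_ (by positivity)
        exact pow_le_pow_left₀ (Finset.sum_nonneg fun n _ => by positivity) (harm N hN) 8

end Pool.Agent.FSQ
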