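import Pool.Agent.FSQ.Targets

set_option autoImplicit false

namespace Pool.Agent.FSQ

namespace TRI_

theorem tri_swap12 {a b c : ℕ} (h : Tri a b c) : Tri b a c := by
  obtain ⟨h1, h2, h3, h4, h5, h6⟩ := h
  exact ⟨h2, h1, h3, by rwa [add_comm], h6, h5⟩

theorem tri_swap13 {a b c : ℕ} (h : Tri a b c) : Tri c b a := by
  obtain ⟨h1, h2, h3, h4, h5, h6⟩ := h
  exact ⟨h3, h2, h1, by rwa [add_comm], by rwa [add_comm], by rwa [add_comm]⟩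

theorem not_both_odd {a b : ℕ} (h : IsSquare (a ^ 2 + b ^ 2)) : ¬ (Odd a ∧ Odd b) := by
  rintro ⟨⟨k, hk⟩, ⟨l, hl⟩⟩
  obtain ⟨z, hz⟩ := h
  have h1 : (a ^ 2 + b ^ 2) % 4 = 2 := by
    subst hk hl
    ring_nf
    omega
  have h2 : (z * z) % 4 = 0 ∨ (z * z) % 4 = 1 := by
    rcases Nat.even_or_odd' z with ⟨m, hm | hm⟩
    · left
      subst hm
      ring_nf
      omega
    · right
      subst hm
      ring_nf
      omega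
  rw [hz] at h1
  omega

/-- the part with first entry odd -/
def O1 (N e : ℕ) : Set (ℕ × ℕ × ℕ) := {t | t ∈ triSetE N e ∧ Odd t.1}
def O2 (N e : ℕ) : Set (ℕ × ℕ × ℕ) := {t | t ∈ triSetE N e ∧ Odd t.2.1}
def O3 (N e : ℕ) : Set (ℕ × ℕ × ℕ) := {t | t ∈ triSetE N e ∧ Odd t.2.2}

theorem cover (N e : ℕ) : triSetE N e ⊆ O1 N e ∪ O2 N e ∪ O3 N e := by
  rintro ⟨a, b, c⟩ h
  by_cases h1 : Odd a
  · exact Or.inl (Or.inl ⟨h, h1⟩)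
  by_cases h2 : Odd b
  · exact Or.inl (Or.inr ⟨h, h2⟩)
  by_cases h3 : Odd c
  · exact Or.inr ⟨h, h3⟩
  exfalso
  rw [Nat.not_odd_iff_even] at h1 h2 h3
  have h4 : Nat.gcd (Nat.gcd a b) c = 1 := h.1.2.1
  have h5 : 2 ∣ Nat.gcd (Nat.gcd a b) c :=
    Nat.dvd_gcd (Nat.dvd_gcd h1.two_dvd h2.two_dvd) h3.two_dvd
  rw [h4] at h5
  omega

theorem maps21 (N e : ℕ) : Set.MapsTo (fun t : ℕ × ℕ × ℕ => (t.2.1, t.1, t.2.2)) (O2 N e)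
    (O1 N e) := by
  rintro ⟨a, b, c⟩ ⟨⟨⟨h1, h2, h3, h4, h5⟩, h6, h7, h8⟩, h9⟩
  simp only at h1 h2 h3 h4 h5 h6 h7 h8 h9
  refine ⟨⟨⟨tri_swap12 h1, ?_, h4, h3, h5⟩, ?_, h8, h7⟩, h9⟩
  · simpa [Nat.gcd_comm b a] using h2
  · simpa [Nat.gcd_comm b a] using h6

theorem maps31 (N e : ℕ) : Set.MapsTo (fun t : ℕ × ℕ × ℕ => (t.2.2, t.2.1, t.1)) (O3 N e)
    (O1 N e) := by
  rintro ⟨a, b, c⟩ ⟨⟨⟨h1, h2, h3, h4, h5⟩, h6, h7, h8⟩, h9⟩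
  simp only at h1 h2 h3 h4 h5 h6 h7 h8 h9
  refine ⟨⟨⟨tri_swap13 h1, ?_, h5, h4, h3⟩, ?_, ?_, ?_⟩, h9⟩
  · show Nat.gcd (Nat.gcd c b) a = 1
    have hd : Nat.gcd (Nat.gcd c b) a ∣ Nat.gcd (Nat.gcd a b) c :=
      Nat.dvd_gcd (Nat.dvd_gcd (Nat.gcd_dvd_right _ _)
        ((Nat.gcd_dvd_left _ _).trans (Nat.gcd_dvd_right _ _)))
        ((Nat.gcd_dvd_left _ _).trans (Nat.gcd_dvd_left _ _))
    rw [h2] at hd
    exact Nat.dvd_one.1 hd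
  · simpa [Nat.gcd_comm c b] using h8
  · simpa [Nat.gcd_comm c a] using h7
  · simpa [Nat.gcd_comm b a] using h6

theorem inj21 (N e : ℕ) : Set.InjOn (fun t : ℕ × ℕ × ℕ => (t.2.1, t.1, t.2.2)) (O2 N e) := by
  rintro ⟨a, b, c⟩ _ ⟨a', b', c'⟩ _ h
  simp only [Prod.mk.injEq] at h ⊢
  exact ⟨h.2.1, h.1, h.2.2⟩

theorem inj31 (N e : ℕ) : Set.InjOn (fun t : ℕ × ℕ × ℕ => (t.2.2, t.2.1, t.1)) (O3 N e) := by
  rintro ⟨a, b, c⟩ _ ⟨a', b', c'⟩ _ h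
  simp only [Prod.mk.injEq] at h ⊢
  exact ⟨h.2.2, h.2.1, h.1⟩

theorem exists_map (hPAR : T_PAR) (N e : ℕ) :
    ∃ f : ℕ × ℕ × ℕ → (Fin 4 → ℕ × ℕ), Set.MapsTo f (O1 N e) (parSet N e) ∧
      Set.InjOn f (O1 N e) := by
  classical
  have key : ∀ x : ℕ × ℕ × ℕ, ∃ t : Fin 4 → ℕ × ℕ, x ∈ O1 N e →
      Adm t ∧ prd t = x.1 ∧ (t 0).1 * (t 0).2 = Nat.gcd x.1 x.2.1 ∧
      2 * x.2.1 + A2 t * B2 t = A1 t * B1 t ∧ 2 * x.2.2 + A2 t * B1 t = A1 t * B2 t := by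
    intro x
    by_cases hx : x ∈ O1 N e
    · obtain ⟨t, h1, h2, h3, _, h5, h6⟩ := hPAR x.1 x.2.1 x.2.2 hx.1.1.1 hx.2 hx.1.1.2.1
      exact ⟨t, fun _ => ⟨h1, h2, h3, h5, h6⟩⟩
    · exact ⟨fun _ => (0, 0), fun h => absurd h hx⟩
  choose f hf using key
  refine ⟨f, ?_, ?_⟩
  · intro x hx
    obtain ⟨h1, h2, h3, _, _⟩ := hf x hx
    refine ⟨h1, ?_, ?_⟩
    · rw [h2]; exact hx.1.1.2.2.1
    · rw [h3]; exact hx.1.2.1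
  · intro x hx y hy h
    obtain ⟨_, h2, _, h5, h6⟩ := hf x hx
    obtain ⟨_, h2', _, h5', h6'⟩ := hf y hy
    rw [h] at h2 h5 h6
    have e1 : x.1 = y.1 := by rw [← h2, ← h2']
    have e2 : x.2.1 = y.2.1 := by omega
    have e3 : x.2.2 = y.2.2 := by omega
    exact Prod.ext e1 (Prod.ext e2 e3)

end TRI_

open TRI_ in
theorem p_TRI (hPAR : T_PAR) (hCNT : T_CNT) : T_TRI := by
  intro ε hε
  obtain ⟨C, hC, h⟩ := hCNT ε hε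
  refine ⟨3 * C, by positivity, fun N e hN he => ?_⟩
  obtain ⟨hfin, hle⟩ := h N e hN he
  obtain ⟨f, hm, hi⟩ := exists_map hPAR N e
  have f1 : (O1 N e).Finite := Set.Finite.of_injOn hm hi hfin
  have f2 : (O2 N e).Finite := Set.Finite.of_injOn (maps21 N e) (inj21 N e) f1
  have f3 : (O3 N e).Finite := Set.Finite.of_injOn (maps31 N e) (inj31 N e) f1
  have c1 : (O1 N e).ncard ≤ (parSet N e).ncard := Set.ncard_le_ncard_of_injOn f hm hi hfin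
  have c2 : (O2 N e).ncard ≤ (O1 N e).ncard :=
    Set.ncard_le_ncard_of_injOn _ (maps21 N e) (inj21 N e) f1
  have c3 : (O3 N e).ncard ≤ (O1 N e).ncard :=
    Set.ncard_le_ncard_of_injOn _ (maps31 N e) (inj31 N e) f1
  have c4 : (triSetE N e).ncard ≤ (O1 N e ∪ O2 N e ∪ O3 N e).ncard :=
    Set.ncard_le_ncard (cover N e) ((f1.union f2).union f3)
  have c5 : (O1 N e ∪ O2 N e ∪ O3 N e).ncard ≤ (O1 N e ∪ O2 N e).ncard + (O3 N e).ncard :=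
    Set.ncard_union_le _ _
  have c6 : (O1 N e ∪ O2 N e).ncard ≤ (O1 N e).ncard + (O2 N e).ncard := Set.ncard_union_le _ _
  have c7 : (triSetE N e).ncard ≤ 3 * (parSet N e).ncard := by omega
  have c8 : (((triSetE N e).ncard : ℕ) : ℝ) ≤ 3 * (((parSet N e).ncard : ℕ) : ℝ) := by
    exact_mod_cast c7
  calc (((triSetE N e).ncard : ℕ) : ℝ) ≤ 3 * (((parSet N e).ncard : ℕ) : ℝ) := c8
    _ ≤ 3 * (C * (N : ℝ) ^ ε * min ((N : ℝ) ^ ((7 : ℝ) / 8)) ((N : ℝ) / Real.sqrt e)) := by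
        linarith
    _ = _ := by ring

end Pool.Agent.FSQ
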