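import Pool.Agent.FSQ.Defs

set_option autoImplicit false

/-!
# FSQ: targets for MP_a81a37_nt (four squares with all pairwise sums square)

Paper proof: ideas row 2347 (helper31). Every target is a closed proposition `T_X : Prop`; a job
proves `theorem p_X (h : T_Y) ... : T_X` in the file `Pool/Agent/FSQ/X.lean`, namespace
`Pool.Agent.FSQ`, where the hypotheses `T_Y` are the targets named in the docstring.
-/

namespace Pool.Agent.FSQ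

open Finset
open scoped BigOperators

/-! ### Part A: a character sum without Weil -/

/-- VAN. (about 80 lines) Uniformity of the value of a random quartic form at a vector `v` not
parallel to three given vectors. PROOF. Let `L` be the coordinate `x` if `v.1 ≠ 0`, else `y`
(if `v = 0` the hypothesis fails). Let `c₀` be the coefficient vector of the quartic form
`L(x,y) * ∏ᵢ (x * wᵢ.2 - y * wᵢ.1)` (write the five coefficients explicitly and check by `ring`).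
Then `qf c₀ v ≠ 0`, `qf c₀ wᵢ = 0`, and `qf (c + t • c₀) = qf c + t * qf c₀`. The sum over `c` is
invariant under `c ↦ c + t • c₀`, so `p *` (the sum) `= ∑_c ∑_t χ(qf c v + t * qf c₀ v) * χ(rest)`
`= 0` since `∑_t χ(a + t e) = 0` for `e ≠ 0` (`quadraticChar_sum_zero`). -/
def T_VAN : Prop := ∀ (p : ℕ) [Fact p.Prime], 5 ≤ p → ∀ v w₁ w₂ w₃ : ZMod p × ZMod p,
  v.1 * w₁.2 ≠ v.2 * w₁.1 → v.1 * w₂.2 ≠ v.2 * w₂.1 → v.1 * w₃.2 ≠ v.2 * w₃.1 →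
  ∑ c : Fin 5 → ZMod p,
    quadraticChar (ZMod p) (qf c v * qf c w₁ * qf c w₂ * qf c w₃) = 0

/-- MOM (uses T_VAN; about 120 lines). Fourth moment over all quartic forms.
PROOF. `(TT p c)^4 = ∑_{v₁ v₂ v₃ v₄} χ(qf c v₁ * qf c v₂ * qf c v₃ * qf c v₄)`. Exchange the sums. The
inner sum over `c` is at most `p^5` in absolute value. It is `0` if some `vᵢ = 0` (`qf c 0 = 0`),
and `0` by T_VAN (after a permutation of the factors) if some `vᵢ` is parallel to none of the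
others. For nonzero vectors parallelism is an equivalence relation, so in the remaining cases
`v₁ ∥ v₂, v₃ ∥ v₄` or `v₁ ∥ v₃, v₂ ∥ v₄` or `v₁ ∥ v₄, v₂ ∥ v₃`. The number of pairs of parallel
nonzero vectors is at most `p^2 * p` (for `v ≠ 0` the solutions `w` of `v.1 * w.2 = v.2 * w.1` are
`p` in number: `w` is determined by one of its coordinates). Total `≤ 3 * p^6 * p^5`. -/
def T_MOM : Prop := ∀ (p : ℕ) [Fact p.Prime], 5 ≤ p →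
  ∑ c : Fin 5 → ZMod p, (TT p c) ^ 4 ≤ 3 * (p : ℤ) ^ 11

/-- STB. (about 150 lines) The stabiliser of a nondegenerate even quartic has at most 96 elements.
PROOF. Write `g = (a, b, c, d)`, `f = α x⁴ + β x² y² + γ y⁴`. The quartic form
`f(ax+by, cx+dy) - f(x,y)` vanishes at `(1,0), (0,1), (1,1), (1,-1), (2,1)`, so (as `p ≥ 5`) its
five coefficients are `0`: (x⁴) `f(a,c) = α`, (y⁴) `f(b,d) = γ`, and with `U = ab`, `V = cd`
(x³y) `U(4αa²+2βc²) + V(2βa²+4γc²) = 0`, (xy³) `U(4αb²+2βd²) + V(2βb²+4γd²) = 0`. The determinant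
of this linear system is `4(4αγ-β²)(ad-bc)(ad+bc)` (`ring`).
Case `ad + bc ≠ 0`: `U = V = 0`, so `b = c = 0`, `a⁴ = 1`, `d⁴ = 1` (at most 16) or `a = d = 0`,
`γc⁴ = α`, `αb⁴ = γ` (at most 16).
Case `ad + bc = 0`: then `2ad ≠ 0`, all entries are nonzero, `d = -bc/a`,
`γ = f(b,d) = (b/a)⁴ f(a,c) = (b/a)⁴ α`; (x³y) becomes `4(b/a)(αa⁴ - γc⁴) = 0`; and
`α = f(a,c) = a⁴(2α + β(c/a)²)`. So `c/a` has at most 4 values, given it `a` has at most 4, and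
`b/a` has at most 4: at most 64. (`card {x | x^4 = e} ≤ 4`: `Polynomial.card_roots'` of
`X^4 - C e`, or `card_nthRoots`.) -/
def T_STB : Prop := ∀ (p : ℕ) [Fact p.Prime], 5 ≤ p → ∀ α β γ : ZMod p,
  α ≠ 0 → γ ≠ 0 → β ^ 2 ≠ 4 * α * γ →
  {g : ZMod p × ZMod p × ZMod p × ZMod p | gdet g ≠ 0 ∧
    ∀ v, qf (evc α β γ) (act g v) = qf (evc α β γ) v}.ncard ≤ 96

/-- ORB (uses T_STB; about 120 lines). Many quartic forms have the same character sum.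
PROOF. `G = {g | gdet g ≠ 0}` has `(p²-1)(p²-p) ≥ p⁴/2` elements (count: first column nonzero,
second column not a multiple of it; or `Matrix.card_GL_field`). For `g ∈ G` there is a coefficient
vector `C g` with `qf (C g) v = qf (evc α β γ) (act g v)` for all `v` (explicit, `ring`), and
`TT p (C g) = TT p (evc α β γ)` because `act g` is a bijection of the plane. If `C g = C g'` then
`h = g ∘ g'⁻¹` (matrix product) lies in the set of T_STB, so every fibre of `C` has at most 96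
elements and the image of `G` under `C` has at least `p⁴/192`. -/
def T_ORB : Prop := ∀ (p : ℕ) [Fact p.Prime], 5 ≤ p → ∀ α β γ : ZMod p,
  α ≠ 0 → γ ≠ 0 → β ^ 2 ≠ 4 * α * γ →
  p ^ 4 ≤ 192 * (univ.filter (fun c : Fin 5 → ZMod p => TT p c = TT p (evc α β γ))).card

/-- CHS (uses T_MOM, T_ORB; about 80 lines). Elementary bound for the character sum.
PROOF. With `T = TT p (evc α β γ)`: `(p⁴/192) T⁴ ≤ ∑_c (TT p c)⁴ ≤ 3 p¹¹`, so `T⁴ ≤ 576 p⁷` and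
`|T| ≤ 4.9 p^(7/4)`. Splitting the plane into `y ≠ 0` (substitute `x = t y`, `χ(y⁴) = 1`) and
`y = 0`: `T = (p-1) ∑_t χ(αt⁴+βt²+γ) + (p-1) χ(α)`. Hence `|∑_t ..| ≤ 4.9 p^(7/4)/(p-1) + 1`
`≤ 7 p^(3/4)` for `p ≥ 5`. -/
def T_CHS : Prop := ∀ (p : ℕ) [Fact p.Prime], 5 ≤ p → ∀ α β γ : ZMod p,
  α ≠ 0 → γ ≠ 0 → β ^ 2 ≠ 4 * α * γ →
  |((∑ t : ZMod p, quadraticChar (ZMod p) (α * t ^ 4 + β * t ^ 2 + γ) : ℤ) : ℝ)| ≤
    7 * (p : ℝ) ^ ((3 : ℝ) / 4)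

/-- SQC (uses T_CHS; about 60 lines). PROOF. Let `n₀ ≤ 4` be the number of zeros of the quartic,
`n₊` the number of `t` with a nonzero square value: `2 n₊ = p - n₀ + ∑_t χ(..)`, and the number of
`t` with a square value is `n₊ + n₀ ≤ p/2 + 2 + 3.5 p^(3/4)`; finally `3 ≤ p^(3/4)` for `p ≥ 5`. -/
def T_SQC : Prop := ∀ (p : ℕ) [Fact p.Prime], 5 ≤ p → ∀ α β γ : ZMod p,
  α ≠ 0 → γ ≠ 0 → β ^ 2 ≠ 4 * α * γ →
  (({t : ZMod p | IsSquare (α * t ^ 4 + β * t ^ 2 + γ)}.ncard : ℕ) : ℝ) + 1 ≤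
    (p : ℝ) / 2 + 5 * (p : ℝ) ^ ((3 : ℝ) / 4)

/-! ### Part B: larger sieve -/

/-- LSV. (about 120 lines) Larger sieve for coprime pairs (rational points of the line).
PROOF. For `p ∈ P`: the number of `(s,t) ∈ S × S` with `κ s = κ t` is at least `|S|²/ν p`
(Cauchy-Schwarz, the image of `κ` has at most `ν p` elements). Multiply by `log p` and sum over `p`:
`|S|² ∑ log p/ν p ≤ ∑_{s,t} ∑_{p ∈ P, κ s = κ t} log p`. The diagonal contributes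
`|S| ∑_{p ∈ P} log p`. For `s ≠ t` the integer `s.1*t.2 - t.1*s.2` is not `0` (both pairs are
coprime and positive) and of absolute value `≤ X*Y`, and all the primes `p ∈ P` with `κ s = κ t`
divide it, so their product divides it and the inner sum is at most `log (X*Y)`. If `S` is empty
the claim is `0 ≤ ∑ log p`. Divide by `|S|`. -/
def T_LSV : Prop := ∀ (S : Finset (ℕ × ℕ)) (X Y : ℕ) (P : Finset ℕ) (ν : ℕ → ℝ),
  (∀ s ∈ S, 0 < s.1 ∧ 0 < s.2 ∧ s.1 ≤ X ∧ s.2 ≤ Y ∧ Nat.Coprime s.1 s.2) →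
  (∀ p ∈ P, p.Prime ∧ 0 < ν p ∧ ∃ κ : ℕ × ℕ → Option (ZMod p),
    (((κ '' (S : Set (ℕ × ℕ))).ncard : ℕ) : ℝ) ≤ ν p ∧
    ∀ s ∈ S, ∀ t ∈ S, κ s = κ t → (p : ℤ) ∣ ((s.1 : ℤ) * t.2 - (t.1 : ℤ) * s.2)) →
  (S.card : ℝ) * ((∑ p ∈ P, Real.log p / ν p) - Real.log ((X : ℝ) * Y)) ≤ ∑ p ∈ P, Real.log p

/-- MRT. (about 120 lines) Mertens from below with bad primes.
PROOF. `log p/(p/2 + 5p^(3/4)) = (2 log p/p)/(1 + 10 p^(-1/4)) ≥ 2 log p/p - 20 (log p) p^(-5/4)`.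
`∑_{p ≤ Q} log p/p ≥ log Q - C` is `Pool.Agent.ACP.p_M1` (import Pool.Agent.ACP.P_M1;
`ACP.pr`), the primes 2, 3 cost a constant, `∑_n (log n) n^(-5/4) < ∞`
(`log n ≤ 8 n^(1/8)`, `Real.summable_nat_rpow`). Bad primes: for `y = 2/ε`
`∑_{p ∣ B} 2 log p/p ≤ 2 ∑_{p ≤ y} log p + (2/y) ∑_{p ∣ B} log p ≤ K_y + ε log B`
(`∏_{p ∣ B} p ≤ B`). -/
def T_MRT : Prop := ∀ ε : ℝ, 0 < ε → ∃ K : ℝ, ∀ Q B : ℕ, 1 ≤ Q → 1 ≤ B →
  2 * Real.log Q - K - ε * Real.log B ≤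
    ∑ p ∈ (Icc 5 Q).filter (fun p => p.Prime ∧ ¬ p ∣ B),
      Real.log p / ((p : ℝ) / 2 + 5 * (p : ℝ) ^ ((3 : ℝ) / 4))

/-- BOX (uses T_SQC, T_LSV, T_MRT; about 150 lines). Coprime points in a box on
`z² = αx⁴ + βx²y² + γy⁴`. PROOF. `B = |6αγ(β² - 4αγ)|`, `1 ≤ B ≤ 30 H⁴`. For a prime `p ≥ 5`,
`p ∤ B`, put `κ s = none` if `p ∣ s.2`, else `some (s.1/s.2)`. If `κ s = some t` then
`αt⁴+βt²+γ` is a square mod `p` (divide by `s.2⁴`), so by T_SQC the image of `κ` has at most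
`ν p = p/2 + 5p^(3/4)` elements. T_MRT with `ε/2` in place of `ε` gives `K`. Let
`Q = ⌈exp((log(XY) + K + (ε/2) log B + 1)/2)⌉` (and `≥ 1`). Then the bracket in T_LSV is `≥ 1`, so
`|S| ≤ ∑_{p ≤ Q} log p ≤ (log 4) Q` (`Chebyshev.theta_le_log4_mul_x`, or
`Pool.Agent.QTw.MERT_.theta_sum`) `≤ C (XY)^(1/2) H^ε`. -/
def T_BOX : Prop := ∀ ε : ℝ, 0 < ε → ∃ C : ℝ, 0 < C ∧
  ∀ (H : ℝ) (α β γ : ℤ) (X Y : ℕ) (S : Finset (ℕ × ℕ)), 1 ≤ H → Good α β γ →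
    |(α : ℝ)| ≤ H → |(β : ℝ)| ≤ H → |(γ : ℝ)| ≤ H → 1 ≤ X → 1 ≤ Y →
    (∀ s ∈ S, 0 < s.1 ∧ 0 < s.2 ∧ s.1 ≤ X ∧ s.2 ≤ Y ∧ Nat.Coprime s.1 s.2 ∧
      IsSquare (Qz α β γ s.1 s.2)) →
    (S.card : ℝ) ≤ C * Real.sqrt ((X : ℝ) * Y) * H ^ ε

/-- HYP (uses T_BOX; about 80 lines). The same below a hyperbola. PROOF. Split `S` by
`i = Nat.log 2 s.1`: then `2^i ≤ s.1 < 2^(i+1)` and `s.2 ≤ Z/2^i`. Use T_BOX with `X = 2^(i+1)`,
`Y = ⌊Z/2^i⌋₊ ≥ 1`, `XY ≤ 2Z`. Only `i` with `2^i ≤ Z` occur: at most `1 + log Z/log 2` of them. -/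
def T_HYP : Prop := ∀ ε : ℝ, 0 < ε → ∃ C : ℝ, 0 < C ∧
  ∀ (H Z : ℝ) (α β γ : ℤ) (S : Finset (ℕ × ℕ)), 1 ≤ H → 1 ≤ Z → Good α β γ →
    |(α : ℝ)| ≤ H → |(β : ℝ)| ≤ H → |(γ : ℝ)| ≤ H →
    (∀ s ∈ S, 0 < s.1 ∧ 0 < s.2 ∧ (s.1 : ℝ) * s.2 ≤ Z ∧ Nat.Coprime s.1 s.2 ∧
      IsSquare (Qz α β γ s.1 s.2)) →
    (S.card : ℝ) ≤ C * Real.sqrt Z * (1 + Real.log Z) * H ^ ε

/-! ### Part D: the parametrisation -/

/-- PYT. (about 60 lines) Pythagorean pairs with an odd leg. PROOF. `g = gcd a b`, `a = g a'`,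
`b = g b'`, `a'` odd, `a'^2 + b'^2 = e^2` (`g^2 ∣ z^2` gives `g ∣ z`), `a'` and `b'` coprime. Then
`(e - b')(e + b') = a'^2` and the factors are coprime (both odd, a common prime divides `2e`, `2b'`)
so they are squares (`Nat.sq_of_coprime` or similar): `e + b' = u²`, `e - b' = v²`. -/
def T_PYT : Prop := ∀ a b : ℕ, Odd a → 0 < b → IsSquare (a ^ 2 + b ^ 2) →
  ∃ u v : ℕ, 0 < v ∧ v < u ∧ Nat.Coprime u v ∧ a = Nat.gcd a b * (u * v) ∧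
    2 * b + Nat.gcd a b * v ^ 2 = Nat.gcd a b * u ^ 2

/-- PAR (uses T_PYT; about 150 lines). The eight parameters of a primitive triple with `a` odd.
PROOF. T_PYT for `(a,b)` and `(a,c)`: `g = gcd a b`, `h = gcd a c`, `a = g u v = h u' v'`. `g` and `h`
are coprime (`gcd (gcd a b) c = 1`). `h ∣ u v`, `g ∣ u' v'`. `h₁ = gcd u h`, `h₂ = gcd v h`,
`h₁ h₂ = h` (`Nat.Coprime.gcd_mul`), `g₁ = gcd u' g`, `g₂ = gcd v' g`, `g₁ g₂ = g`;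
`u = h₁ U`, `v = h₂ V`, `u' = g₁ W`, `v' = g₂ Z`, `U V = W Z` (cancel `g h` in `a`), `U, V` coprime,
`W, Z` coprime. `p = gcd U W`, `q = gcd U Z`, `r = gcd V W`, `s = gcd V Z`; then `U = p q`, `V = r s`,
`W = p r`, `Z = q s`. Take `t = ![(g₁,g₂), (h₁,h₂), (p,s), (q,r)]`:
`A₁ B₁ = g (h₁ p q)² = g u²`, `A₂ B₂ = g v²`, `A₁ B₂ = h u'²`, `A₂ B₁ = h v'²`,
`F8 = (A₁B₁ - A₂B₂)² + (A₁B₂ - A₂B₁)² = 4(b² + c²)` is a square. The coprimality of each of the four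
pairs follows from that of `u, v` and `u', v'`. -/
def T_PAR : Prop := ∀ a b c : ℕ, Tri a b c → Odd a → Nat.gcd (Nat.gcd a b) c = 1 →
  ∃ t : Fin 4 → ℕ × ℕ, Adm t ∧ prd t = a ∧ (t 0).1 * (t 0).2 = Nat.gcd a b ∧
    (t 1).1 * (t 1).2 = Nat.gcd a c ∧ 2 * b + A2 t * B2 t = A1 t * B1 t ∧
    2 * c + A2 t * B1 t = A1 t * B2 t

/-- QRT. (about 200 lines) For each of the four pairs, `F8` is a nondegenerate even quartic form in
this pair; its coefficients depend on the other three pairs only. PROOF. Take (all evaluated at `t'`,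
in which the `i`-th pair is `(1,1)`):
`i = 2` (`p, s`): `α = (h₁g₁)²(B₁²+B₂²)`, `β = -4 h₁h₂g₁g₂B₁B₂`, `γ = (h₂g₂)²(B₁²+B₂²)`,
`β²-4αγ = -4(h₁h₂g₁g₂)²(B₁²-B₂²)²`; if `B₁ = B₂` then `F8 = 2B₁²(A₁-A₂)²` is a square, so `A₁ = A₂`
(irrationality of the square root of 2), against `A₂B₂ < A₁B₁`.
`i = 3` (`q, r`): `α = (h₁g₂)²(A₁²+A₂²)`, `β = -4 h₁h₂g₁g₂A₁A₂`, `γ = (g₁h₂)²(A₁²+A₂²)`; `A₁ = A₂` is
impossible by the two inequalities in `Adm`.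
`i = 0` (`g₁, g₂`): `x₁ = h₁p²`, `x₂ = h₂s²`, `y₁ = h₁q²`, `y₂ = h₂r²`: `α = (x₁y₂)²`,
`β = x₁²y₁²+x₂²y₂²-4x₁x₂y₁y₂`, `γ = (x₂y₁)²`; with `X = x₁y₁ = (h₁pq)²`, `Y = x₂y₂ = (h₂rs)²`:
`β²-4αγ = (X-Y)²((X-Y)²-4XY)`; `Y < X` from `A₂B₂ < A₁B₁`, and `(X-Y)² = 4XY` would give
`x² - y² = ± 2xy` for `X = x²`, `Y = y²`, i.e. `(x ∓ y)² = 2y²`, impossible.
`i = 1` (`h₁, h₂`): `x₁ = g₁p²`, `x₂ = g₂s²`, `y₁ = g₂q²`, `y₂ = g₁r²`: `α = (x₁y₁)²`,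
`β = x₁²y₂²+x₂²y₁²-4x₁x₂y₁y₂`, `γ = (x₂y₂)²`; `X = x₁y₂ = (g₁pr)²`, `Y = x₂y₁ = (g₂qs)²`, `Y < X` from
`A₂B₁ < A₁B₂`.
Size: every single parameter and every product of different parameters is `≤ prd t`. -/
def T_QRT : Prop := ∀ i : Fin 4, ∃ α β γ : (Fin 4 → ℕ × ℕ) → ℤ, ∀ t, Adm t →
  Good (α (Function.update t i (1, 1))) (β (Function.update t i (1, 1)))
      (γ (Function.update t i (1, 1))) ∧
    |α (Function.update t i (1, 1))| ≤ 8 * (prd t : ℤ) ^ 8 ∧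
    |β (Function.update t i (1, 1))| ≤ 8 * (prd t : ℤ) ^ 8 ∧
    |γ (Function.update t i (1, 1))| ≤ 8 * (prd t : ℤ) ^ 8 ∧
    F8 t = Qz (α (Function.update t i (1, 1))) (β (Function.update t i (1, 1)))
      (γ (Function.update t i (1, 1))) (t i).1 (t i).2

/-! ### Part E: counting -/

/-- SUM. (about 100 lines) PROOF. `|A| = ∑_{t₀} |fibre| ≤ K √N ∑_{t₀} prd(t₀)^(-1/2)`
`≤ K √N √R₀ ∑_{t₀} 1/prd(t₀)` (`prd t₀ ≤ R₀`), and the `t₀` are among the functions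
`Fin 4 → ℕ × ℕ` with all entries in `[1, ⌊N⌋]` (entries are `≤ prd t ≤ N`), for which the sum of
`1/prd` is `(∑_{n ≤ N} 1/n)^8 ≤ (1 + log N)^8`. -/
def T_SUM : Prop := ∀ (A : Finset (Fin 4 → ℕ × ℕ)) (i : Fin 4) (N R₀ K : ℝ),
  1 ≤ N → 0 < R₀ → 0 ≤ K →
  (∀ t ∈ A, (∀ j, 0 < (t j).1 ∧ 0 < (t j).2) ∧ (prd t : ℝ) ≤ N ∧
    (prd (Function.update t i (1, 1)) : ℝ) ≤ R₀) →
  (∀ t₀ ∈ A, ((A.filter (fun t => Function.update t i (1, 1) =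
      Function.update t₀ i (1, 1))).card : ℝ) ≤
    K * Real.sqrt (N / prd (Function.update t₀ i (1, 1)))) →
  (A.card : ℝ) ≤ K * Real.sqrt (N * R₀) * (1 + Real.log N) ^ 8

/-- CNT (uses T_HYP, T_QRT, T_SUM; about 200 lines). PROOF. `parSet N e` is finite (all entries are
`≤ prd t ≤ N`). Split it into four parts `A_i`, `i : Fin 4`, according to the pair with the largest
product `P_i = (t i).1 * (t i).2` (`A_i` = those `t` with `P_j ≤ P_i` for all `j`). Let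
`R = prd (update t i (1,1)) = prd t / P_i = ∏_{j ≠ i} P_j`. Then `R ≤ P_i³` and `R P_i ≤ N`, so
`R⁴ ≤ N³`, `R ≤ N^(3/4)`; and `R ≤ N/P_i ≤ N/P_0 ≤ N/e`. Fibre of `t₀ ∈ A_i` in T_SUM: for `t` in
it the pairs `(x,y) = t i` are coprime, `x y ≤ N/prd(t₀') =: Z` (`t₀' = update t₀ i (1,1)`), and lie
on the quartic of T_QRT with coefficients `≤ 8N⁸ =: H`, so by T_HYP (with a small `ε'`) the fibre has
at most `K √Z` elements, `K = C (1 + log N)(8N⁸)^ε'`. T_SUM with `R₀ = N^(3/4)` gives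
`√(N R₀) = N^(7/8)`, with `R₀ = N/e` it gives `√(N R₀) = N/√e`. Powers of `1 + log N` are
`≤ C N^ε''`. -/
def T_CNT : Prop := ∀ ε : ℝ, 0 < ε → ∃ C : ℝ, 0 < C ∧ ∀ N e : ℕ, 1 ≤ N → 1 ≤ e →
  (parSet N e).Finite ∧
  (((parSet N e).ncard : ℕ) : ℝ) ≤
    C * (N : ℝ) ^ ε * min ((N : ℝ) ^ ((7 : ℝ) / 8)) ((N : ℝ) / Real.sqrt e)

/-- TRI (uses T_PAR, T_CNT; about 120 lines). PROOF. In a primitive triple exactly one entry is odd
(two odd numbers: the sum of the squares is `2` mod `4`; not all are even). So `triSetE N e` is the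
union of three sets; for the one with `a` odd the map `(a,b,c) ↦ t` of T_PAR (choice) goes into
`parSet N e` and is injective (`a = prd t`, and `b, c` are determined by the last two equations); the
other two sets are mapped into this one by a permutation of the entries (`Tri` is symmetric). -/
def T_TRI : Prop := ∀ ε : ℝ, 0 < ε → ∃ C : ℝ, 0 < C ∧ ∀ N e : ℕ, 1 ≤ N → 1 ≤ e →
  (((triSetE N e).ncard : ℕ) : ℝ) ≤
    C * (N : ℝ) ^ ε * min ((N : ℝ) ^ ((7 : ℝ) / 8)) ((N : ℝ) / Real.sqrt e)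

/-- DVS. (about 50 lines) PROOF. `a² + d² = y²` gives `(y - d)(y + d) = a²`, so `d` is determined by
the divisor `y - d` of `a²`: at most `(a²).divisors.card` values; divisor bound
`SSM.p_TAU` (import Pool.Agent.SSM.TAU). -/
def T_DVS : Prop := ∀ ε : ℝ, 0 < ε → ∃ C : ℝ, 0 < C ∧ ∀ a : ℕ, 1 ≤ a →
  {d : ℕ | 0 < d ∧ IsSquare (a ^ 2 + d ^ 2)}.Finite ∧
  (({d : ℕ | 0 < d ∧ IsSquare (a ^ 2 + d ^ 2)}.ncard : ℕ) : ℝ) ≤ C * (a : ℝ) ^ ε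

/-- QAD (uses T_TRI, T_DVS; about 250 lines). PROOF. Let `(a,b,c,d) ∈ quadSet N`. The gcds of the
four triples are pairwise coprime (the total gcd is 1). By symmetry (4 cases, permute the entries) let
`e = gcd(a,b,c)` be the smallest. `(a,b,c)/e` is a primitive triple with entries `≤ N/e`.
`gcd(a,b)` is divisible by the coprime numbers `e` and `gcd(a,b,d) ≥ e`, so `gcd(a/e, b/e) ≥ e`;
the same for the other two pairs: `(a,b,c)/e ∈ triSetE (N/e) e`. The quadruple is determined by `e`,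
this triple and `d`; by T_DVS there are at most `C a^ε` values of `d`. So the number is at most
`4 C N^ε ∑_{e=1}^N |triSetE (N/e) e| ≤ C' N^(2ε) (∑_{e ≤ N^(1/5)} (N/e)^(7/8) +`
`∑_{e > N^(1/5)} N e^(-3/2)) ≤ C'' N^(9/10 + 2ε)` (`∑_{e ≤ E} e^(-7/8) ≤ 9 E^(1/8)`,
`∑_{e > E} e^(-3/2) ≤ 3 E^(-1/2)`, `E = N^(1/5)`; for `e > N` the set is empty). A slick way:
`min(u, v) ≤ u^(1-θ) v^θ` with `θ = 1/5 + small`: `(N/e)^(7/8 (1-θ)) (N e^(-3/2))^θ`; for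
`θ = 1/5` this is `N^(9/10) e^(-1)`, and `∑_{e ≤ N} 1/e ≤ 1 + log N`. -/
def T_QAD : Prop := ∀ ε : ℝ, 0 < ε → ∃ C : ℝ, 0 < C ∧ ∀ N : ℕ, 1 ≤ N →
  (((quadSet N).ncard : ℕ) : ℝ) ≤ C * (N : ℝ) ^ ((9 : ℝ) / 10 + ε)

/-- ASY (uses T_QAD; about 200 lines). PROOF. Let `𝒫` be the set of all primitive quadruples and
`m` the maximum of the entries. Every quadruple is `k` times a primitive one, in a unique way (`k` =
gcd), so `|quadAll N| = ∑_{P ∈ 𝒫, m(P) ≤ N} ⌊N/m(P)⌋`. `κ = ∑_{P ∈ 𝒫} 1/m(P)` converges: dyadic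
blocks `2^j < m(P) ≤ 2^(j+1)` contain at most `C 2^((j+1) θ)` elements, `θ = 9/10 + ε < 1`.
`κ N - |quadAll N| = ∑_{m ≤ N} (N/m - ⌊N/m⌋) + N ∑_{m > N} 1/m`, the first sum is between `0` and
`|quadSet N| ≤ C N^θ`, the second at most `N ∑_{j ≥ 0} C (2^(j+1) N)^θ/(2^j N) ≤ C' N^θ` (blocks
`2^j N < m ≤ 2^(j+1) N`). For `ε ≥ 1/20` use the statement for a smaller `ε`. `κ = 0` iff `𝒫` is
empty iff there is no quadruple at all. -/
def T_ASY : Prop := ∃ κ : ℝ, 0 ≤ κ ∧ (κ = 0 ↔ ¬ ∃ a b c d : ℕ, Quad a b c d) ∧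
  ∀ ε : ℝ, 0 < ε → ∃ C : ℝ, 0 < C ∧ ∀ N : ℕ, 1 ≤ N →
    |(((quadAll N).ncard : ℕ) : ℝ) - κ * N| ≤ C * (N : ℝ) ^ ((9 : ℝ) / 10 + ε)

end Pool.Agent.FSQ
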