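import Pool.Agent.FSQ.Targets

set_option autoImplicit false

/-!
# FSQ, target VAN
-/

namespace Pool.Agent.FSQ

open Finset
open scoped BigOperators

namespace VAN_

/-- the coefficients of the product of l x + m y and the three forms x * wᵢ.2 - y * wᵢ.1 -/
def cof {R : Type*} [CommRing R] (l m : R) (w₁ w₂ w₃ : R × R) : Fin 5 → R :=
  ![m * (-(w₁.1 * w₂.1 * w₃.1)),
    l * (-(w₁.1 * w₂.1 * w₃.1)) +
      m * (w₁.1 * w₂.1 * w₃.2 + w₁.1 * w₂.2 * w₃.1 + w₁.2 * w₂.1 * w₃.1),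
    l * (w₁.1 * w₂.1 * w₃.2 + w₁.1 * w₂.2 * w₃.1 + w₁.2 * w₂.1 * w₃.1) +
      m * (-(w₁.1 * w₂.2 * w₃.2 + w₁.2 * w₂.1 * w₃.2 + w₁.2 * w₂.2 * w₃.1)),
    l * (-(w₁.1 * w₂.2 * w₃.2 + w₁.2 * w₂.1 * w₃.2 + w₁.2 * w₂.2 * w₃.1)) +
      m * (w₁.2 * w₂.2 * w₃.2),
    l * (w₁.2 * w₂.2 * w₃.2)]

lemma qf_cof {R : Type*} [CommRing R] (l m : R) (w₁ w₂ w₃ v : R × R) :
    qf (cof l m w₁ w₂ w₃) v = (l * v.1 + m * v.2) * (v.1 * w₁.2 - v.2 * w₁.1) *
      (v.1 * w₂.2 - v.2 * w₂.1) * (v.1 * w₃.2 - v.2 * w₃.1) := by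
  have e0 : cof l m w₁ w₂ w₃ 0 = m * (-(w₁.1 * w₂.1 * w₃.1)) := rfl
  have e1 : cof l m w₁ w₂ w₃ 1 = l * (-(w₁.1 * w₂.1 * w₃.1)) +
      m * (w₁.1 * w₂.1 * w₃.2 + w₁.1 * w₂.2 * w₃.1 + w₁.2 * w₂.1 * w₃.1) := rfl
  have e2 : cof l m w₁ w₂ w₃ 2 =
      l * (w₁.1 * w₂.1 * w₃.2 + w₁.1 * w₂.2 * w₃.1 + w₁.2 * w₂.1 * w₃.1) +
      m * (-(w₁.1 * w₂.2 * w₃.2 + w₁.2 * w₂.1 * w₃.2 + w₁.2 * w₂.2 * w₃.1)) := rfl
  have e3 : cof l m w₁ w₂ w₃ 3 =
      l * (-(w₁.1 * w₂.2 * w₃.2 + w₁.2 * w₂.1 * w₃.2 + w₁.2 * w₂.2 * w₃.1)) +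
      m * (w₁.2 * w₂.2 * w₃.2) := rfl
  have e4 : cof l m w₁ w₂ w₃ 4 = l * (w₁.2 * w₂.2 * w₃.2) := rfl
  unfold qf
  rw [e0, e1, e2, e3, e4]
  ring

lemma qf_add {R : Type*} [CommRing R] (c c₀ : Fin 5 → R) (t : R) (v : R × R) :
    qf (c + t • c₀) v = qf c v + t * qf c₀ v := by
  simp only [qf, Pi.add_apply, Pi.smul_apply, smul_eq_mul]
  ring

end VAN_

open VAN_

theorem p_VAN : T_VAN := by
  intro p hp h5 v w₁ w₂ w₃ h1 h2 h3
  have hchar : ringChar (ZMod p) ≠ 2 := by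
    rw [ZMod.ringChar_zmod_n]
    omega
  obtain ⟨l, m, hlm⟩ : ∃ l m : ZMod p, l * v.1 + m * v.2 ≠ 0 := by
    by_cases hv : v.1 = 0
    · refine ⟨0, 1, ?_⟩
      rw [zero_mul, one_mul, zero_add]
      intro hv2
      apply h1
      rw [hv, hv2, zero_mul, zero_mul]
    · exact ⟨1, 0, by rwa [one_mul, zero_mul, add_zero]⟩
  set c₀ := cof l m w₁ w₂ w₃ with hc₀
  have hv : qf c₀ v ≠ 0 := by
    rw [hc₀, qf_cof]
    exact mul_ne_zero (mul_ne_zero (mul_ne_zero hlm (sub_ne_zero.2 h1)) (sub_ne_zero.2 h2))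
      (sub_ne_zero.2 h3)
  have hw1 : qf c₀ w₁ = 0 := by rw [hc₀, qf_cof]; ring
  have hw2 : qf c₀ w₂ = 0 := by rw [hc₀, qf_cof]; ring
  have hw3 : qf c₀ w₃ = 0 := by rw [hc₀, qf_cof]; ring
  set S := ∑ c : Fin 5 → ZMod p,
    quadraticChar (ZMod p) (qf c v * qf c w₁ * qf c w₂ * qf c w₃) with hS
  have hshift : ∀ t : ZMod p, ∑ c : Fin 5 → ZMod p,
      quadraticChar (ZMod p) ((qf c v + t * qf c₀ v) * qf c w₁ * qf c w₂ * qf c w₃) = S := by
    intro t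
    rw [hS]
    refine Fintype.sum_equiv (Equiv.addRight (t • c₀)) _ _ fun c => ?_
    rw [Equiv.coe_addRight, qf_add, qf_add, qf_add, qf_add, hw1, hw2, hw3, mul_zero, add_zero,
      add_zero, add_zero]
  have hin : ∀ a : ZMod p, ∑ t : ZMod p, quadraticChar (ZMod p) (a + t * qf c₀ v) = 0 := by
    intro a
    have h := quadraticChar_sum_zero hchar
    rw [← h]
    refine Fintype.sum_bijective (fun t : ZMod p => a + t * qf c₀ v) ?_ _ _ fun t => rfl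
    constructor
    · intro t t' htt
      simp only at htt
      exact mul_right_cancel₀ hv (add_left_cancel htt)
    · intro y
      refine ⟨(y - a) / qf c₀ v, ?_⟩
      simp only
      rw [div_mul_cancel₀ _ hv]
      ring
  have htot : (Fintype.card (ZMod p) : ℤ) * S = 0 := by
    calc (Fintype.card (ZMod p) : ℤ) * S = ∑ t : ZMod p, S := by
          rw [sum_const, card_univ, nsmul_eq_mul]
      _ = ∑ t : ZMod p, ∑ c : Fin 5 → ZMod p, quadraticChar (ZMod p)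
            ((qf c v + t * qf c₀ v) * qf c w₁ * qf c w₂ * qf c w₃) :=
          sum_congr rfl fun t _ => (hshift t).symm
      _ = ∑ c : Fin 5 → ZMod p, ∑ t : ZMod p, quadraticChar (ZMod p)
            ((qf c v + t * qf c₀ v) * qf c w₁ * qf c w₂ * qf c w₃) := sum_comm
      _ = 0 := by
          refine sum_eq_zero fun c _ => ?_
          have h : ∀ t : ZMod p, quadraticChar (ZMod p)
              ((qf c v + t * qf c₀ v) * qf c w₁ * qf c w₂ * qf c w₃) =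
              quadraticChar (ZMod p) (qf c v + t * qf c₀ v) *
              quadraticChar (ZMod p) (qf c w₁ * qf c w₂ * qf c w₃) := by
            intro t
            rw [← map_mul]
            congr 1
            ring
          rw [sum_congr rfl fun t _ => h t, ← sum_mul, hin, zero_mul]
  rcases mul_eq_zero.1 htot with h | h
  · rw [ZMod.card] at h
    have := hp.out.pos
    omega
  · exact h

end Pool.Agent.FSQ
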